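import Pool.Agent.TH784.AA.Dens

/-!
# Assembly: actions by commuting affine maps, factors, two-sided averages
-/

set_option autoImplicit false
set_option linter.unusedSectionVars false

open Filter Topology MeasureTheory
open scoped ENNReal

noncomputable section

namespace Pool.Agent.TH784.AA

open Pool.Agent.W761.Box (bxc BM Cv prod_zpow_add eval_affine)
open Pool.Agent.W761.Gauss (IsFactor inter_prod mp_prod BM_of_memLp)

section aff

variable {X : Type*} [CommGroup X] [TopologicalSpace X] [IsTopologicalGroup X] [CompactSpace X]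
  [T2Space X]

theorem IsAff.symm {φ : Equiv.Perm X} (h : IsAff (φ : X → X)) : IsAff (φ⁻¹ : Equiv.Perm X) := by
  obtain ⟨α, c, h1⟩ := h
  have hinj : Function.Injective (α : X → X) := by
    intro x y hxy
    apply φ.injective
    rw [h1, h1, hxy]
  have hr : ∀ y, α (φ.symm (y * c)) = y := by
    intro y
    have := h1 (φ.symm (y * c))
    rw [Equiv.apply_symm_apply] at this
    exact (mul_right_cancel this).symm
  let e : X ≃ X :=
    { toFun := α
      invFun := fun y => φ.symm (y * c)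
      left_inv := fun x => hinj (hr (α x))
      right_inv := hr }
  have hcont : Continuous (e : X → X) := α.continuous_toFun
  have hcs : Continuous (e.symm : X → X) := (hcont.homeoOfEquivCompactToT2).symm.continuous
  let β : X →ₜ* X :=
    { toFun := fun y => φ.symm (y * c)
      map_one' := hinj (by rw [hr, map_one])
      map_mul' := fun x y => hinj (by rw [hr, map_mul, hr, hr])
      continuous_toFun := hcs }
  refine ⟨β, β c⁻¹, fun y => ?_⟩
  rw [← map_mul]
  show φ.symm y = φ.symm (y * c⁻¹ * c)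
  rw [inv_mul_cancel_right]

theorem IsAff.pow {φ : Equiv.Perm X} (h : IsAff (φ : X → X)) (n : ℕ) :
    IsAff ((φ ^ n : Equiv.Perm X) : X → X) := by
  induction n with
  | zero =>
    rw [pow_zero]
    exact IsAff.id
  | succ n ih =>
    rw [pow_succ]
    exact ih.comp h

theorem IsAff.zpow {φ : Equiv.Perm X} (h : IsAff (φ : X → X)) (n : ℤ) :
    IsAff ((φ ^ n : Equiv.Perm X) : X → X) := by
  cases n with
  | ofNat n =>
    rw [Int.ofNat_eq_natCast, zpow_natCast]
    exact h.pow n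
  | negSucc n =>
    rw [zpow_negSucc]
    exact (h.pow (n + 1)).symm

theorem isAff_prod {d : ℕ} {T : Fin d → Equiv.Perm X} (h : ∀ i, IsAff (T i : X → X))
    (a : Fin d → ℤ) : IsAff ((List.ofFn fun i => T i ^ a i).prod : Equiv.Perm X) := by
  induction d with
  | zero =>
    rw [List.ofFn_zero, List.prod_nil]
    exact IsAff.id
  | succ d ih =>
    rw [List.ofFn_succ, List.prod_cons]
    exact ((h 0).zpow _).comp (ih (T := fun i => T i.succ) (fun i => h _) _)

variable [MeasurableSpace X] [BorelSpace X] {μ : Measure X} [μ.IsHaarMeasure]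
  [IsProbabilityMeasure μ]

/-- bounded measurable functions, affine exponents -/
theorem affine_conv {d k n : ℕ} {T : Fin d → Equiv.Perm X} (hT : ∀ i, IsAff (T i : X → X))
    (hc : ∀ i j, Commute (T i) (T j)) (c : Fin d → Fin n → ℤ) (a : Fin d → Fin n → Fin k → ℤ)
    {f : Fin n → X → ℂ} (hf : ∀ j, BM (f j)) :
    ∀ᵐ x ∂μ, ∃ L : ℂ, Tendsto (fun N => bxc k N fun m => ∏ j, f j
      ((List.ofFn fun i : Fin d => T i ^ (c i j + ∑ l, (m l : ℤ) * a i j l)).prod x))
      atTop (𝓝 L) := by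
  let Φ : (Fin d → ℤ) → Equiv.Perm X := fun a => (List.ofFn fun i => T i ^ a i).prod
  have hΦ : ∀ a b, Φ (a + b) = Φ a * Φ b := fun a b => prod_zpow_add T hc a b
  have hΦ0 : Φ 0 = 1 := by
    show (List.ofFn fun i => T i ^ ((0 : Fin d → ℤ) i)).prod = 1
    simp
  have haff : ∀ a, IsAff (Φ a : X → X) := fun a => isAff_prod hT a
  have hfg : AddGroup.FG (Fin d → ℤ) := Module.Finite.iff_addGroup_fg.1 inferInstance
  have hmain := conv_bm (μ := μ) hΦ hΦ0 haff (fun (j : Fin n) (i : Fin d) => c i j)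
    (fun (j : Fin n) (l : Fin k) (i : Fin d) => a i j l) hf
  filter_upwards [hmain] with x hx
  obtain ⟨L, hL⟩ := hx
  refine ⟨L, hL.congr fun N => ?_⟩
  congr 1
  funext m
  apply Finset.prod_congr rfl
  intro j _
  show f j ((List.ofFn fun i => T i ^ (((fun i => c i j) + ∑ l, m l • fun i => a i j l) i)).prod x)
    = _
  have h5 : ∀ i, (((fun i => c i j) + ∑ l, m l • fun i => a i j l) i) =
      c i j + ∑ l, (m l : ℤ) * a i j l := by
    intro i
    rw [Pi.add_apply, Finset.sum_apply]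
    congr 1
  simp only [h5]

theorem mp_symm {φ : Equiv.Perm X} (h : IsAff (φ : X → X)) :
    MeasurePreserving ((φ⁻¹ : Equiv.Perm X) : X → X) μ μ := h.symm.mp

end aff

/-- from a system to its factors -/
theorem factor_gen {X Y : Type} [MeasurableSpace X] [MeasurableSpace Y]
    {μ : Measure X} [IsProbabilityMeasure μ] {ν : Measure Y}
    {d n k : ℕ} {T : Fin d → Equiv.Perm X}
    (hTm : ∀ i, MeasurePreserving (T i) μ μ)
    (hT' : ∀ i, MeasurePreserving ((T i)⁻¹ : Equiv.Perm X) μ μ) {R : Fin d → Equiv.Perm Y}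
    (hRm : ∀ i, Measurable (R i).symm) (hR : ∀ i, MeasurePreserving (R i) ν ν)
    (hfac : IsFactor μ T ν R) (E : (Fin k → ℕ) → Fin d → Fin n → ℤ)
    (hconv : ∀ f : Fin n → X → ℂ, (∀ j, BM (f j)) → ∀ᵐ x ∂μ, ∃ L : ℂ,
      Tendsto (fun N => bxc k N fun m => ∏ j, f j
        ((List.ofFn fun i : Fin d => T i ^ E m i j).prod x)) atTop (𝓝 L))
    {f : Fin n → Y → ℂ} (hf : ∀ j, MemLp (f j) ∞ ν) :
    ∀ᵐ y ∂ν, ∃ L : ℂ, Tendsto (fun N => bxc k N fun m => ∏ j, f j
      ((List.ofFn fun i : Fin d => R i ^ E m i j).prod y)) atTop (𝓝 L) := by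
  obtain ⟨π, hπ, hπT⟩ := hfac
  have hR' : ∀ i, MeasurePreserving ((R i)⁻¹ : Equiv.Perm Y) ν ν := by
    intro i
    let e : Y ≃ᵐ Y := ⟨R i, (hR i).measurable, hRm i⟩
    exact (hR i).symm e
  choose g hg hfg using fun j => BM_of_memLp (hf j)
  have h1 := hconv (fun j => g j ∘ π) fun j => by
    obtain ⟨gm, C, hC⟩ := hg j
    exact ⟨gm.comp hπ.measurable, C, fun x => hC _⟩
  have h2 : ∀ᵐ x ∂μ, ∀ (m : Fin k → ℕ) (j : Fin n),
      π ((List.ofFn fun i : Fin d => T i ^ E m i j).prod x) =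
      (List.ofFn fun i : Fin d => R i ^ E m i j).prod (π x) := by
    rw [ae_all_iff]
    intro m
    rw [ae_all_iff]
    intro j
    exact inter_prod hTm hT' hπT _
  have hgR : ∀ (m : Fin k → ℕ), Measurable fun y => ∏ j, g j
      ((List.ofFn fun i : Fin d => R i ^ E m i j).prod y) := by
    intro m
    apply Finset.measurable_fun_prod
    intro j _
    exact (hg j).1.comp (mp_prod hR hR' _).measurable
  have hms : MeasurableSet {y | ∃ L : ℂ, Tendsto (fun N => bxc k N fun m => ∏ j, g j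
      ((List.ofFn fun i : Fin d => R i ^ E m i j).prod y)) atTop (𝓝 L)} := by
    apply measurableSet_exists_tendsto
    intro N
    unfold Pool.Agent.W761.Box.bxc
    exact (Finset.measurable_fun_sum _ fun n _ => hgR n).const_mul _
  have h3 : ∀ᵐ x ∂μ, π x ∈ {y | ∃ L : ℂ, Tendsto (fun N => bxc k N fun m => ∏ j, g j
      ((List.ofFn fun i : Fin d => R i ^ E m i j).prod y)) atTop (𝓝 L)} := by
    filter_upwards [h1, h2] with x hx1 hx2
    obtain ⟨L, hL⟩ := hx1
    refine ⟨L, hL.congr fun N => ?_⟩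
    congr 1
    funext m
    apply Finset.prod_congr rfl
    intro j _
    rw [Function.comp_apply, hx2]
  have h4 : ∀ᵐ y ∂ν, y ∈ {y | ∃ L : ℂ, Tendsto (fun N => bxc k N fun m => ∏ j, g j
      ((List.ofFn fun i : Fin d => R i ^ E m i j).prod y)) atTop (𝓝 L)} := by
    rw [← hπ.map_eq]
    exact (ae_map_iff hπ.measurable.aemeasurable hms).mpr h3
  have h5 : ∀ᵐ y ∂ν, ∀ (m : Fin k → ℕ) (j : Fin n),
      f j ((List.ofFn fun i : Fin d => R i ^ E m i j).prod y) =
      g j ((List.ofFn fun i : Fin d => R i ^ E m i j).prod y) := by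
    rw [ae_all_iff]
    intro m
    rw [ae_all_iff]
    intro j
    exact (mp_prod hR hR' _).quasiMeasurePreserving.ae (hfg j)
  filter_upwards [h4, h5] with y hy4 hy5
  obtain ⟨L, hL⟩ := hy4
  refine ⟨L, hL.congr fun N => ?_⟩
  congr 1
  funext m
  apply Finset.prod_congr rfl
  intro j _
  rw [hy5]

/-- two-sided averages from one-sided averages -/
theorem two_sided {F : ℤ → ℂ}
    (h1 : ∃ L : ℂ, Tendsto (fun N => bxc 1 N fun m => F (m 0 : ℤ)) atTop (𝓝 L))
    (h2 : ∃ L : ℂ, Tendsto (fun N => bxc 1 N fun m => F (-(m 0 : ℤ))) atTop (𝓝 L)) :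
    ∃ L : ℂ, Tendsto (fun N : ℕ => ((2 * N + 1 : ℕ) : ℂ)⁻¹ *
      ∑ n ∈ Finset.Icc (-(N : ℤ)) (N : ℤ), F n) atTop (𝓝 L) := by
  obtain ⟨L₁, h1⟩ := h1
  obtain ⟨L₂, h2⟩ := h2
  have hN : Tendsto (fun (N : ℕ) (_ : Fin 1) => N + 1) atTop atTop :=
    tendsto_atTop_atTop.2 fun b => ⟨b 0, fun N hN j => by
      rw [Subsingleton.elim j 0]
      show b 0 ≤ N + 1
      omega⟩
  have hbx : ∀ (G : ℕ → ℂ) (N : ℕ), bxc 1 (fun _ => N + 1) (fun m => G (m 0)) =
      ((N : ℂ) + 1)⁻¹ * ∑ n ∈ Finset.range (N + 1), G n := by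
    intro G N
    rw [bxc_eq]
    congr 1
    · unfold vol
      rw [Fin.prod_univ_one]
      push_cast
      rfl
    · refine Finset.sum_nbij' (fun m => m 0) (fun n _ => n) ?_ ?_ ?_ ?_ ?_
      · intro m hm
        rw [mem_bxs] at hm
        exact Finset.mem_range.2 (hm 0)
      · intro n hn
        rw [mem_bxs]
        intro _
        exact Finset.mem_range.1 hn
      · intro m _
        funext j
        rw [Subsingleton.elim j 0]
      · intro n _
        rfl
      · intro m _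
        rfl
  have e1 := h1.comp hN
  have e2 := h2.comp hN
  have e1' : Tendsto (fun N : ℕ => ((N : ℂ) + 1)⁻¹ * ∑ n ∈ Finset.range (N + 1), F (n : ℤ))
      atTop (𝓝 L₁) := e1.congr fun N => hbx (fun n => F (n : ℤ)) N
  have e2' : Tendsto (fun N : ℕ => ((N : ℂ) + 1)⁻¹ * ∑ n ∈ Finset.range (N + 1), F (-(n : ℤ)))
      atTop (𝓝 L₂) := e2.congr fun N => hbx (fun n => F (-(n : ℤ))) N
  have hinv : Tendsto (fun N : ℕ => ((2 * N + 1 : ℕ) : ℂ)⁻¹) atTop (𝓝 0) := by
    have h3 : Tendsto (fun N : ℕ => ((2 * N + 1 : ℕ) : ℝ)⁻¹) atTop (𝓝 0) := by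
      apply tendsto_inv_atTop_zero.comp
      exact tendsto_natCast_atTop_atTop.comp
        (tendsto_atTop_atTop.2 fun b => ⟨b, fun a ha => by omega⟩)
    have h4 := (Complex.continuous_ofReal.tendsto _).comp h3
    simp only [Complex.ofReal_zero] at h4
    refine h4.congr fun N => ?_
    rw [Function.comp_apply]
    push_cast
    rfl
  have hr : Tendsto (fun N : ℕ => ((N : ℂ) + 1) * ((2 * N + 1 : ℕ) : ℂ)⁻¹) atTop (𝓝 (2⁻¹)) := by
    have h3 : ∀ N : ℕ, ((N : ℂ) + 1) * ((2 * N + 1 : ℕ) : ℂ)⁻¹ =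
        2⁻¹ + 2⁻¹ * ((2 * N + 1 : ℕ) : ℂ)⁻¹ := by
      intro N
      have : ((2 * N + 1 : ℕ) : ℂ) ≠ 0 := by
        exact_mod_cast Nat.succ_ne_zero (2 * N)
      field_simp
      push_cast
      ring
    simp only [h3]
    simpa using (hinv.const_mul (2⁻¹ : ℂ)).const_add (2⁻¹ : ℂ)
  refine ⟨2⁻¹ * (L₁ + L₂) - 0 * F 0, ((hr.mul (e1'.add e2')).sub (hinv.mul_const (F 0))).congr
    fun N => ?_⟩
  have hsum : ∑ n ∈ Finset.Icc (-(N : ℤ)) (N : ℤ), F n =
      ∑ n ∈ Finset.range (N + 1), F (n : ℤ) + ∑ n ∈ Finset.range (N + 1), F (-(n : ℤ)) - F 0 := by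
    induction N with
    | zero => simp
    | succ N ih =>
      have e3 : Finset.Icc (-((N + 1 : ℕ) : ℤ)) ((N + 1 : ℕ) : ℤ) =
          insert ((N + 1 : ℕ) : ℤ) (insert (-((N + 1 : ℕ) : ℤ))
            (Finset.Icc (-(N : ℤ)) (N : ℤ))) := by
        ext z
        simp only [Finset.mem_insert, Finset.mem_Icc]
        push_cast
        omega
      rw [e3, Finset.sum_insert, Finset.sum_insert, ih, Finset.sum_range_succ _ (N + 1),
        Finset.sum_range_succ _ (N + 1)]
      · ring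
      · simp only [Finset.mem_Icc]
        push_cast
        omega
      · simp only [Finset.mem_insert, Finset.mem_Icc]
        push_cast
        omega
  rw [hsum]
  have hne : (N : ℂ) + 1 ≠ 0 := by exact_mod_cast Nat.succ_ne_zero N
  field_simp

end Pool.Agent.TH784.AA
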