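import Pool.Agent.TH784.AA.AE

/-!
# The dichotomy for sums over orbits of an action of a finitely generated abelian group
-/

set_option autoImplicit false

noncomputable section

namespace Pool.Agent.TH784.AA

/-- an action of `A` on the abelian group `Q` by endomorphisms -/
structure IsAct {A Q : Type*} [AddCommGroup A] [AddCommGroup Q] (Ψ : A → Q →+ Q) : Prop where
  add : ∀ a b x, Ψ (a + b) x = Ψ a (Ψ b x)
  zero : ∀ x, Ψ 0 x = x

section

variable {A Q : Type*} [AddCommGroup A] [AddCommGroup Q] {Ψ : A → Q →+ Q}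

theorem IsAct.neg (h : IsAct Ψ) (a : A) (x : Q) : Ψ (-a) (Ψ a x) = x := by
  rw [← h.add, neg_add_cancel, h.zero]

theorem IsAct.inj (h : IsAct Ψ) (a : A) {x : Q} (hx : Ψ a x = 0) : x = 0 := by
  rw [← h.neg a x, hx, map_zero]

/-- the ring homomorphism of the group ring -/
def IsAct.hom (h : IsAct Ψ) : MonoidAlgebra ℤ (Multiplicative A) →ₐ[ℤ] Module.End ℤ Q :=
  MonoidAlgebra.lift ℤ (Module.End ℤ Q) (Multiplicative A)
    { toFun := fun a => (Ψ a.toAdd).toIntLinearMap
      map_one' := by
        ext x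
        exact h.zero x
      map_mul' := fun a b => by
        ext x
        exact h.add _ _ x }

theorem IsAct.hom_of (h : IsAct Ψ) (a : A) (x : Q) :
    h.hom (MonoidAlgebra.of ℤ (Multiplicative A) (Multiplicative.ofAdd a)) x = Ψ a x := by
  unfold IsAct.hom
  rw [MonoidAlgebra.lift_of]
  rfl

variable {k : ℕ} {J : Type*} [Fintype J]

/-- sums over orbits -/
def os (Ψ : A → Q →+ Q) (a : J → Fin k → A) (w : J → Q) : (Fin k → ℕ) → Q :=
  fun n => ∑ j, Ψ (∑ l, n l • a j l) (w j)

/-- **The dichotomy.** -/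
theorem dic_act [AddGroup.FG A] (h : IsAct Ψ) (a : J → Fin k → A) (w : J → Q) :
    ∃ q : ℕ, 1 ≤ q ∧ ∀ r : Fin k → ℕ, (∀ j, r j < q) → ∀ l,
      Indc l (sub r q (os Ψ a w)) ∨ FewB l (sub r q (os Ψ a w)) := by
  classical
  let R := MonoidAlgebra ℤ (Multiplicative A)
  let _ : Module R Q := Module.compHom Q h.hom.toRingHom
  have hfg : Monoid.FG (Multiplicative A) :=
    AddMonoid.fg_iff_mul_fg.1 (AddGroup.fg_iff_addMonoid_fg.1 inferInstance)
  have hft : Algebra.FiniteType ℤ R := MonoidAlgebra.finiteType_of_fg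
  have hN : IsNoetherianRing R := Algebra.FiniteType.isNoetherianRing ℤ R
  let M : Submodule R Q := Submodule.span R (Set.range w)
  have hM : IsNoetherian R M := isNoetherian_span_of_finite R (Set.finite_range w)
  let x : J → Fin k → R := fun j l => MonoidAlgebra.of ℤ (Multiplicative A)
    (Multiplicative.ofAdd (a j l))
  let χ : J → M := fun j => ⟨w j, Submodule.subset_span ⟨j, rfl⟩⟩
  have hsm : ∀ (a : A) (m : Q), MonoidAlgebra.of ℤ (Multiplicative A) (Multiplicative.ofAdd a) • m
      = Ψ a m := fun a m => h.hom_of a m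
  have hx : ∀ j l, ∃ y : R, ∀ m : M, y • x j l • m = m := by
    intro j l
    refine ⟨MonoidAlgebra.of ℤ (Multiplicative A) (Multiplicative.ofAdd (-a j l)), fun m => ?_⟩
    ext
    rw [Submodule.coe_smul, Submodule.coe_smul, hsm, hsm, h.neg]
  obtain ⟨q, hq, key⟩ := dic_all x hx χ
  have hes : ∀ n, ((es x χ n : M) : Q) = os Ψ a w n := by
    intro n
    unfold es os
    rw [Submodule.coe_sum]
    refine Finset.sum_congr rfl fun j _ => ?_
    rw [Submodule.coe_smul]
    have e : ∏ l, x j l ^ n l = MonoidAlgebra.of ℤ (Multiplicative A)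
        (Multiplicative.ofAdd (∑ l, n l • a j l)) := by
      rw [ofAdd_sum, map_prod]
      refine Finset.prod_congr rfl fun l _ => ?_
      rw [ofAdd_nsmul, map_pow]
    rw [e]
    exact hsm _ _
  refine ⟨q, hq, fun r hr l => ?_⟩
  rcases key r hr l with h1 | h1
  · left
    intro n
    have h2 := h1 n
    rw [Submodule.mem_bot, sub_eq_zero] at h2
    have h3 := congrArg (Subtype.val) h2
    unfold sub at h3 ⊢
    rw [hes, hes] at h3
    exact h3
  · right
    obtain ⟨G, C, δ, hC, hδ, h2, h3⟩ := fewB_of_few h1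
    refine ⟨G, C, δ, hC, hδ, fun c N hN => ?_, h3⟩
    by_cases hc : c ∈ M
    · refine (cnt_mono fun n hn => ⟨hn.1, ?_⟩).trans (h2 ⟨c, hc⟩ N hN)
      apply Subtype.ext
      show ((sub r q (es x χ) n : M) : Q) = c
      exact (hes _).trans hn.2
    · have h4 : cnt N (fun n => n ∈ G ∧ sub r q (os Ψ a w) n = c) ≤ cnt N (fun _ => False) := by
        refine cnt_mono fun n hn => hc ?_
        rw [← hn.2]
        unfold sub
        rw [← hes]
        exact Subtype.coe_prop _
      refine h4.trans ?_
      rw [cnt_eq_sum]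
      simp only [if_false, Finset.sum_const_zero]
      have := vol_nonneg N
      positivity

end

end Pool.Agent.TH784.AA
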