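import Pool.Agent.TH784.AA.Mix

/-!
# Affine characters of compact abelian groups and actions by affine maps
-/

set_option autoImplicit false

open Filter Topology MeasureTheory
open scoped ComplexConjugate

noncomputable section

namespace Pool.Agent.TH784.AA

open Pool.Agent.W742.CU (IsPoly Dv UM Per)
open Pool.Agent.W761.Box (bxc)
open Pool.Agent.H767R2 (ev ev_add ev_zero norm_ev)

variable {k : ℕ}

theorem indc_mix {α : Type*} {D : Finset (Fin k)} {b : (Fin k → ℕ) → α}
    (h : ∀ l ∉ D, Indc l b) (n m : Fin k → ℕ) : b (mix D n m) = b n := by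
  classical
  have key : ∀ T : Finset (Fin k), (∀ l ∈ T, l ∉ D) → b (fun j => if j ∈ T then m j else n j) =
      b n := by
    intro T
    induction T using Finset.induction_on with
    | empty =>
      intro _
      simp
    | insert l T hl ih =>
      intro hT
      rw [← ih fun l' hl' => hT l' (Finset.mem_insert_of_mem hl')]
      have e1 : (fun j => if j ∈ insert l T then m j else n j) =
          Function.update (fun j => if j ∈ T then m j else n j) l (m l) := by
        funext j
        by_cases hj : j = l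
        · subst hj
          rw [Function.update_self, if_pos (Finset.mem_insert_self _ _)]
        · rw [Function.update_of_ne hj]
          simp only [Finset.mem_insert, hj, false_or]
      have e2 : (fun j => if j ∈ T then m j else n j) =
          Function.update (fun j => if j ∈ T then m j else n j) l (n l) := by
        funext j
        by_cases hj : j = l
        · subst hj
          rw [Function.update_self, if_neg hl]
        · rw [Function.update_of_ne hj]
      rw [e1]
      conv_rhs => rw [e2]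
      exact (h l (hT l (Finset.mem_insert_self _ _))).eq _ _ _
  have h1 := key (Finset.univ.filter fun l => l ∉ D) (fun l hl => (Finset.mem_filter.1 hl).2)
  rw [← h1]
  congr 1
  funext j
  unfold mix
  by_cases hj : j ∈ D
  · rw [if_pos hj, if_neg]
    rw [Finset.mem_filter]
    rintro ⟨_, h2⟩
    exact h2 hj
  · rw [if_neg hj, if_pos]
    rw [Finset.mem_filter]
    exact ⟨Finset.mem_univ _, hj⟩

theorem Indc.sub {α : Type*} {l : Fin k} {b : (Fin k → ℕ) → α} (h : Indc l b)
    (r : Fin k → ℕ) (q : ℕ) : Indc l (sub r q b) := by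
  intro n
  unfold AA.sub
  have e : (fun j => r j + q * Function.update n l (n l + 1) j) =
      Function.update (fun j => r j + q * n j) l (r l + q * (n l + 1)) := by
    funext j
    by_cases hj : j = l
    · subst hj
      rw [Function.update_self, Function.update_self]
    · rw [Function.update_of_ne hj, Function.update_of_ne hj]
  rw [e]
  have := h.eq (fun j => r j + q * n j) (r l + q * (n l + 1)) (r l + q * n l)
  rw [this]
  congr 1
  exact Function.update_eq_self _ _

theorem FewB.sub {M : Type*} {l : Fin k} {b : (Fin k → ℕ) → M}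
    (hf : FewB l b) {r : Fin k → ℕ} {q : ℕ} (hr : ∀ j, r j < q) : FewB l (sub r q b) := by
  obtain ⟨G, C, δ, hC, hδ, h1, h2⟩ := hf
  have hpow : ∀ n : ℕ, 1 ≤ n → 1 ≤ q → ((q * n : ℕ) : ℝ) ^ (-δ) ≤ (n : ℝ) ^ (-δ) := by
    intro n hn hq
    have hn' : (0 : ℝ) < n := by exact_mod_cast hn
    apply Real.rpow_le_rpow_of_nonpos hn'
    · have : n ≤ q * n := Nat.le_mul_of_pos_left n hq
      exact_mod_cast this
    · linarith
  refine ⟨{n | (fun j => r j + q * n j) ∈ G}, C * (q : ℝ) ^ k, δ, by positivity, hδ, ?_, ?_⟩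
  · intro c N hN
    have hq : 1 ≤ q := by
      have := hr l
      omega
    have hN' : ∀ j, 1 ≤ q * N j := fun j => Nat.mul_pos hq (hN j)
    refine (cnt_sub hr N (fun n => n ∈ G ∧ b n = c)).trans ?_
    refine (h1 c _ hN').trans ?_
    rw [vol_mul, mul_assoc C, mul_assoc ((q : ℝ) ^ k)]
    refine mul_le_mul_of_nonneg_left ?_ hC
    refine mul_le_mul_of_nonneg_left ?_ (by positivity)
    refine mul_le_mul_of_nonneg_left ?_ (vol_nonneg _)
    exact hpow _ (hN l) hq
  · intro N hN
    have hq : 1 ≤ q := by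
      have := hr l
      omega
    have hN' : ∀ j, 1 ≤ q * N j := fun j => Nat.mul_pos hq (hN j)
    refine (cnt_sub hr N (fun n => n ∉ G)).trans ?_
    refine (h2 _ hN').trans ?_
    rw [vol_mul, mul_assoc C, mul_assoc ((q : ℝ) ^ k)]
    refine mul_le_mul_of_nonneg_left ?_ hC
    refine mul_le_mul_of_nonneg_left ?_ (by positivity)
    refine mul_le_mul_of_nonneg_left ?_ (vol_nonneg _)
    exact Finset.sum_le_sum fun j _ => hpow _ (hN j) hq

section chars

variable {X : Type*} [CommGroup X] [TopologicalSpace X]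

/-- characters multiplied by constants -/
def IsAC (f : X → Circle) : Prop := ∃ (χ : X →ₜ* Circle) (c : Circle), ∀ x, f x = c * χ x

/-- affine maps -/
def IsAff (φ : X → X) : Prop := ∃ (α : X →ₜ* X) (c : X), ∀ x, φ x = α x * c

theorem IsAC.one : IsAC (fun _ : X => (1 : Circle)) := by
  refine ⟨1, 1, fun x => ?_⟩
  simp

theorem IsAC.mul {f g : X → Circle} (hf : IsAC f) (hg : IsAC g) : IsAC (fun x => f x * g x) := by
  obtain ⟨χ, c, h⟩ := hf
  obtain ⟨χ', c', h'⟩ := hg
  refine ⟨χ * χ', c * c', fun x => ?_⟩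
  show f x * g x = c * c' * (χ x * χ' x)
  rw [h, h', mul_mul_mul_comm]

theorem IsAC.inv {f : X → Circle} (hf : IsAC f) : IsAC (fun x => (f x)⁻¹) := by
  obtain ⟨χ, c, h⟩ := hf
  refine ⟨χ⁻¹, c⁻¹, fun x => ?_⟩
  show (f x)⁻¹ = c⁻¹ * (χ x)⁻¹
  rw [h, mul_inv]

theorem IsAC.comp {f : X → Circle} (hf : IsAC f) {φ : X → X} (hφ : IsAff φ) :
    IsAC (fun x => f (φ x)) := by
  obtain ⟨χ, c, h⟩ := hf
  obtain ⟨α, d, hα⟩ := hφ
  refine ⟨χ.comp α, c * χ d, fun x => ?_⟩
  show f (φ x) = c * χ d * χ (α x)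
  rw [h, hα, map_mul, mul_assoc, mul_comm (χ d)]

theorem IsAC.continuous {f : X → Circle} (hf : IsAC f) : Continuous f := by
  obtain ⟨χ, c, h⟩ := hf
  have e : f = fun x => c * χ x := funext h
  rw [e]
  exact continuous_const.mul χ.continuous_toFun

theorem IsAff.id : IsAff (fun x : X => x) := by
  refine ⟨ContinuousMonoidHom.id X, 1, fun x => ?_⟩
  rw [mul_one]
  rfl

theorem IsAff.comp {φ ψ : X → X} (hφ : IsAff φ) (hψ : IsAff ψ) : IsAff (fun x => φ (ψ x)) := by
  obtain ⟨α, c, h⟩ := hφ
  obtain ⟨β, d, h'⟩ := hψ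
  refine ⟨α.comp β, α d * c, fun x => ?_⟩
  show φ (ψ x) = α (β x) * (α d * c)
  rw [h, h', map_mul, mul_assoc]

/-- orthogonality -/
theorem int_ac [IsTopologicalGroup X] [CompactSpace X] [MeasurableSpace X] [BorelSpace X]
    {μ : Measure X} [IsProbabilityMeasure μ] [μ.IsMulLeftInvariant] {f g : X → Circle}
    (hf : IsAC f) (hg : IsAC g) (h : ¬ ∃ c, ∀ x, f x = c * g x) :
    ∫ x, (f x : ℂ) * conj (g x : ℂ) ∂μ = 0 := by
  obtain ⟨χ, c, hχ⟩ := hf.mul hg.inv
  have e : ∀ x, (f x : ℂ) * conj (g x : ℂ) = ((c * χ x : Circle) : ℂ) := by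
    intro x
    rw [← hχ x, Circle.coe_mul, Circle.coe_inv_eq_conj]
  simp only [e]
  obtain ⟨y, hy⟩ : ∃ y, χ y ≠ 1 := by
    by_contra hcon
    push Not at hcon
    apply h
    refine ⟨c, fun x => ?_⟩
    have := hχ x
    rw [hcon x, mul_one] at this
    exact eq_mul_of_mul_inv_eq this
  have h1 := integral_mul_left_eq_self (μ := μ) (fun x => ((c * χ x : Circle) : ℂ)) y
  have h2 : ∀ x, ((c * χ (y * x) : Circle) : ℂ) = (χ y : ℂ) * ((c * χ x : Circle) : ℂ) := by
    intro x
    rw [map_mul, ← Circle.coe_mul, mul_left_comm]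
  simp only [h2] at h1
  rw [integral_const_mul] at h1
  have h3 : ((χ y : ℂ) - 1) * ∫ x, ((c * χ x : Circle) : ℂ) ∂μ = 0 := by
    rw [sub_mul, one_mul, h1, sub_self]
  rcases mul_eq_zero.1 h3 with h4 | h4
  · exfalso
    apply hy
    apply Circle.ext
    rw [Circle.coe_one]
    exact sub_eq_zero.1 h4
  · exact h4

end chars

section act

variable {X : Type*}

/-- the group of circle-valued functions -/
abbrev BB (X : Type*) := Additive (X → Circle)

/-- pullback -/
def pbk (φ : X → X) : BB X →+ BB X :=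
  AddMonoidHom.mk' (fun f => Additive.ofMul fun x => f.toMul (φ x)) (fun _ _ => rfl)

theorem pbk_apply (φ : X → X) (f : BB X) (x : X) : (pbk φ f).toMul x = f.toMul (φ x) := rfl

/-- the constants -/
def KK (X : Type*) : AddSubgroup (BB X) where
  carrier := {f | ∀ x y, f.toMul x = f.toMul y}
  zero_mem' := fun _ _ => rfl
  add_mem' := fun {f g} hf hg x y => by
    show f.toMul x * g.toMul x = f.toMul y * g.toMul y
    rw [hf x y, hg x y]
  neg_mem' := fun {f} hf x y => by
    show (f.toMul x)⁻¹ = (f.toMul y)⁻¹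
    rw [hf x y]

theorem mem_KK {f : BB X} : f ∈ KK X ↔ ∀ x y, f.toMul x = f.toMul y := Iff.rfl

variable {A : Type*} [AddCommGroup A]

theorem isAct_pbk {Φ : A → Equiv.Perm X} (hΦ : ∀ a b, Φ (a + b) = Φ a * Φ b) (hΦ0 : Φ 0 = 1) :
    IsAct (fun a => pbk (Φ a : X → X)) where
  add := by
    intro a b f
    rw [add_comm, hΦ]
    rfl
  zero := by
    intro f
    rw [hΦ0]
    rfl

theorem pbk_KK (φ : X → X) {f : BB X} (hf : f ∈ KK X) : pbk φ f = f := by
  apply Additive.toMul.injective
  funext x
  exact hf _ _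

/-- the action on the quotient -/
def qbk (φ : X → X) : BB X ⧸ KK X →+ BB X ⧸ KK X :=
  QuotientAddGroup.map (KK X) (KK X) (pbk φ) (fun f hf => by
    show pbk φ f ∈ KK X
    rw [pbk_KK φ hf]
    exact hf)

theorem qbk_mk (φ : X → X) (f : BB X) :
    qbk φ (QuotientAddGroup.mk' (KK X) f) = QuotientAddGroup.mk' (KK X) (pbk φ f) := rfl

theorem isAct_qbk {Φ : A → Equiv.Perm X} (hΦ : ∀ a b, Φ (a + b) = Φ a * Φ b) (hΦ0 : Φ 0 = 1) :
    IsAct (fun a => qbk (Φ a : X → X)) where
  add := by
    intro a b f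
    induction f using QuotientAddGroup.induction_on with
    | H f =>
      have := (isAct_pbk hΦ hΦ0).add a b f
      show QuotientAddGroup.mk' (KK X) (pbk (Φ (a + b)) f) =
        QuotientAddGroup.mk' (KK X) (pbk (Φ a) (pbk (Φ b) f))
      rw [this]
  zero := by
    intro f
    induction f using QuotientAddGroup.induction_on with
    | H f =>
      have := (isAct_pbk hΦ hΦ0).zero f
      show QuotientAddGroup.mk' (KK X) (pbk (Φ 0) f) = QuotientAddGroup.mk' (KK X) f
      rw [this]

end act

end Pool.Agent.TH784.AA
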