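import Pool.Agent.TH784.AA.Few

/-!
# The dichotomy for sums of exponential sequences in Noetherian modules
-/

set_option autoImplicit false

open Polynomial

noncomputable section

namespace Pool.Agent.TH784.AA

section

variable {R M : Type*} [CommRing R] [AddCommGroup M] [Module R M]

theorem irr_dich [IsNoetherian R M] {L : Submodule R M} (hL : InfIrred L) (r : R) :
    (∃ n : ℕ, ∀ m : M, r ^ n • m ∈ L) ∨ ∀ m : M, r • m ∈ L → m ∈ L := by
  let K : ℕ →o Submodule R M := ⟨fun n => L.comap (LinearMap.lsmul R M (r ^ n)), by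
    intro n n' hnn m hm
    have h1 : r ^ n • m ∈ L := hm
    have h2 : r ^ n' • m ∈ L := by
      rw [show n' = (n' - n) + n by omega, pow_add, mul_smul]
      exact L.smul_mem _ h1
    exact h2⟩
  obtain ⟨n, hn⟩ := monotone_stabilizes_iff_noetherian.2 inferInstance K
  have hK : ∀ m : M, r ^ (n + 1) • m ∈ L → r ^ n • m ∈ L := by
    intro m hm
    have h1 := hn (n + 1) (Nat.le_succ n)
    have h2 : m ∈ K (n + 1) := hm
    rw [← h1] at h2
    exact h2
  have hinf : K 1 ⊓ (L ⊔ LinearMap.range (LinearMap.lsmul R M (r ^ n))) = L := by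
    apply le_antisymm
    · rintro m ⟨h1, h2⟩
      have h1' : r ^ 1 • m ∈ L := h1
      rw [pow_one] at h1'
      obtain ⟨l, hl, m', hm', rfl⟩ := Submodule.mem_sup.1 h2
      obtain ⟨m'', rfl⟩ := hm'
      have h3 : r • r ^ n • m'' ∈ L := by
        have h4 : r • (l + r ^ n • m'') ∈ L := h1'
        rw [smul_add] at h4
        exact (Submodule.add_mem_iff_right _ (L.smul_mem _ hl)).1 h4
      rw [← mul_smul, ← pow_succ'] at h3
      exact L.add_mem hl (hK _ h3)
    · refine le_inf ?_ le_sup_left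
      intro m hm
      show r ^ 1 • m ∈ L
      exact L.smul_mem _ hm
  rcases hL.2 hinf with h | h
  · right
    intro m hm
    have : m ∈ K 1 := by
      show r ^ 1 • m ∈ L
      rwa [pow_one]
    rwa [h] at this
  · left
    refine ⟨n, fun m => ?_⟩
    have h1 : LinearMap.range (LinearMap.lsmul R M (r ^ n)) ≤ L := by
      rw [← h]
      exact le_sup_right
    exact h1 ⟨m, rfl⟩

/-- coprimary modules -/
structure Copr (R M : Type*) [CommRing R] [AddCommGroup M] [Module R M] : Prop where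
  nt : Nontrivial M
  dich : ∀ r : R, r ∈ (Module.annihilator R M).radical ∨ ∀ m : M, r • m = 0 → m = 0

theorem irr_copr [IsNoetherian R M] {L : Submodule R M} (hL : InfIrred L) :
    Copr R (M ⧸ L) where
  nt := Submodule.Quotient.nontrivial_iff.2 hL.ne_top
  dich := by
    intro r
    rcases irr_dich hL r with ⟨n, h⟩ | h
    · left
      refine ⟨n, ?_⟩
      rw [Module.mem_annihilator]
      intro m
      induction m using Submodule.Quotient.induction_on with
      | H m =>
        rw [← Submodule.Quotient.mk_smul, Submodule.Quotient.mk_eq_zero]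
        exact h m
    · right
      intro m
      induction m using Submodule.Quotient.induction_on with
      | H m =>
        intro hm
        rw [← Submodule.Quotient.mk_smul, Submodule.Quotient.mk_eq_zero] at hm
        rw [Submodule.Quotient.mk_eq_zero]
        exact h m hm

theorem Copr.not_mem (h : Copr R M) {r : R} (hr : ∀ m : M, r • m = 0 → m = 0) :
    r ∉ (Module.annihilator R M).radical := by
  rintro ⟨n, hn⟩
  rw [Module.mem_annihilator] at hn
  obtain ⟨m, hm⟩ := @exists_ne M h.nt 0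
  exact hm (pow_inj hr n m (hn m))

theorem Copr.inj_iff (h : Copr R M) {r : R} :
    (∀ m : M, r • m = 0 → m = 0) ↔ r ∉ (Module.annihilator R M).radical :=
  ⟨h.not_mem, fun h1 => (h.dich r).resolve_left h1⟩

/-- the conditions on the finite set of eigenvalues -/
structure Zc (M : Type*) [AddCommGroup M] [Module R M] (Z : Set R) : Prop where
  unit : ∀ z ∈ Z, z ∉ (Module.annihilator R M).radical
  diff : ∀ z ∈ Z, ∀ z' ∈ Z, z - z' ∈ (Module.annihilator R M).radical ∨
    ∀ h : ℕ, 1 ≤ h → z ^ h - z' ^ h ∉ (Module.annihilator R M).radical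
  char : (∀ h : ℕ, 1 ≤ h → (h : R) ∉ (Module.annihilator R M).radical) ∨
    ∀ z ∈ Z, ∀ z' ∈ Z, z - z' ∈ (Module.annihilator R M).radical →
      z - z' ∈ Module.annihilator R M

theorem Copr.exists_Y (h : Copr R M) {Z : Set R} (hf : Z.Finite) (hZ : Zc M Z) :
    ∃ Y : Multiset R, Cond M Y ∧ ∀ z ∈ Z, (prodM Y).eval z ∈ Module.annihilator R M := by
  classical
  set I := Module.annihilator R M with hI
  -- representatives
  let ρ : R ⧸ I.radical → R := fun c =>
    if h : ∃ z ∈ Z, Ideal.Quotient.mk I.radical z = c then h.choose else 0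
  have hρ : ∀ z ∈ Z, ρ (Ideal.Quotient.mk I.radical z) ∈ Z ∧
      z - ρ (Ideal.Quotient.mk I.radical z) ∈ I.radical := by
    intro z hz
    have hex : ∃ z' ∈ Z, Ideal.Quotient.mk I.radical z' = Ideal.Quotient.mk I.radical z :=
      ⟨z, hz, rfl⟩
    have e : ρ (Ideal.Quotient.mk I.radical z) = hex.choose := dif_pos hex
    rw [e]
    refine ⟨hex.choose_spec.1, ?_⟩
    rw [← Ideal.Quotient.eq]
    exact hex.choose_spec.2.symm
  set S : Finset R := hf.toFinset.image (fun z => ρ (Ideal.Quotient.mk I.radical z)) with hS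
  have hSm : ∀ y, y ∈ S ↔ ∃ z ∈ Z, ρ (Ideal.Quotient.mk I.radical z) = y := by
    intro y
    rw [hS, Finset.mem_image]
    simp only [Set.Finite.mem_toFinset]
  have hdiff : ∀ y ∈ S, ∀ z ∈ S, y = z ∨ ∀ h : ℕ, 1 ≤ h → ∀ m : M, (y ^ h - z ^ h) • m = 0 →
      m = 0 := by
    intro y hy y' hy'
    obtain ⟨z, hz, rfl⟩ := (hSm y).1 hy
    obtain ⟨z', hz', rfl⟩ := (hSm y').1 hy'
    rcases hZ.diff _ (hρ z hz).1 _ (hρ z' hz').1 with h1 | h1
    · left
      have h2 : z - z' ∈ I.radical := by
        have h3 := I.radical.add_mem (I.radical.add_mem (hρ z hz).2 h1)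
          (I.radical.neg_mem (hρ z' hz').2)
        have e : z - z' = z - ρ (Ideal.Quotient.mk I.radical z) +
          (ρ (Ideal.Quotient.mk I.radical z) - ρ (Ideal.Quotient.mk I.radical z')) +
          -(z' - ρ (Ideal.Quotient.mk I.radical z')) := by ring
        rw [e]
        exact h3
      rw [Ideal.Quotient.eq.2 h2]
    · right
      intro m hm
      exact h.inj_iff.2 (h1 m hm)
  have hinj : ∀ y ∈ S, ∀ m : M, y • m = 0 → m = 0 := by
    intro y hy
    obtain ⟨z, hz, rfl⟩ := (hSm y).1 hy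
    exact h.inj_iff.2 (hZ.unit _ (hρ z hz).1)
  rcases hZ.char with hchar | hchar
  · -- no torsion
    have hK : ∃ K : ℕ, ∀ z ∈ Z, (z - ρ (Ideal.Quotient.mk I.radical z)) ^ K ∈ I := by
      have h1 : ∀ z : Z, ∃ n : ℕ, (z.1 - ρ (Ideal.Quotient.mk I.radical z.1)) ^ n ∈ I :=
        fun z => (hρ z.1 z.2).2
      choose n hn using h1
      have : Fintype Z := hf.fintype
      refine ⟨Finset.univ.sup n, fun z hz => ?_⟩
      exact Ideal.pow_mem_of_pow_mem _ (hn ⟨z, hz⟩) (Finset.le_sup (Finset.mem_univ _))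
    obtain ⟨K, hK⟩ := hK
    refine ⟨K • S.val, ⟨?_, ?_, ?_⟩, ?_⟩
    · intro y hy z hz
      exact hdiff y (Multiset.mem_of_mem_nsmul hy) z (Multiset.mem_of_mem_nsmul hz)
    · intro y hy
      exact hinj y (Multiset.mem_of_mem_nsmul hy)
    · left
      intro h' hh
      exact h.inj_iff.2 (hchar h' hh)
    · intro z hz
      unfold prodM
      rw [Multiset.map_nsmul, Multiset.prod_nsmul, eval_pow]
      have h1 : (X - C (ρ (Ideal.Quotient.mk I.radical z)) : R[X]) ∣
          (S.val.map (fun y => X - C y)).prod := by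
        apply Multiset.dvd_prod
        rw [Multiset.mem_map]
        exact ⟨_, (hSm _).2 ⟨z, hz, rfl⟩, rfl⟩
      obtain ⟨Q, hQ⟩ := h1
      rw [hQ, eval_mul, mul_pow, eval_sub, eval_X, eval_C]
      exact I.mul_mem_right _ (hK z hz)
  · refine ⟨S.val, ⟨?_, ?_, ?_⟩, ?_⟩
    · intro y hy z hz
      exact hdiff y hy z hz
    · intro y hy
      exact hinj y hy
    · right
      exact S.nodup
    · intro z hz
      unfold prodM
      have h1 : (X - C (ρ (Ideal.Quotient.mk I.radical z)) : R[X]) ∣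
          (S.val.map (fun y => X - C y)).prod := by
        apply Multiset.dvd_prod
        rw [Multiset.mem_map]
        exact ⟨_, (hSm _).2 ⟨z, hz, rfl⟩, rfl⟩
      obtain ⟨Q, hQ⟩ := h1
      rw [hQ, eval_mul, eval_sub, eval_X, eval_C]
      exact I.mul_mem_right _ (hchar z hz _ (hρ z hz).1 (hρ z hz).2)

/-- powers of congruent elements -/
theorem nil_pow {I : Ideal R} {H : ℕ} (hH : (H : R) ∈ I) (z z' : R) (s : ℕ) :
    ∃ c : R, z ^ (H ^ s) - z' ^ (H ^ s) - c * (z - z') ^ (s + 1) ∈ I := by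
  induction s with
  | zero =>
    refine ⟨1, ?_⟩
    rw [pow_zero, pow_one, pow_one, zero_add, pow_one, one_mul, sub_self]
    exact I.zero_mem
  | succ s ih =>
    obtain ⟨c, hc⟩ := ih
    set w := z ^ (H ^ s) with hw
    set w' := z' ^ (H ^ s) with hw'
    have h1 : ∃ e : R, w ^ H - w' ^ H - e * (w - w') ^ 2 ∈ I := by
      have h2 : (w - w') ∣ ∑ i ∈ Finset.range H, (w ^ i - w' ^ i) * w' ^ (H - 1 - i) :=
        Finset.dvd_sum fun i _ => Dvd.dvd.mul_right (sub_dvd_pow_sub_pow w w' i) _
      obtain ⟨e, he⟩ := h2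
      refine ⟨e, ?_⟩
      have h3 : ∑ i ∈ Finset.range H, w ^ i * w' ^ (H - 1 - i) =
          (w - w') * e + H * w' ^ (H - 1) := by
        rw [← he, ← geom_sum₂_self, ← Finset.sum_add_distrib]
        refine Finset.sum_congr rfl fun i _ => ?_
        ring
      have h4 := geom_sum₂_mul w w' H
      rw [h3] at h4
      have h5 : w ^ H - w' ^ H - e * (w - w') ^ 2 = (w' ^ (H - 1) * (w - w')) * H := by
        rw [← h4]
        ring
      rw [h5]
      exact I.mul_mem_left _ hH
    obtain ⟨e, he⟩ := h1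
    refine ⟨e * c ^ 2 * (z - z') ^ s, ?_⟩
    have h2 : (w - w') ^ 2 - (c * (z - z') ^ (s + 1)) ^ 2 ∈ I := by
      rw [sq_sub_sq]
      exact I.mul_mem_left _ hc
    have e3 : z ^ H ^ (s + 1) - z' ^ H ^ (s + 1) - e * c ^ 2 * (z - z') ^ s *
        (z - z') ^ (s + 1 + 1) = (w ^ H - w' ^ H - e * (w - w') ^ 2) +
        e * ((w - w') ^ 2 - (c * (z - z') ^ (s + 1)) ^ 2) := by
      rw [hw, hw', ← pow_mul, ← pow_mul, ← pow_succ]
      ring
    rw [e3]
    exact I.add_mem he (I.mul_mem_left _ h2)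

/-- passing to powers -/
theorem exists_q {Z : Set R} (hf : Z.Finite)
    (hZ : ∀ z ∈ Z, z ∉ (Module.annihilator R M).radical) :
    ∃ q : ℕ, 1 ≤ q ∧ Zc M ((fun z : R => z ^ q) '' Z) := by
  classical
  set I := Module.annihilator R M with hI
  have : Fintype Z := hf.fintype
  -- first step
  have h1 : ∀ p : Z × Z, ∃ h : ℕ, 1 ≤ h ∧ (p.1.1 ^ h - p.2.1 ^ h ∈ I.radical ∨
      ∀ h' : ℕ, 1 ≤ h' → p.1.1 ^ h' - p.2.1 ^ h' ∉ I.radical) := by
    intro p
    by_cases hp : ∃ h : ℕ, 1 ≤ h ∧ p.1.1 ^ h - p.2.1 ^ h ∈ I.radical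
    · obtain ⟨h, h1, h2⟩ := hp
      exact ⟨h, h1, Or.inl h2⟩
    · push Not at hp
      exact ⟨1, le_rfl, Or.inr hp⟩
  choose g hg1 hg2 using h1
  set q₁ : ℕ := ∏ p : Z × Z, g p with hq₁
  have hq₁1 : 1 ≤ q₁ := Nat.succ_le_of_lt (Finset.prod_pos fun p _ => hg1 p)
  have hstep : ∀ z ∈ Z, ∀ z' ∈ Z, z ^ q₁ - z' ^ q₁ ∈ I.radical ∨
      ∀ h : ℕ, 1 ≤ h → z ^ h - z' ^ h ∉ I.radical := by
    intro z hz z' hz'
    rcases hg2 (⟨z, hz⟩, ⟨z', hz'⟩) with h | h
    · left
      obtain ⟨c, hc⟩ : g (⟨z, hz⟩, ⟨z', hz'⟩) ∣ q₁ := Finset.dvd_prod_of_mem _ (Finset.mem_univ _)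
      rw [hc, pow_mul, pow_mul]
      exact Ideal.mem_of_dvd _ (sub_dvd_pow_sub_pow _ _ _) h
    · exact Or.inr h
  have hun : ∀ (q : ℕ), ∀ z ∈ (fun z : R => z ^ q) '' Z, z ∉ I.radical := by
    intro q z hz
    obtain ⟨z, hz, rfl⟩ := hz
    intro h
    exact hZ z hz (Ideal.mem_radical_of_pow_mem h)
  by_cases hch : ∀ h : ℕ, 1 ≤ h → (h : R) ∉ I.radical
  · refine ⟨q₁, hq₁1, hun q₁, ?_, Or.inl hch⟩
    rintro _ ⟨z, hz, rfl⟩ _ ⟨z', hz', rfl⟩
    rcases hstep z hz z' hz' with h | h
    · exact Or.inl h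
    · right
      intro h' hh'
      show (z ^ q₁) ^ h' - (z' ^ q₁) ^ h' ∉ I.radical
      rw [← pow_mul, ← pow_mul]
      exact h _ (Nat.mul_pos hq₁1 hh')
  · push Not at hch
    obtain ⟨h₀, hh₀, n₀, hn₀⟩ := hch
    set H : ℕ := h₀ ^ n₀ with hH
    have hHI : (H : R) ∈ I := by
      rw [hH]
      push_cast
      exact hn₀
    have hH1 : 1 ≤ H := Nat.one_le_pow _ _ hh₀
    -- the exponent
    have h2 : ∀ p : Z × Z, ∃ t : ℕ, p.1.1 ^ q₁ - p.2.1 ^ q₁ ∈ I.radical →
        (p.1.1 ^ q₁ - p.2.1 ^ q₁) ^ t ∈ I := by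
      intro p
      by_cases hp : p.1.1 ^ q₁ - p.2.1 ^ q₁ ∈ I.radical
      · obtain ⟨t, ht⟩ := hp
        exact ⟨t, fun _ => ht⟩
      · exact ⟨0, fun h => absurd h hp⟩
    choose t ht using h2
    set s : ℕ := Finset.univ.sup t with hs
    have hin : ∀ z ∈ Z, ∀ z' ∈ Z, z ^ q₁ - z' ^ q₁ ∈ I.radical →
        z ^ (q₁ * H ^ s) - z' ^ (q₁ * H ^ s) ∈ I := by
      intro z hz z' hz' h
      obtain ⟨c, hc⟩ := nil_pow hHI (z ^ q₁) (z' ^ q₁) s
      have h3 : (z ^ q₁ - z' ^ q₁) ^ (s + 1) ∈ I := by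
        refine Ideal.pow_mem_of_pow_mem _ (ht (⟨z, hz⟩, ⟨z', hz'⟩) h) ?_
        have : t (⟨z, hz⟩, ⟨z', hz'⟩) ≤ s := Finset.le_sup (Finset.mem_univ _)
        omega
      rw [pow_mul, pow_mul]
      have h4 := I.add_mem hc (I.mul_mem_left c h3)
      rwa [sub_add_cancel] at h4
    have hq2 : 1 ≤ q₁ * H ^ s := Nat.mul_pos hq₁1 (Nat.one_le_pow _ _ hH1)
    generalize q₁ * H ^ s = q at hin hq2
    refine ⟨q, hq2, hun _, ?_, Or.inr ?_⟩
    · rintro _ ⟨z, hz, rfl⟩ _ ⟨z', hz', rfl⟩
      rcases hstep z hz z' hz' with h | h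
      · exact Or.inl (Ideal.le_radical (hin z hz z' hz' h))
      · right
        intro h' hh'
        show (z ^ q) ^ h' - (z' ^ q) ^ h' ∉ I.radical
        rw [← pow_mul, ← pow_mul]
        exact h (q * h') (Nat.mul_pos hq2 hh')
    · rintro _ ⟨z, hz, rfl⟩ _ ⟨z', hz', rfl⟩ h
      rcases hstep z hz z' hz' with h' | h'
      · exact hin z hz z' hz' h'
      · exact absurd h (h' q hq2)

/-- the dichotomy for functions with values in a coprimary module -/
theorem Copr.dic (hC : Copr R M) {k : ℕ} {Z : Set R} (hf : Z.Finite) (hZ : Zc M Z) (h1Z : 1 ∈ Z)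
    {J : Type*} [Fintype J] (z : J → Fin k → R) (hz : ∀ j l, z j l ∈ Z) (w : J → M)
    (l : Fin k) :
    Ind (⊥ : Submodule R M) l (fun n => ∑ j, (∏ i, z j i ^ n i) • w j) ∨
      Few (⊥ : Submodule R M) l (fun n => ∑ j, (∏ i, z j i ^ n i) • w j) := by
  classical
  obtain ⟨Y, hY, hYZ⟩ := hC.exists_Y hf hZ
  -- annihilation
  have hann : ∀ (l : Fin k) (w : J → M),
      Ann l (prodM Y) (fun n => ∑ j, (∏ i, z j i ^ n i) • w j) := by
    intro l w n
    have e : (fun t => ∑ j, (∏ i, z j i ^ Function.update n l t i) • w j) =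
        ∑ j, (fun t : ℕ => z j l ^ t • ((∏ i ∈ Finset.univ.erase l, z j i ^ n i) • w j)) := by
      funext t
      rw [Finset.sum_apply]
      refine Finset.sum_congr rfl fun j _ => ?_
      rw [← Finset.mul_prod_erase Finset.univ _ (Finset.mem_univ l), mul_smul,
        Function.update_self]
      congr 2
      refine Finset.prod_congr rfl fun i hi => ?_
      rw [Function.update_of_ne (Finset.ne_of_mem_erase hi)]
    rw [e, act_sum]
    refine Finset.sum_eq_zero fun j _ => ?_
    rw [act_eigen (y := z j l)]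
    · funext t
      rw [Pi.smul_apply, Pi.zero_apply]
      exact (Module.mem_annihilator.1 (hYZ _ (hz j l))) _
    · funext t
      rw [act_sub_left, act_C, Pi.sub_apply, act_X, Pi.smul_apply, Pi.zero_apply, pow_succ',
        mul_smul, sub_self]
  have hconst : ∀ c : M, act (prodM Y) (fun _ : ℕ => c) = 0 := by
    intro c
    rw [act_eigen (y := 1)]
    · funext t
      rw [Pi.smul_apply, Pi.zero_apply]
      exact (Module.mem_annihilator.1 (hYZ _ h1Z)) _
    · funext t
      rw [act_sub_left, act_C, Pi.sub_apply, act_X, Pi.smul_apply, Pi.zero_apply, one_smul,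
        sub_self]
  set b : (Fin k → ℕ) → M := fun n => ∑ j, (∏ i, z j i ^ n i) • w j with hb
  -- the difference in the direction `l`
  set f : (Fin k → ℕ) → M := fun n => ∑ j, (∏ i, z j i ^ n i) • ((z j l - 1) • w j) with hf'
  have hfb : ∀ n, f n = b (Function.update n l (n l + 1)) - b n := by
    intro n
    rw [hf', hb]
    simp only
    rw [← Finset.sum_sub_distrib]
    refine Finset.sum_congr rfl fun j _ => ?_
    have e : ∏ i, z j i ^ Function.update n l (n l + 1) i = z j l * ∏ i, z j i ^ n i := by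
      rw [← Finset.mul_prod_erase Finset.univ _ (Finset.mem_univ l), Function.update_self,
        ← Finset.mul_prod_erase Finset.univ (fun i => z j i ^ n i) (Finset.mem_univ l), pow_succ',
        mul_assoc]
      congr 2
      refine Finset.prod_congr rfl fun i hi => ?_
      rw [Function.update_of_ne (Finset.ne_of_mem_erase hi)]
    rw [e, ← mul_smul, ← sub_smul]
    congr 1
    ring
  by_cases hf0 : f = 0
  · left
    intro n
    have h1 := congrFun hf0 n
    rw [hfb n] at h1
    rw [h1]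
    exact Submodule.zero_mem _
  · right
    obtain ⟨C₁, hC₁, h1⟩ := zd (R := R) (M := M) Y.card k
    obtain ⟨C₂, hC₂, h2⟩ := core_real (R := R) (M := M) Y.card
    have hzd := h1 (fun _ => Y) (fun _ => ⟨le_rfl, hY⟩) f hf0 (fun l' => hann l' _)
    refine ⟨{n | ∃ t, b (Function.update n l t) ≠ b (Function.update n l 0)}, max C₁ C₂,
      dl Y.card, le_max_of_le_left hC₁, dl_pos _, ?_, ?_⟩
    · intro c N hN
      have hNl : (0 : ℝ) < N l := by exact_mod_cast hN l
      have h3 : N l * cnt N (fun n => n ∈ {n | ∃ t, b (Function.update n l t) ≠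
          b (Function.update n l 0)} ∧ b n - c ∈ (⊥ : Submodule R M)) ≤
          vol N * (C₂ * (N l * (N l : ℝ) ^ (-dl Y.card))) := by
        rw [cnt_eq_sum, ← sum_fiber, ← card_bxs, ← nsmul_eq_mul, ← Finset.sum_const]
        refine Finset.sum_le_sum fun n _ => ?_
        by_cases hn : ∃ t, b (Function.update n l t) ≠ b (Function.update n l 0)
        · have hne : (fun t => b (Function.update n l t) - c) ≠ 0 := by
            intro h0
            obtain ⟨t, ht⟩ := hn
            have h4 := congrFun h0 t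
            have h5 := congrFun h0 0
            simp only [Pi.zero_apply, sub_eq_zero] at h4 h5
            exact ht (h4.trans h5.symm)
          have h6 := h2 Y le_rfl hY (fun t => b (Function.update n l t) - c) hne (by
            have h7 := act_sub (prodM Y) (fun t => b (Function.update n l t)) (fun _ => c)
            rw [hconst, hann l w n, sub_zero] at h7
            exact h7) (N l) (hN l)
          refine le_trans ?_ h6
          unfold zn
          rw [Finset.card_filter]
          push_cast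
          refine Finset.sum_le_sum fun t _ => ?_
          by_cases ht : b (Function.update n l t) - c = 0
          · rw [if_pos ht]
            split_ifs <;> norm_num
          · rw [if_neg ht, if_neg]
            rintro ⟨_, h8⟩
            exact ht ((Submodule.mem_bot R).1 h8)
        · rw [Finset.sum_eq_zero]
          · positivity
          · intro t _
            rw [if_neg]
            rintro ⟨⟨t', ht'⟩, _⟩
            apply hn
            rw [Function.update_idem, Function.update_idem] at ht'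
            exact ⟨t', ht'⟩
      have h4 : cnt N (fun n => n ∈ {n | ∃ t, b (Function.update n l t) ≠
          b (Function.update n l 0)} ∧ b n - c ∈ (⊥ : Submodule R M)) ≤
          C₂ * (vol N * (N l : ℝ) ^ (-dl Y.card)) := by
        refine le_of_mul_le_mul_left ?_ hNl
        refine h3.trans (le_of_eq ?_)
        ring
      refine h4.trans (mul_le_mul_of_nonneg_right (le_max_right _ _) ?_)
      have := vol_nonneg N
      positivity
    · intro N hN
      refine (cnt_mono fun n hn => ?_).trans ((hzd N hN).trans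
        (mul_le_mul_of_nonneg_right (le_max_left _ _) ?_))
      · have h3 : ¬ ∃ t, b (Function.update n l t) ≠ b (Function.update n l 0) := hn
        push Not at h3
        show f n = 0
        rw [hfb n, h3 (n l + 1)]
        have h4 := h3 (n l)
        rw [Function.update_eq_self] at h4
        rw [h4, sub_self]
      · have := vol_nonneg N
        positivity

end

section

variable {R M : Type*} [CommRing R] [AddCommGroup M] [Module R M] {k : ℕ}

theorem ind_mkQ {L : Submodule R M} {l : Fin k} {b : (Fin k → ℕ) → M} :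
    Ind (⊥ : Submodule R (M ⧸ L)) l (fun n => L.mkQ (b n)) ↔ Ind L l b := by
  unfold Ind
  refine forall_congr' fun n => ?_
  rw [← map_sub, Submodule.mem_bot, Submodule.mkQ_apply, Submodule.Quotient.mk_eq_zero]

theorem few_mkQ {L : Submodule R M} {l : Fin k} {b : (Fin k → ℕ) → M}
    (h : Few (⊥ : Submodule R (M ⧸ L)) l (fun n => L.mkQ (b n))) : Few L l b := by
  obtain ⟨G, C, δ, hC, hδ, h1, h2⟩ := h
  refine ⟨G, C, δ, hC, hδ, fun c N hN => ?_, h2⟩
  refine (cnt_mono fun n hn => ?_).trans (h1 (L.mkQ c) N hN)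
  refine ⟨hn.1, ?_⟩
  rw [← map_sub, Submodule.mem_bot, Submodule.mkQ_apply, Submodule.Quotient.mk_eq_zero]
  exact hn.2

/-- the exponential sums -/
def es {J : Type*} [Fintype J] (x : J → Fin k → R) (χ : J → M) : (Fin k → ℕ) → M :=
  fun n => ∑ j, (∏ l, x j l ^ n l) • χ j

theorem irr_Dic [IsNoetherian R M] {L : Submodule R M} (hL : InfIrred L) {J : Type*} [Fintype J]
    (x : J → Fin k → R) (hx : ∀ j l, ∃ y : R, ∀ m : M, y • x j l • m = m) (χ : J → M)
    (l : Fin k) : Dic L l (es x χ) := by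
  classical
  have hC := irr_copr hL
  set Z : Set R := insert 1 (Set.range fun p : J × Fin k => x p.1 p.2) with hZ
  have hZf : Z.Finite := (Set.finite_range _).insert 1
  have hun : ∀ z ∈ Z, z ∉ (Module.annihilator R (M ⧸ L)).radical := by
    intro z hz
    apply hC.not_mem
    rcases hz with rfl | ⟨p, rfl⟩
    · intro m hm
      rwa [one_smul] at hm
    · obtain ⟨y, hy⟩ := hx p.1 p.2
      intro m
      induction m using Submodule.Quotient.induction_on with
      | H m =>
        intro hm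
        rw [← Submodule.Quotient.mk_smul, Submodule.Quotient.mk_eq_zero] at hm
        rw [Submodule.Quotient.mk_eq_zero, ← hy m]
        exact L.smul_mem _ hm
  obtain ⟨q, hq, hZq⟩ := exists_q hZf hun
  refine ⟨q, hq, fun r hr => ?_⟩
  have h1 : (1 : R) ∈ (fun z : R => z ^ q) '' Z := ⟨1, Set.mem_insert _ _, one_pow q⟩
  have key := hC.dic (hZf.image _) hZq h1 (fun j l => x j l ^ q)
    (fun j l => ⟨_, Set.mem_insert_of_mem _ ⟨(j, l), rfl⟩, rfl⟩)
    (fun j => L.mkQ ((∏ i, x j i ^ r i) • χ j)) l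
  have e : (fun n : Fin k → ℕ => ∑ j, (∏ i, (x j i ^ q) ^ n i) •
      L.mkQ ((∏ i, x j i ^ r i) • χ j)) = fun n => L.mkQ (sub r q (es x χ) n) := by
    funext n
    unfold sub es
    rw [map_sum]
    refine Finset.sum_congr rfl fun j _ => ?_
    rw [← map_smul, ← mul_smul, ← Finset.prod_mul_distrib]
    congr 3
    funext i
    rw [← pow_mul, ← pow_add]
    congr 1
    ring
  rw [e] at key
  exact key.imp ind_mkQ.1 few_mkQ

theorem dic_bot [IsNoetherian R M] {J : Type*} [Fintype J] (x : J → Fin k → R)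
    (hx : ∀ j l, ∃ y : R, ∀ m : M, y • x j l • m = m) (χ : J → M) (l : Fin k) :
    Dic (⊥ : Submodule R M) l (es x χ) := by
  classical
  obtain ⟨s, hs, h⟩ := exists_infIrred_decomposition (⊥ : Submodule R M)
  rw [← hs]
  clear hs
  induction s using Finset.induction_on with
  | empty =>
    refine ⟨1, le_rfl, fun r _ => Or.inl fun n => ?_⟩
    rw [Finset.inf_empty]
    exact Submodule.mem_top
  | insert a s _ ih =>
    rw [Finset.inf_insert]
    exact (irr_Dic (h (Finset.mem_insert_self _ _)) x hx χ l).inf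
      (ih fun b hb => h (Finset.mem_insert_of_mem hb))

/-- The dichotomy in all directions. -/
theorem dic_all [IsNoetherian R M] {J : Type*} [Fintype J] (x : J → Fin k → R)
    (hx : ∀ j l, ∃ y : R, ∀ m : M, y • x j l • m = m) (χ : J → M) :
    ∃ q : ℕ, 1 ≤ q ∧ ∀ r : Fin k → ℕ, (∀ j, r j < q) → ∀ l,
      Ind (⊥ : Submodule R M) l (sub r q (es x χ)) ∨
        Few (⊥ : Submodule R M) l (sub r q (es x χ)) := by
  classical
  choose q hq h using fun l => dic_bot x hx χ l
  refine ⟨∏ l, q l, Nat.succ_le_of_lt (Finset.prod_pos fun l _ => hq l), fun r hr l => ?_⟩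
  have e : ∏ l, q l = q l * ∏ i ∈ Finset.univ.erase l, q i :=
    (Finset.mul_prod_erase Finset.univ _ (Finset.mem_univ l)).symm
  rw [e]
  refine dic_refine (hq l) ?_ (h l) r ?_
  · exact Nat.succ_le_of_lt (Finset.prod_pos fun l _ => hq l)
  · rw [← e]
    exact hr

end

end Pool.Agent.TH784.AA
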