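import Pool.Agent.TH784.AA.Ext

/-!
# Box averages of polynomial phases
-/

set_option autoImplicit false

open Filter Topology
open scoped ComplexConjugate

noncomputable section

namespace Pool.Agent.TH784.AA

open Pool.Agent.W742.CU (IsPoly Dv UM Per)
open Pool.Agent.W761.Box (bxc)
open Pool.Agent.H767R2 (ev ev_add ev_zero norm_ev)

variable {k : ℕ}

/-- cast -/
def nz (n : Fin k → ℕ) : Fin k → ℤ := fun l => (n l : ℤ)

theorem nz_inj : Function.Injective (nz (k := k)) := by
  intro n m h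
  funext l
  have h1 : ((n l : ℕ) : ℤ) = (m l : ℕ) := congrFun h l
  exact_mod_cast h1

theorem sum_bx_nat (s : Fin k → ℕ) (f : (Fin k → ℤ) → ℂ) :
    ∑ h ∈ Pool.Agent.W742.CU.bx 0 s, f h = ∑ n ∈ bxs s, f (nz n) := by
  classical
  symm
  refine Finset.sum_nbij' nz (fun h l => (h l).toNat) ?_ ?_ ?_ ?_ ?_
  · intro n hn
    rw [mem_bxs] at hn
    rw [Pool.Agent.W742.CU.mem_bx]
    intro j
    have := hn j
    simp only [nz, Pi.zero_apply]
    omega
  · intro h hh
    rw [Pool.Agent.W742.CU.mem_bx] at hh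
    rw [mem_bxs]
    intro j
    have := hh j
    simp only [Pi.zero_apply] at this
    omega
  · intro n _
    funext l
    simp [nz]
  · intro h hh
    rw [Pool.Agent.W742.CU.mem_bx] at hh
    funext l
    have := hh l
    simp only [Pi.zero_apply] at this
    simp only [nz]
    omega
  · intro n _
    rfl

theorem vl_eq (s : Fin k → ℕ) : Pool.Agent.W742.CU.vl s = vol s := rfl

theorem conv_of_um {f : (Fin k → ℤ) → ℂ} {c : ℂ} (h : UM f c) :
    Tendsto (fun N => bxc k N fun n => f (nz n)) atTop (𝓝 c) := by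
  rw [Metric.tendsto_atTop]
  intro ε hε
  obtain ⟨L, hL⟩ := h (ε / 2) (by positivity)
  refine ⟨fun _ => L + 1, fun N hN => ?_⟩
  have hN1 : ∀ j, 1 ≤ N j := fun j => (Nat.le_add_left 1 L).trans (hN j)
  have hv := vol_pos hN1
  have h1 := hL 0 N fun j => (Nat.le_succ L).trans (hN j)
  rw [sum_bx_nat, vl_eq] at h1
  have hv' : (vol N : ℂ) ≠ 0 := by
    have := hv.ne'
    exact_mod_cast this
  have e : bxc k N (fun n => f (nz n)) - c =
      (vol N : ℂ)⁻¹ * (∑ n ∈ bxs N, f (nz n) - (vol N : ℂ) * c) := by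
    rw [bxc_eq]
    field_simp
  rw [dist_eq_norm, e, norm_mul, norm_inv, Complex.norm_real, Real.norm_of_nonneg hv.le,
    inv_mul_lt_iff₀ hv]
  calc _ ≤ ε / 2 * vol N := h1
    _ < vol N * ε := by nlinarith

/-- identification of the circle groups -/
def toU : Additive Circle →+ UnitAddCircle :=
  AddMonoidHom.mk' (fun z => (AddCircle.homeomorphCircle (T := 1) one_ne_zero).symm z.toMul) (by
    intro z w
    apply (AddCircle.homeomorphCircle (T := 1) one_ne_zero).injective
    rw [Homeomorph.apply_symm_apply]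
    have h1 : ∀ t : UnitAddCircle, AddCircle.homeomorphCircle (T := 1) one_ne_zero t =
        AddCircle.toCircle t := fun t => AddCircle.homeomorphCircle_apply _ t
    rw [h1, AddCircle.toCircle_add, ← h1, ← h1, Homeomorph.apply_symm_apply,
      Homeomorph.apply_symm_apply]
    rfl)

theorem ev_toU (z : Additive Circle) : ev (toU z) = (z.toMul : ℂ) := by
  unfold ev toU
  have h1 : ∀ t : UnitAddCircle, AddCircle.toCircle t =
      AddCircle.homeomorphCircle (T := 1) one_ne_zero t :=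
    fun t => (AddCircle.homeomorphCircle_apply _ t).symm
  rw [h1]
  show ((AddCircle.homeomorphCircle (T := 1) one_ne_zero
    ((AddCircle.homeomorphCircle (T := 1) one_ne_zero).symm z.toMul) : Circle) : ℂ) = _
  rw [Homeomorph.apply_symm_apply]

theorem isPoly_comp {A B G : Type*} [AddCommGroup A] [AddCommGroup B] [AddCommGroup G] {n : ℕ}
    {θ : A → G} (h : IsPoly n θ) (L : B →+ A) : IsPoly n (fun x => θ (L x)) := by
  induction n generalizing θ with
  | zero =>
    intro x
    show θ (L x) = θ (L 0)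
    rw [h (L x), h (L 0)]
  | succ n ih =>
    intro v
    have e : Dv v (fun x => θ (L x)) = fun x => Dv (L v) θ (L x) := by
      funext x
      simp only [Dv, map_add]
    rw [e]
    exact ih (h (L v))

/-- polynomial phases have uniform means -/
theorem um_poly {n : ℕ} {θ : (Fin k → ℤ) → UnitAddCircle} (h : IsPoly n θ) :
    ∃ c, UM (fun x => ev (θ x)) c := by
  rcases Pool.Agent.W742.CU.dich n θ h with ⟨Q, hQ, hper⟩ | h1
  · exact Pool.Agent.W742.CU.um_of_per (fun x => (norm_ev _).le) hQ (fun x w => by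
      show ev (θ (x + Q • w)) = ev (θ x)
      rw [hper x w])
  · exact ⟨0, h1⟩

/-! ### Mixing two points -/

open Classical in
/-- coordinates in `D` from the first point, the others from the second -/
def mix {α : Type*} (D : Finset (Fin k)) (n m : Fin k → α) : Fin k → α :=
  fun l => if l ∈ D then n l else m l

theorem mix_mem {D : Finset (Fin k)} {N n m : Fin k → ℕ} (hn : n ∈ bxs N) (hm : m ∈ bxs N) :
    mix D n m ∈ bxs N := by
  rw [mem_bxs] at *
  intro j
  unfold mix
  split_ifs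
  · exact hn j
  · exact hm j

theorem mix_mix {α : Type*} (D : Finset (Fin k)) (n m m' : Fin k → α) :
    mix D (mix D n m) m' = mix D n m' := by
  funext l
  unfold mix
  split_ifs <;> rfl

theorem mix_mix' {α : Type*} (D : Finset (Fin k)) (n m : Fin k → α) :
    mix D (mix D n m) (mix D m n) = n := by
  funext l
  unfold mix
  split_ifs <;> rfl

theorem nz_mix (D : Finset (Fin k)) (n m : Fin k → ℕ) : nz (mix D n m) = mix D (nz n) (nz m) := by
  funext l
  unfold nz mix
  split_ifs <;> rfl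

theorem mix_sum (D : Finset (Fin k)) (N : Fin k → ℕ) (G : (Fin k → ℕ) → ℂ) :
    ∑ n ∈ bxs N, ∑ m ∈ bxs N, G (mix D n m) = (vol N : ℂ) * ∑ n ∈ bxs N, G n := by
  classical
  have h1 : (vol N : ℂ) * ∑ n ∈ bxs N, G n = ∑ p ∈ bxs N ×ˢ bxs N, G p.1 := by
    rw [Finset.sum_product]
    have : ∀ x ∈ bxs N, ∑ y ∈ bxs N, G (x, y).1 = (vol N : ℂ) * G x := by
      intro x _
      show ∑ y ∈ bxs N, G x = _
      rw [Finset.sum_const, nsmul_eq_mul, ← card_bxs]
      push_cast
      rfl
    rw [Finset.sum_congr rfl this, Finset.mul_sum]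
  rw [h1, ← Finset.sum_product (s := bxs N) (t := bxs N) (f := fun p => G (mix D p.1 p.2))]
  refine Finset.sum_nbij' (fun p => (mix D p.1 p.2, mix D p.2 p.1))
    (fun p => (mix D p.1 p.2, mix D p.2 p.1)) ?_ ?_ ?_ ?_ ?_
  · intro p hp
    rw [Finset.mem_product] at hp ⊢
    exact ⟨mix_mem hp.1 hp.2, mix_mem hp.2 hp.1⟩
  · intro p hp
    rw [Finset.mem_product] at hp ⊢
    exact ⟨mix_mem hp.1 hp.2, mix_mem hp.2 hp.1⟩
  · intro p _
    exact Prod.ext (mix_mix' D _ _) (mix_mix' D _ _)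
  · intro p _
    exact Prod.ext (mix_mix' D _ _) (mix_mix' D _ _)
  · intro p _
    rfl

/-- the two-point phase -/
def two (D : Finset (Fin k)) (θ : (Fin k → ℤ) → UnitAddCircle) :
    (Fin (k + k) → ℤ) → UnitAddCircle :=
  fun h => θ (fun l => h (Fin.castAdd k l)) -
    θ (mix D (fun l => h (Fin.castAdd k l)) (fun l => h (Fin.natAdd k l)))

theorem two_poly (D : Finset (Fin k)) {n : ℕ} {θ : (Fin k → ℤ) → UnitAddCircle}
    (h : IsPoly n θ) : IsPoly n (two D θ) := by
  have h1 : IsPoly n (fun h : Fin (k + k) → ℤ => θ (fun l => h (Fin.castAdd k l))) :=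
    isPoly_comp h (AddMonoidHom.mk' (fun (h : Fin (k + k) → ℤ) l => h (Fin.castAdd k l))
      (fun _ _ => rfl))
  have h2 : IsPoly n (fun h : Fin (k + k) → ℤ =>
      θ (mix D (fun l => h (Fin.castAdd k l)) (fun l => h (Fin.natAdd k l)))) :=
    isPoly_comp h (AddMonoidHom.mk' (fun (h : Fin (k + k) → ℤ) =>
      mix D (fun l => h (Fin.castAdd k l)) (fun l => h (Fin.natAdd k l)))
      (fun a b => by
        funext l
        simp only [mix, Pi.add_apply]
        split_ifs <;> rfl))
  have h3 := h1.add h2.neg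
  have e : two D θ = fun x => θ (fun l => x (Fin.castAdd k l)) +
      -θ (mix D (fun l => x (Fin.castAdd k l)) (fun l => x (Fin.natAdd k l))) := by
    funext x
    unfold two
    rw [sub_eq_add_neg]
  rw [e]
  exact h3

theorem sum_two (N : Fin k → ℕ) (f : (Fin k → ℕ) → (Fin k → ℕ) → ℂ) :
    ∑ h ∈ bxs (Fin.append N N), f (fun l => h (Fin.castAdd k l)) (fun l => h (Fin.natAdd k l)) =
      ∑ n ∈ bxs N, ∑ m ∈ bxs N, f n m := by
  classical
  rw [← Finset.sum_product (s := bxs N) (t := bxs N) (f := fun p => f p.1 p.2)]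
  refine Finset.sum_nbij' (fun h => (fun l => h (Fin.castAdd k l), fun l => h (Fin.natAdd k l)))
    (fun p => Fin.append p.1 p.2) ?_ ?_ ?_ ?_ ?_
  · intro h hh
    rw [mem_bxs] at hh
    rw [Finset.mem_product, mem_bxs, mem_bxs]
    refine ⟨fun l => ?_, fun l => ?_⟩
    · have := hh (Fin.castAdd k l)
      rwa [Fin.append_left] at this
    · have := hh (Fin.natAdd k l)
      rwa [Fin.append_right] at this
  · intro p hp
    rw [Finset.mem_product, mem_bxs, mem_bxs] at hp
    rw [mem_bxs]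
    intro j
    refine Fin.addCases (fun l => ?_) (fun l => ?_) j
    · rw [Fin.append_left, Fin.append_left]
      exact hp.1 l
    · rw [Fin.append_right, Fin.append_right]
      exact hp.2 l
  · intro h _
    funext j
    refine Fin.addCases (fun l => ?_) (fun l => ?_) j
    · rw [Fin.append_left]
    · rw [Fin.append_right]
  · intro p _
    ext l
    · simp only [Fin.append_left]
    · simp only [Fin.append_right]
  · intro h _
    rfl

theorem vol_append (N : Fin k → ℕ) : vol (Fin.append N N) = vol N * vol N := by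
  unfold vol
  rw [Fin.prod_univ_add]
  simp only [Fin.append_left, Fin.append_right]

/-- **Averages with phases which are not periodic.** -/
theorem mix_zero (D : Finset (Fin k)) {θ : (Fin k → ℤ) → UnitAddCircle}
    (h : UM (fun x => ev (two D θ x)) 0) {H : (Fin k → ℕ) → ℂ} (hH : ∀ n, ‖H n‖ ≤ 1)
    (hD : ∀ n m, H (mix D n m) = H n) :
    Tendsto (fun N => bxc k N fun n => ev (θ (nz n)) * H n) atTop (𝓝 0) := by
  rw [Metric.tendsto_atTop]
  intro ε hε
  obtain ⟨L, hL⟩ := h ((ε / 2) ^ 2) (by positivity)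
  refine ⟨fun _ => L + 1, fun N hN => ?_⟩
  have hN1 : ∀ j, 1 ≤ N j := fun j => (Nat.le_add_left 1 L).trans (hN j)
  have hv := vol_pos hN1
  have h1 := hL 0 (Fin.append N N) (fun j => by
    refine Fin.addCases (fun l => ?_) (fun l => ?_) j
    · rw [Fin.append_left]
      exact (Nat.le_succ L).trans (hN l)
    · rw [Fin.append_right]
      exact (Nat.le_succ L).trans (hN l))
  rw [sum_bx_nat, vl_eq, vol_append, mul_zero, sub_zero] at h1
  set e : (Fin k → ℕ) → ℂ := fun n => ev (θ (nz n)) with he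
  have hen : ∀ n, ‖e n‖ = 1 := fun n => norm_ev _
  have e1 : ∑ x ∈ bxs (Fin.append N N), ev (two D θ (nz x)) =
      ∑ n ∈ bxs N, ∑ m ∈ bxs N, e n * conj (e (mix D n m)) := by
    rw [← sum_two]
    refine Finset.sum_congr rfl fun x _ => ?_
    unfold two
    rw [Pool.Agent.W742.CU.ev_sub, he]
    simp only
    rw [nz_mix]
    rfl
  rw [e1] at h1
  -- the inner sums
  set V : (Fin k → ℕ) → ℂ := fun n => ∑ m ∈ bxs N, e (mix D n m) with hV
  have hVm : ∀ n m, V (mix D n m) = V n := by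
    intro n m
    simp only [hV, mix_mix]
  have e2 : ((∑ n ∈ bxs N, ‖V n‖ ^ 2 : ℝ) : ℂ) = (vol N : ℂ) *
      ∑ n ∈ bxs N, ∑ m ∈ bxs N, e n * conj (e (mix D n m)) := by
    have e3 : ∀ n, ∑ m ∈ bxs N, e n * conj (e (mix D n m)) = e n * conj (V n) := by
      intro n
      rw [← Finset.mul_sum, hV, map_sum]
    rw [Finset.sum_congr rfl fun n _ => e3 n, ← mix_sum D N (fun n => e n * conj (V n))]
    push_cast
    refine Finset.sum_congr rfl fun n _ => ?_
    simp only [hVm]
    rw [← Finset.sum_mul]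
    have e4 : ∑ m ∈ bxs N, e (mix D n m) = V n := rfl
    rw [e4, Complex.mul_conj, Complex.normSq_eq_norm_sq]
    push_cast
    rfl
  have e5 : ∑ n ∈ bxs N, ‖V n‖ ^ 2 ≤ vol N * ((ε / 2) ^ 2 * (vol N * vol N)) := by
    have e6 : ∑ n ∈ bxs N, ‖V n‖ ^ 2 = ‖((∑ n ∈ bxs N, ‖V n‖ ^ 2 : ℝ) : ℂ)‖ := by
      rw [Complex.norm_real, Real.norm_of_nonneg (Finset.sum_nonneg fun n _ => by positivity)]
    rw [e6, e2, norm_mul, Complex.norm_real, Real.norm_of_nonneg hv.le]
    exact mul_le_mul_of_nonneg_left h1 hv.le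
  -- the sum
  have e7 : (vol N : ℂ) * ∑ n ∈ bxs N, e n * H n = ∑ n ∈ bxs N, V n * H n := by
    rw [← mix_sum D N (fun n => e n * H n)]
    refine Finset.sum_congr rfl fun n _ => ?_
    simp only [hD]
    rw [← Finset.sum_mul]
  have e8 : vol N * ‖∑ n ∈ bxs N, e n * H n‖ ≤ ∑ n ∈ bxs N, ‖V n‖ := by
    calc vol N * ‖∑ n ∈ bxs N, e n * H n‖ = ‖(vol N : ℂ) * ∑ n ∈ bxs N, e n * H n‖ := by
          rw [norm_mul, Complex.norm_real, Real.norm_of_nonneg hv.le]
      _ = ‖∑ n ∈ bxs N, V n * H n‖ := by rw [e7]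
      _ ≤ ∑ n ∈ bxs N, ‖V n‖ := by
          refine (norm_sum_le _ _).trans (Finset.sum_le_sum fun n _ => ?_)
          rw [norm_mul]
          exact mul_le_of_le_one_right (norm_nonneg _) (hH n)
  have e9 : (∑ n ∈ bxs N, ‖V n‖) ^ 2 ≤ (ε / 2 * (vol N * vol N)) ^ 2 := by
    calc (∑ n ∈ bxs N, ‖V n‖) ^ 2 ≤ (bxs N).card * ∑ n ∈ bxs N, ‖V n‖ ^ 2 :=
          sq_sum_le_card_mul_sum_sq
      _ ≤ vol N * (vol N * ((ε / 2) ^ 2 * (vol N * vol N))) := by
          rw [card_bxs]
          exact mul_le_mul_of_nonneg_left e5 hv.le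
      _ = _ := by ring
  have e10 : ∑ n ∈ bxs N, ‖V n‖ ≤ ε / 2 * (vol N * vol N) :=
    le_of_sq_le_sq e9 (by positivity)
  have e11 : ‖∑ n ∈ bxs N, e n * H n‖ ≤ ε / 2 * vol N := by
    have e12 : vol N * ‖∑ n ∈ bxs N, e n * H n‖ ≤ vol N * (ε / 2 * vol N) :=
      (e8.trans e10).trans (le_of_eq (by ring))
    exact le_of_mul_le_mul_left e12 hv
  rw [dist_zero_right, bxc_eq, norm_mul, norm_inv, Complex.norm_real,
    Real.norm_of_nonneg hv.le, inv_mul_lt_iff₀ hv]
  calc _ ≤ ε / 2 * vol N := e11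
    _ < vol N * ε := by nlinarith

end Pool.Agent.TH784.AA
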