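import Pool.Agent.TH784.AA.Avg

/-!
# Almost everywhere convergence from few coincidences of labels
-/

set_option autoImplicit false

open Filter Topology MeasureTheory
open scoped ENNReal ComplexConjugate

noncomputable section

namespace Pool.Agent.TH784.AA

open Pool.Agent.W761.Box (bxc)

theorem summable_pi {k : ℕ} {a : ℕ → ℝ} (h0 : ∀ n, 0 ≤ a n) (ha : Summable a) :
    Summable fun j : Fin k → ℕ => ∏ i, a (j i) := by
  classical
  refine summable_of_sum_le (c := (∑' n, a n) ^ k)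
    (fun j => Finset.prod_nonneg fun i _ => h0 _) fun u => ?_
  obtain ⟨B, hB⟩ : ∃ B : ℕ, ∀ j ∈ u, ∀ i, j i < B := by
    refine ⟨(u.sup fun j => Finset.univ.sup j) + 1, fun j hj i => ?_⟩
    have h1 : j i ≤ Finset.univ.sup j := Finset.le_sup (f := j) (Finset.mem_univ i)
    have h2 : Finset.univ.sup j ≤ u.sup fun j => Finset.univ.sup j :=
      Finset.le_sup (f := fun j : Fin k → ℕ => Finset.univ.sup j) hj
    omega
  calc ∑ j ∈ u, ∏ i, a (j i) ≤ ∑ j ∈ Fintype.piFinset (fun _ : Fin k => Finset.range B),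
        ∏ i, a (j i) := by
        refine Finset.sum_le_sum_of_subset_of_nonneg ?_ fun j _ _ =>
          Finset.prod_nonneg fun i _ => h0 _
        intro j hj
        rw [Fintype.mem_piFinset]
        intro i
        rw [Finset.mem_range]
        exact hB j hj i
    _ = ∏ _i : Fin k, ∑ t ∈ Finset.range B, a t := by
        rw [Finset.prod_univ_sum]
    _ ≤ (∑' n, a n) ^ k := by
        rw [Finset.prod_const, Finset.card_univ, Fintype.card_fin]
        refine pow_le_pow_left₀ (Finset.sum_nonneg fun i _ => h0 _) ?_ k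
        exact ha.sum_le_tsum _ fun i _ => h0 i

section

variable {X : Type*} [MeasurableSpace X] {μ : Measure X}

theorem ae_cofinite {ι : Type*} [Countable ι] {v : ι → X → ℝ} (hm : ∀ j, Measurable (v j))
    (h0 : ∀ j x, 0 ≤ v j x) (hi : ∀ j, Integrable (v j) μ) {a : ι → ℝ}
    (hva : ∀ j, ∫ x, v j x ∂μ ≤ a j) (ha : Summable a) :
    ∀ᵐ x ∂μ, Tendsto (fun j => v j x) cofinite (𝓝 0) := by
  have h1 : ∫⁻ x, ∑' j, ENNReal.ofReal (v j x) ∂μ ≠ ∞ := by
    rw [lintegral_tsum fun j => (hm j).ennreal_ofReal.aemeasurable]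
    have h2 : ∀ j, ∫⁻ x, ENNReal.ofReal (v j x) ∂μ ≤ ENNReal.ofReal (a j) := by
      intro j
      rw [← ofReal_integral_eq_lintegral_ofReal (hi j) (Eventually.of_forall (h0 j))]
      exact ENNReal.ofReal_le_ofReal (hva j)
    refine ne_top_of_le_ne_top ?_ (ENNReal.tsum_le_tsum h2)
    exact ha.tsum_ofReal_ne_top
  have h3 := ae_lt_top (Measurable.tsum fun j => (hm j).ennreal_ofReal) h1
  filter_upwards [h3] with x hx
  have h4 := ENNReal.tendsto_cofinite_zero_of_tsum_ne_top hx.ne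
  have h5 := (ENNReal.tendsto_toReal ENNReal.zero_ne_top).comp h4
  rw [ENNReal.toReal_zero] at h5
  refine h5.congr fun j => ?_
  rw [Function.comp_apply, ENNReal.toReal_ofReal (h0 j x)]

variable [IsProbabilityMeasure μ]

/-- the `L²` norm of a sum of orthogonal functions -/
theorem l2_sum {ι M : Type*} (S : Finset ι) (F : ι → X → ℂ) (hm : ∀ i, Measurable (F i))
    (hb : ∀ i x, ‖F i x‖ ≤ 1) (b : ι → M)
    (ho : ∀ i j, b i ≠ b j → ∫ x, F i x * conj (F j x) ∂μ = 0) (K : ℝ)
    (hK : ∀ j ∈ S, ∀ [DecidablePred fun i => b i = b j],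
      ((S.filter fun i => b i = b j).card : ℝ) ≤ K) :
    ∫ x, ‖∑ i ∈ S, F i x‖ ^ 2 ∂μ ≤ S.card * K := by
  classical
  have hint : ∀ i j, Integrable (fun x => F i x * conj (F j x)) μ := by
    intro i j
    refine Integrable.of_bound ?_ 1 (Eventually.of_forall fun x => ?_)
    · exact ((hm i).mul (Complex.continuous_conj.measurable.comp (hm j))).aestronglyMeasurable
    · rw [norm_mul, RCLike.norm_conj]
      exact mul_le_one₀ (hb i x) (norm_nonneg _) (hb j x)
  have e1 : ((∫ x, ‖∑ i ∈ S, F i x‖ ^ 2 ∂μ : ℝ) : ℂ) =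
      ∑ j ∈ S, ∑ i ∈ S, ∫ x, F i x * conj (F j x) ∂μ := by
    rw [← integral_complex_ofReal]
    have e2 : ∀ x, ((‖∑ i ∈ S, F i x‖ ^ 2 : ℝ) : ℂ) = ∑ j ∈ S, ∑ i ∈ S, F i x * conj (F j x) := by
      intro x
      rw [← Complex.normSq_eq_norm_sq, ← Complex.mul_conj, map_sum, Finset.sum_mul_sum,
        Finset.sum_comm]
    simp only [e2]
    rw [integral_finsetSum _ fun j _ => integrable_finsetSum _ fun i _ => hint i j]
    exact Finset.sum_congr rfl fun j _ => integral_finsetSum _ fun i _ => hint i j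
  have e3 : ∫ x, ‖∑ i ∈ S, F i x‖ ^ 2 ∂μ = ‖((∫ x, ‖∑ i ∈ S, F i x‖ ^ 2 ∂μ : ℝ) : ℂ)‖ := by
    rw [Complex.norm_real, Real.norm_of_nonneg (integral_nonneg fun x => by positivity)]
  rw [e3, e1, ← nsmul_eq_mul, ← Finset.sum_const]
  refine (norm_sum_le _ _).trans (Finset.sum_le_sum fun j hj => ?_)
  refine le_trans ?_ (hK j hj)
  rw [Finset.card_filter]
  push_cast
  refine (norm_sum_le _ _).trans (Finset.sum_le_sum fun i _ => ?_)
  by_cases h : b i = b j
  · rw [if_pos h]
    refine (norm_integral_le_of_norm_le_const (C := 1) (Eventually.of_forall fun x => ?_)).trans ?_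
    · rw [norm_mul, RCLike.norm_conj]
      exact mul_le_one₀ (hb i x) (norm_nonneg _) (hb j x)
    · simp
  · rw [if_neg h, ho i j h, norm_zero]

end

/-- values are taken rarely -/
def FewB {k : ℕ} {M : Type*} (l : Fin k) (b : (Fin k → ℕ) → M) : Prop :=
  ∃ (G : Set (Fin k → ℕ)) (C δ : ℝ), 0 ≤ C ∧ 0 < δ ∧
    (∀ c : M, ∀ N : Fin k → ℕ, (∀ j, 1 ≤ N j) →
      cnt N (fun n => n ∈ G ∧ b n = c) ≤ C * (vol N * (N l : ℝ) ^ (-δ))) ∧
    (∀ N : Fin k → ℕ, (∀ j, 1 ≤ N j) →
      cnt N (fun n => n ∉ G) ≤ C * (vol N * ∑ j, (N j : ℝ) ^ (-δ)))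

theorem fewB_of_few {R M : Type*} [CommRing R] [AddCommGroup M] [Module R M] {k : ℕ} {l : Fin k}
    {b : (Fin k → ℕ) → M} (h : Few (⊥ : Submodule R M) l b) : FewB l b := by
  obtain ⟨G, C, δ, hC, hδ, h1, h2⟩ := h
  refine ⟨G, C, δ, hC, hδ, fun c N hN => (cnt_mono fun n hn => ⟨hn.1, ?_⟩).trans (h1 c N hN), h2⟩
  rw [hn.2, sub_self]
  exact Submodule.zero_mem _

theorem cnt_union {k : ℕ} (N : Fin k → ℕ) (D : Finset (Fin k)) {P : (Fin k → ℕ) → Prop}
    (Q : Fin k → (Fin k → ℕ) → Prop) (h : ∀ n, P n → ∃ l ∈ D, Q l n) :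
    cnt N P ≤ ∑ l ∈ D, cnt N (Q l) := by
  classical
  simp only [cnt_eq_sum]
  rw [Finset.sum_comm]
  refine Finset.sum_le_sum fun n _ => ?_
  by_cases hn : P n
  · rw [if_pos hn]
    obtain ⟨l, hl, hq⟩ := h n hn
    have := Finset.single_le_sum (f := fun l => if Q l n then (1 : ℝ) else 0)
      (fun i _ => by split_ifs <;> norm_num) hl
    rw [if_pos hq] at this
    exact this
  · rw [if_neg hn]
    exact Finset.sum_nonneg fun i _ => by split_ifs <;> norm_num

/-- a common small set -/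
theorem fewB_common {k : ℕ} {M : Type*} (D : Finset (Fin k)) (hD : D.Nonempty)
    (b : (Fin k → ℕ) → M) (h : ∀ l ∈ D, FewB l b) :
    ∃ (G : Set (Fin k → ℕ)) (C δ : ℝ), 0 ≤ C ∧ 0 < δ ∧
    (∀ l ∈ D, ∀ c : M, ∀ N : Fin k → ℕ, (∀ j, 1 ≤ N j) →
      cnt N (fun n => n ∈ G ∧ b n = c) ≤ C * (vol N * (N l : ℝ) ^ (-δ))) ∧
    (∀ N : Fin k → ℕ, (∀ j, 1 ≤ N j) →
      cnt N (fun n => n ∉ G) ≤ C * (vol N * ∑ j, (N j : ℝ) ^ (-δ))) := by
  classical
  choose! G C δ hC hδ h1 h2 using h
  have hδ' : 0 < D.inf' hD δ := (Finset.lt_inf'_iff hD).2 hδ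
  have hpow : ∀ l ∈ D, ∀ n : ℕ, 1 ≤ n → (n : ℝ) ^ (-δ l) ≤ (n : ℝ) ^ (-D.inf' hD δ) := by
    intro l hl n hn
    apply Real.rpow_le_rpow_of_exponent_le (by exact_mod_cast hn)
    have := Finset.inf'_le δ hl
    linarith
  have hCle : ∀ l ∈ D, C l ≤ ∑ l ∈ D, C l := fun l hl =>
    Finset.single_le_sum (f := C) (fun i hi => hC i hi) hl
  refine ⟨{n | ∀ l ∈ D, n ∈ G l}, ∑ l ∈ D, C l, D.inf' hD δ,
    Finset.sum_nonneg fun l hl => hC l hl, hδ', ?_, ?_⟩
  · intro l hl c N hN
    refine (cnt_mono fun n hn => ⟨hn.1 l hl, hn.2⟩).trans ((h1 l hl c N hN).trans ?_)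
    have hv := vol_nonneg N
    have := hpow l hl (N l) (hN l)
    have h3 := hCle l hl
    have h4 := hC l hl
    have h5 : 0 ≤ vol N * (N l : ℝ) ^ (-D.inf' hD δ) := by positivity
    calc C l * (vol N * (N l : ℝ) ^ (-δ l)) ≤ C l * (vol N * (N l : ℝ) ^ (-D.inf' hD δ)) := by
          gcongr
      _ ≤ _ := mul_le_mul_of_nonneg_right h3 h5
  · intro N hN
    refine (cnt_union N D (fun l n => n ∉ G l) (fun n hn => ?_)).trans ?_
    · by_contra hcon
      push Not at hcon
      exact hn hcon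
    rw [Finset.sum_mul]
    refine Finset.sum_le_sum fun l hl => (h2 l hl N hN).trans ?_
    have hv := vol_nonneg N
    have h4 := hC l hl
    have h5 : ∑ j, (N j : ℝ) ^ (-δ l) ≤ ∑ j, (N j : ℝ) ^ (-D.inf' hD δ) :=
      Finset.sum_le_sum fun j _ => hpow l hl _ (hN j)
    exact mul_le_mul_of_nonneg_left (mul_le_mul_of_nonneg_left h5 hv) h4

theorem exists_root (s : ℕ) (hs : 1 ≤ s) (N : ℕ) (hN : 1 ≤ N) :
    ∃ j : ℕ, (j + 1) ^ s ≤ N ∧ N < (j + 2) ^ s := by
  classical
  have h1 : ∃ j : ℕ, N < (j + 2) ^ s := by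
    refine ⟨N, ?_⟩
    calc N < N + 2 := by omega
      _ = (N + 2) ^ 1 := (pow_one _).symm
      _ ≤ (N + 2) ^ s := Nat.pow_le_pow_right (by omega) hs
  refine ⟨Nat.find h1, ?_, Nat.find_spec h1⟩
  rcases Nat.eq_zero_or_pos (Nat.find h1) with h2 | h2
  · rw [h2, zero_add, one_pow]
    exact hN
  · have h3 := Nat.find_min h1 (m := Nat.find h1 - 1) (by omega)
    rw [not_lt] at h3
    rwa [show Nat.find h1 - 1 + 2 = Nat.find h1 + 1 by omega] at h3

/-- the sides of the sparse boxes -/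
def spa {k : ℕ} (s : ℕ) (j : Fin k → ℕ) : Fin k → ℕ := fun l => (j l + 1) ^ s

theorem one_le_spa {k : ℕ} (s : ℕ) (j : Fin k → ℕ) (l : Fin k) : 1 ≤ spa s j l :=
  Nat.one_le_pow _ _ (Nat.succ_pos _)

section

variable {X : Type*} [MeasurableSpace X] {μ : Measure X} [IsProbabilityMeasure μ] {k : ℕ}

open Classical in
/-- average over the good part of the box -/
def gav (G : Set (Fin k → ℕ)) (F : (Fin k → ℕ) → X → ℂ) (N : Fin k → ℕ) (x : X) : ℂ :=
  (vol N : ℂ)⁻¹ * ∑ n ∈ (bxs N).filter (fun n => n ∈ G), F n x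

omit [MeasurableSpace X] in
theorem bxc_gav {G : Set (Fin k → ℕ)} {F : (Fin k → ℕ) → X → ℂ} (hb : ∀ i x, ‖F i x‖ ≤ 1)
    {N : Fin k → ℕ} (hN : ∀ j, 1 ≤ N j) (x : X) :
    ‖bxc k N (fun n => F n x)‖ ≤ ‖gav G F N x‖ + cnt N (fun n => n ∉ G) / vol N := by
  classical
  have hv := vol_pos hN
  have e1 : bxc k N (fun n => F n x) = gav G F N x +
      (vol N : ℂ)⁻¹ * ∑ n ∈ (bxs N).filter (fun n => n ∉ G), F n x := by
    rw [bxc_eq, gav, ← mul_add]
    congr 1
    have := Finset.sum_filter_add_sum_filter_not (bxs N) (fun n => n ∈ G) (fun n => F n x)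
    rw [← this]
  rw [e1]
  refine (norm_add_le _ _).trans (add_le_add le_rfl ?_)
  rw [norm_mul, norm_inv, Complex.norm_real, Real.norm_of_nonneg hv.le, inv_mul_eq_div]
  refine div_le_div_of_nonneg_right ?_ hv.le
  refine (norm_sum_le _ _).trans ?_
  refine (Finset.sum_le_sum fun n _ => hb n x).trans ?_
  rw [Finset.sum_const, nsmul_eq_mul, mul_one]
  unfold cnt
  apply le_of_eq
  congr!

theorem int_gav {G : Set (Fin k → ℕ)} {F : (Fin k → ℕ) → X → ℂ} (hm : ∀ i, Measurable (F i))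
    (hb : ∀ i x, ‖F i x‖ ≤ 1) {M : Type*} (b : (Fin k → ℕ) → M)
    (ho : ∀ i j, b i ≠ b j → ∫ x, F i x * conj (F j x) ∂μ = 0) {N : Fin k → ℕ}
    (hN : ∀ j, 1 ≤ N j) {K : ℝ} (hK : ∀ c, cnt N (fun n => n ∈ G ∧ b n = c) ≤ K * vol N) :
    ∫ x, ‖gav G F N x‖ ^ 2 ∂μ ≤ K := by
  classical
  have hv := vol_pos hN
  have hne : K * vol N ≥ 0 := (cnt_nonneg N _).trans (hK (b 0))
  have e1 : ∀ x, ‖gav G F N x‖ ^ 2 =
      (vol N ^ 2)⁻¹ * ‖∑ n ∈ (bxs N).filter (fun n => n ∈ G), F n x‖ ^ 2 := by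
    intro x
    unfold gav
    rw [norm_mul, norm_inv, Complex.norm_real, Real.norm_of_nonneg hv.le, mul_pow, inv_pow]
  simp only [e1]
  rw [integral_const_mul, inv_mul_le_iff₀ (by positivity)]
  refine (l2_sum _ F hm hb b ho (K * vol N) ?_).trans ?_
  · intro j _ _
    refine le_trans ?_ (hK (b j))
    unfold cnt
    rw [Finset.filter_filter]
    apply le_of_eq
    congr!
  · have h1 : (((bxs N).filter (fun n => n ∈ G)).card : ℝ) ≤ vol N := by
      rw [← card_bxs]
      exact_mod_cast Finset.card_filter_le _ _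
    calc (((bxs N).filter (fun n => n ∈ G)).card : ℝ) * (K * vol N) ≤ vol N * (K * vol N) :=
          mul_le_mul_of_nonneg_right h1 hne
      _ = vol N ^ 2 * K := by ring

/-- **Convergence to zero from few coincidences.** -/
theorem ae_zero (D : Finset (Fin k)) (hD : D.Nonempty) {M : Type*} (b : (Fin k → ℕ) → M)
    (F : (Fin k → ℕ) → X → ℂ) (hm : ∀ i, Measurable (F i)) (hb : ∀ i x, ‖F i x‖ ≤ 1)
    (ho : ∀ i j, b i ≠ b j → ∫ x, F i x * conj (F j x) ∂μ = 0)
    (hind : ∀ l ∉ D, Indc l F) (hfew : ∀ l ∈ D, FewB l b) :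
    ∀ᵐ x ∂μ, Tendsto (fun N => bxc k N (fun n => F n x)) atTop (𝓝 0) := by
  classical
  obtain ⟨G, C, δ, hC, hδ, h1, h2⟩ := fewB_common D hD b hfew
  have hk : 1 ≤ k := by
    obtain ⟨l, _⟩ := hD
    have := l.pos
    omega
  -- the exponent
  obtain ⟨s, hs⟩ : ∃ s : ℕ, 2 * (k : ℝ) ≤ s * δ := by
    obtain ⟨s, hs⟩ := exists_nat_ge (2 * (k : ℝ) / δ)
    exact ⟨s, (div_le_iff₀ hδ).1 hs⟩
  have hs1 : 1 ≤ s := by
    rcases Nat.eq_zero_or_pos s with h | h
    · rw [h, Nat.cast_zero, zero_mul] at hs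
      have : (1 : ℝ) ≤ k := by exact_mod_cast hk
      linarith
    · exact h
  set S : Set (Fin k → ℕ) := {j | ∀ l ∉ D, j l = D.sup j} with hS
  have hSle : ∀ j ∈ S, ∀ i, j i ≤ D.sup j := by
    intro j hj i
    by_cases hi : i ∈ D
    · exact Finset.le_sup hi
    · exact (hj i hi).le
  -- powers
  have hpw : ∀ t : ℕ, (((t + 1) ^ s : ℕ) : ℝ) ^ (-δ) = ((t : ℝ) + 1) ^ (-(s * δ)) := by
    intro t
    push_cast
    rw [← Real.rpow_natCast, ← Real.rpow_mul (by positivity)]
    congr 1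
    ring
  -- the integrals
  have hint : ∀ j ∈ S, ∫ x, ‖gav G F (spa s j) x‖ ^ 2 ∂μ ≤ C * ∏ i, (((j i : ℝ) + 1) ^ 2)⁻¹ := by
    intro j hj
    obtain ⟨l, hl, hlj⟩ := Finset.exists_mem_eq_sup D hD j
    have h3 : ∫ x, ‖gav G F (spa s j) x‖ ^ 2 ∂μ ≤ C * (spa s j l : ℝ) ^ (-δ) := by
      refine int_gav hm hb b ho (one_le_spa s j) fun c => ?_
      refine (h1 l hl c _ (one_le_spa s j)).trans (le_of_eq ?_)
      ring
    refine h3.trans (mul_le_mul_of_nonneg_left ?_ hC)
    show (((j l + 1) ^ s : ℕ) : ℝ) ^ (-δ) ≤ _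
    rw [hpw]
    calc ((j l : ℝ) + 1) ^ (-(s * δ)) ≤ ((j l : ℝ) + 1) ^ (-(2 * (k : ℝ))) := by
          apply Real.rpow_le_rpow_of_exponent_le
          · have : (0 : ℝ) ≤ j l := by positivity
            linarith
          · linarith
      _ = ∏ _i : Fin k, (((j l : ℝ) + 1) ^ 2)⁻¹ := by
          rw [Finset.prod_const, Finset.card_univ, Fintype.card_fin, Real.rpow_neg (by positivity),
            inv_pow, ← pow_mul]
          congr 1
          exact_mod_cast Real.rpow_natCast ((j l : ℝ) + 1) (2 * k)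
      _ ≤ ∏ i, (((j i : ℝ) + 1) ^ 2)⁻¹ := by
          refine Finset.prod_le_prod (fun i _ => by positivity) fun i _ => ?_
          apply inv_anti₀ (by positivity)
          apply pow_le_pow_left₀ (by positivity)
          have : j i ≤ j l := by
            rw [← hlj]
            exact hSle j hj i
          have : (j i : ℝ) ≤ j l := by exact_mod_cast this
          linarith
  have hgm : ∀ N, Measurable fun x => ‖gav G F N x‖ ^ 2 := by
    intro N
    unfold gav
    exact (((Finset.measurable_fun_sum _ fun i _ => hm i).const_mul _).norm).pow_const 2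
  have hsum : Summable fun j : Fin k → ℕ => C * ∏ i, (((j i : ℝ) + 1) ^ 2)⁻¹ := by
    refine Summable.mul_left C (summable_pi (a := fun n : ℕ => (((n : ℝ) + 1) ^ 2)⁻¹)
      (fun n => by positivity) ?_)
    have := (summable_nat_add_iff 1).2 (Real.summable_nat_pow_inv.2 (le_refl 2))
    simpa using this
  have hae := ae_cofinite (μ := μ)
    (v := fun (j : Fin k → ℕ) x => if j ∈ S then ‖gav G F (spa s j) x‖ ^ 2 else 0)
    (a := fun j : Fin k → ℕ => C * ∏ i, (((j i : ℝ) + 1) ^ 2)⁻¹)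
    (fun j => by
      by_cases hj : j ∈ S
      · simp only [if_pos hj]
        exact hgm _
      · simp only [if_neg hj]
        exact measurable_const)
    (fun j x => by split_ifs <;> positivity)
    (fun j => by
      by_cases hj : j ∈ S
      · simp only [if_pos hj]
        refine Integrable.of_bound (hgm _).aestronglyMeasurable 1
          (Eventually.of_forall fun x => ?_)
        have hv := vol_pos (one_le_spa s j)
        rw [Real.norm_of_nonneg (by positivity)]
        refine pow_le_one₀ (norm_nonneg _) ?_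
        unfold gav
        rw [norm_mul, norm_inv, Complex.norm_real, Real.norm_of_nonneg hv.le,
          inv_mul_le_iff₀ hv, mul_one]
        refine (norm_sum_le _ _).trans ?_
        refine (Finset.sum_le_sum fun n _ => hb n x).trans ?_
        rw [Finset.sum_const, nsmul_eq_mul, mul_one, ← card_bxs]
        exact_mod_cast Finset.card_filter_le _ _
      · simp only [if_neg hj]
        exact integrable_zero _ _ _)
    (fun j => by
      by_cases hj : j ∈ S
      · simp only [if_pos hj]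
        exact hint j hj
      · simp only [if_neg hj, integral_zero]
        exact mul_nonneg hC (Finset.prod_nonneg fun i _ => by positivity))
    hsum
  filter_upwards [hae] with x hx
  rw [Metric.tendsto_atTop]
  intro ε hε
  -- thresholds
  obtain ⟨B, hB⟩ : ∃ B : ℕ, ∀ j ∈ S, (∀ l ∈ D, B ≤ j l) → ‖gav G F (spa s j) x‖ ≤ ε / 4 := by
    have h3 := hx.eventually (gt_mem_nhds (show (0 : ℝ) < (ε / 4) ^ 2 by positivity))
    rw [eventually_cofinite] at h3
    obtain ⟨B, hB⟩ : ∃ B : ℕ, ∀ j ∈ h3.toFinset, ∀ i, j i < B := by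
      refine ⟨(h3.toFinset.sup fun j => Finset.univ.sup j) + 1, fun j hj i => ?_⟩
      have e1 : j i ≤ Finset.univ.sup j := Finset.le_sup (f := j) (Finset.mem_univ i)
      have e2 : Finset.univ.sup j ≤ h3.toFinset.sup fun j => Finset.univ.sup j :=
        Finset.le_sup (f := fun j : Fin k → ℕ => Finset.univ.sup j) hj
      omega
    refine ⟨B, fun j hj hjB => ?_⟩
    by_contra hcon
    obtain ⟨l, hl⟩ := hD
    have h4 := hB j (by
      rw [Set.Finite.mem_toFinset]
      intro h5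
      rw [if_pos hj] at h5
      exact hcon (lt_of_pow_lt_pow_left₀ 2 (by positivity) h5).le) l
    have := hjB l hl
    omega
  have hlim1 : Tendsto (fun t : ℕ => C * (k * ((t : ℝ) + 1) ^ (-(s * δ)))) atTop (𝓝 0) := by
    have h3 : Tendsto (fun t : ℕ => ((t : ℝ) + 1) ^ (-(s * δ))) atTop (𝓝 0) := by
      have hpos : 0 < s * δ := by
        have : (0 : ℝ) < s := by exact_mod_cast hs1
        positivity
      exact (tendsto_rpow_neg_atTop hpos).comp
        (tendsto_atTop_add_const_right _ _ tendsto_natCast_atTop_atTop)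
    have h4 := (h3.const_mul (k : ℝ)).const_mul C
    simpa using h4
  have hlim2 : Tendsto (fun t : ℕ => 2 * (1 - ((((t : ℝ) + 1) / (t + 2)) ^ s) ^ k)) atTop
      (𝓝 0) := by
    have h3 : Tendsto (fun t : ℕ => ((t : ℝ) + 1) / (t + 2)) atTop (𝓝 1) := by
      have h4 : Tendsto (fun t : ℕ => 1 - 1 / (((t + 1 : ℕ) : ℝ) + 1)) atTop (𝓝 (1 - 0)) :=
        tendsto_const_nhds.sub (tendsto_one_div_add_atTop_nhds_zero_nat.comp
          (tendsto_add_atTop_nat 1))
      rw [sub_zero] at h4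
      refine h4.congr fun t => ?_
      push_cast
      have : (t : ℝ) + 2 ≠ 0 := by positivity
      have : (t : ℝ) + 1 + 1 ≠ 0 := by positivity
      field_simp
      ring
    have h4 := (((h3.pow s).pow k).const_sub 1).const_mul 2
    simpa using h4
  obtain ⟨J, hJB, hJ1, hJ2⟩ := ((eventually_ge_atTop B).and
    ((hlim1.eventually (gt_mem_nhds (show (0 : ℝ) < ε / 4 by positivity))).and
    (hlim2.eventually (gt_mem_nhds (show (0 : ℝ) < ε / 4 by positivity))))).exists
  refine ⟨fun _ => (J + 1) ^ s, fun N hN => ?_⟩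
  have hN' : ∀ l, (J + 1) ^ s ≤ N l := fun l => hN l
  have hN1 : ∀ l, 1 ≤ N l := fun l => (Nat.one_le_pow _ _ (Nat.succ_pos _)).trans (hN' l)
  choose j₀ hj₀ hj₀' using fun l => exists_root s hs1 (N l) (hN1 l)
  have hj₀J : ∀ l, J ≤ j₀ l := by
    intro l
    have h3 : (J + 1) ^ s < (j₀ l + 2) ^ s := (hN' l).trans_lt (hj₀' l)
    have h4 := lt_of_pow_lt_pow_left₀ s (Nat.zero_le _) h3
    omega
  set j : Fin k → ℕ := fun l => if l ∈ D then j₀ l else D.sup j₀ with hj
  have hjD : ∀ l ∈ D, j l = j₀ l := fun l hl => if_pos hl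
  have hjsup : D.sup j = D.sup j₀ := Finset.sup_congr rfl hjD
  have hjS : j ∈ S := by
    intro l hl
    rw [hjsup]
    exact if_neg hl
  have hjJ : ∀ l, J ≤ j l := by
    intro l
    by_cases hl : l ∈ D
    · rw [hjD l hl]
      exact hj₀J l
    · rw [hjS l hl, hjsup]
      obtain ⟨l', hl'⟩ := hD
      exact (hj₀J l').trans (Finset.le_sup hl')
  set N' : Fin k → ℕ := fun l => if l ∈ D then N l else spa s j l with hN'def
  have hN'1 : ∀ l, 1 ≤ N' l := by
    intro l
    show 1 ≤ if l ∈ D then N l else spa s j l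
    split_ifs
    · exact hN1 l
    · exact one_le_spa s j l
  have hle : ∀ l, spa s j l ≤ N' l := by
    intro l
    show spa s j l ≤ if l ∈ D then N l else spa s j l
    split_ifs with hl
    · show (j l + 1) ^ s ≤ N l
      rw [hjD l hl]
      exact hj₀ l
    · exact le_rfl
  have e1 : bxc k N (fun n => F n x) = bxc k N' (fun n => F n x) :=
    bxc_congr_D D (fun l hl n => by
      show F _ x = F _ x
      rw [hind l hl n]) hN1 hN'1 (fun l hl => (if_pos hl).symm)
  rw [dist_zero_right, e1]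
  have e2 := bxc_compare (one_le_spa s j) hle (f := fun n => F n x) (fun n => hb n x)
  have e3 := bxc_gav (G := G) hb (one_le_spa s j) x
  have e4 := hB j hjS fun l _ => hJB.trans (hjJ l)
  -- the bad part
  have hv := vol_pos (one_le_spa s j)
  have e5 : cnt (spa s j) (fun n => n ∉ G) / vol (spa s j) ≤ ε / 4 := by
    rw [div_le_iff₀ hv]
    refine (h2 _ (one_le_spa s j)).trans ?_
    have e6 : ∑ l, (spa s j l : ℝ) ^ (-δ) ≤ k * ((J : ℝ) + 1) ^ (-(s * δ)) := by
      calc ∑ l, (spa s j l : ℝ) ^ (-δ) ≤ ∑ _l : Fin k, ((J : ℝ) + 1) ^ (-(s * δ)) := by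
            refine Finset.sum_le_sum fun l _ => ?_
            show (((j l + 1) ^ s : ℕ) : ℝ) ^ (-δ) ≤ _
            rw [hpw]
            apply Real.rpow_le_rpow_of_nonpos (by positivity)
            · have : (J : ℝ) ≤ j l := by exact_mod_cast hjJ l
              linarith
            · have : 0 ≤ s * δ := by positivity
              linarith
        _ = k * ((J : ℝ) + 1) ^ (-(s * δ)) := by
            rw [Finset.sum_const, Finset.card_univ, Fintype.card_fin, nsmul_eq_mul]
    calc C * (vol (spa s j) * ∑ l, (spa s j l : ℝ) ^ (-δ)) ≤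
          C * (vol (spa s j) * (k * ((J : ℝ) + 1) ^ (-(s * δ)))) := by
          gcongr
      _ = (C * (k * ((J : ℝ) + 1) ^ (-(s * δ)))) * vol (spa s j) := by ring
      _ ≤ ε / 4 * vol (spa s j) := mul_le_mul_of_nonneg_right hJ1.le hv.le
  -- the ratio
  have e7 : ((((J : ℝ) + 1) / (J + 2)) ^ s) ^ k ≤ vol (spa s j) / vol N' := by
    unfold vol
    rw [← Finset.prod_div_distrib]
    have e8 : ((((J : ℝ) + 1) / (J + 2)) ^ s) ^ k =
        ∏ _l : Fin k, (((J : ℝ) + 1) / (J + 2)) ^ s := by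
      rw [Finset.prod_const, Finset.card_univ, Fintype.card_fin]
    rw [e8]
    refine Finset.prod_le_prod (fun l _ => by positivity) fun l _ => ?_
    by_cases hl : l ∈ D
    · have e9 : N' l = N l := if_pos hl
      rw [e9]
      have hNl : (0 : ℝ) < N l := by exact_mod_cast hN1 l
      rw [le_div_iff₀ hNl]
      have e10 : (N l : ℝ) ≤ ((j l : ℝ) + 2) ^ s := by
        rw [hjD l hl]
        exact_mod_cast (hj₀' l).le
      have e11 : ((J : ℝ) + 1) / (J + 2) ≤ ((j l : ℝ) + 1) / (j l + 2) := by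
        rw [div_le_div_iff₀ (by positivity) (by positivity)]
        have : (J : ℝ) ≤ j l := by exact_mod_cast hjJ l
        nlinarith
      calc (((J : ℝ) + 1) / (J + 2)) ^ s * N l ≤
            (((j l : ℝ) + 1) / (j l + 2)) ^ s * ((j l : ℝ) + 2) ^ s := by
            gcongr
        _ = ((j l : ℝ) + 1) ^ s := by
            rw [← mul_pow]
            congr 1
            field_simp
        _ = (spa s j l : ℝ) := by
            unfold spa
            push_cast
            rfl
    · have e9 : N' l = spa s j l := if_neg hl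
      rw [e9, div_self]
      · apply pow_le_one₀ (by positivity)
        rw [div_le_one (by positivity)]
        linarith
      · have := one_le_spa s j l
        have : spa s j l ≠ 0 := by omega
        exact_mod_cast this
  linarith

end

end Pool.Agent.TH784.AA
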