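import Pool.Agent.TH784.AA.Irr
import Pool.Agent.W761.Box.Clos

/-!
# Box averages: comparison, independence of coordinates, residue classes
-/

set_option autoImplicit false

open Filter Topology

noncomputable section

namespace Pool.Agent.TH784.AA

open Pool.Agent.W761.Box (bxc)

variable {k : ℕ}

theorem bxc_eq (N : Fin k → ℕ) (f : (Fin k → ℕ) → ℂ) :
    bxc k N f = (vol N : ℂ)⁻¹ * ∑ n ∈ bxs N, f n := by
  unfold bxc bxs vol
  push_cast
  rfl

theorem norm_sum_bxs {N : Fin k → ℕ} {f : (Fin k → ℕ) → ℂ} (hf : ∀ n, ‖f n‖ ≤ 1) :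
    ‖∑ n ∈ bxs N, f n‖ ≤ vol N := by
  refine (norm_sum_le _ _).trans ?_
  refine (Finset.sum_le_sum fun n _ => hf n).trans ?_
  rw [Finset.sum_const, nsmul_eq_mul, card_bxs, mul_one]

theorem bxs_mono {N N' : Fin k → ℕ} (h : ∀ j, N j ≤ N' j) : bxs N ⊆ bxs N' := by
  intro n hn
  rw [mem_bxs] at hn ⊢
  exact fun j => (hn j).trans_le (h j)

/-- comparison of the averages over two nested boxes -/
theorem bxc_compare {N N' : Fin k → ℕ} (hN : ∀ j, 1 ≤ N j) (h : ∀ j, N j ≤ N' j)
    {f : (Fin k → ℕ) → ℂ} (hf : ∀ n, ‖f n‖ ≤ 1) :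
    ‖bxc k N' f‖ ≤ ‖bxc k N f‖ + 2 * (1 - vol N / vol N') := by
  classical
  have h1 : 0 < vol N := vol_pos hN
  have h2 : 0 < vol N' := vol_pos fun j => (hN j).trans (h j)
  rw [bxc_eq, bxc_eq, norm_mul, norm_mul, norm_inv, norm_inv, Complex.norm_real,
    Complex.norm_real, Real.norm_of_nonneg h1.le, Real.norm_of_nonneg h2.le]
  have e1 : ∑ n ∈ bxs N', f n = ∑ n ∈ bxs N, f n + ∑ n ∈ bxs N' \ bxs N, f n := by
    rw [add_comm, Finset.sum_sdiff (bxs_mono h)]
  have e2 : ‖∑ n ∈ bxs N' \ bxs N, f n‖ ≤ vol N' - vol N := by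
    refine (norm_sum_le _ _).trans ?_
    refine (Finset.sum_le_sum fun n _ => hf n).trans ?_
    rw [Finset.sum_const, nsmul_eq_mul, mul_one, Finset.card_sdiff_of_subset (bxs_mono h),
      Nat.cast_sub (Finset.card_le_card (bxs_mono h)), card_bxs, card_bxs]
  have e3 : ‖∑ n ∈ bxs N', f n‖ ≤ ‖∑ n ∈ bxs N, f n‖ + (vol N' - vol N) := by
    rw [e1]
    exact (norm_add_le _ _).trans (add_le_add le_rfl e2)
  have hle : vol N ≤ vol N' := by
    rw [← card_bxs, ← card_bxs]
    exact_mod_cast Finset.card_le_card (bxs_mono h)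
  have hinv : (vol N')⁻¹ ≤ (vol N)⁻¹ := inv_anti₀ h1 hle
  have e4 : (vol N')⁻¹ * (vol N' - vol N) = 1 - vol N / vol N' := by
    field_simp
  have e5 : 0 ≤ 1 - vol N / vol N' := by
    rw [sub_nonneg, div_le_one h2]
    exact hle
  calc (vol N')⁻¹ * ‖∑ n ∈ bxs N', f n‖ ≤
        (vol N')⁻¹ * (‖∑ n ∈ bxs N, f n‖ + (vol N' - vol N)) :=
        mul_le_mul_of_nonneg_left e3 (by positivity)
    _ = (vol N')⁻¹ * ‖∑ n ∈ bxs N, f n‖ + (1 - vol N / vol N') := by rw [mul_add, e4]
    _ ≤ (vol N)⁻¹ * ‖∑ n ∈ bxs N, f n‖ + 2 * (1 - vol N / vol N') := by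
        have := mul_le_mul_of_nonneg_right hinv (norm_nonneg (∑ n ∈ bxs N, f n))
        linarith

theorem vol_update (N : Fin k → ℕ) (l : Fin k) (a : ℕ) :
    vol (Function.update N l a) = a * vol (Function.update N l 1) := by
  unfold vol
  rw [← Finset.mul_prod_erase Finset.univ _ (Finset.mem_univ l), Function.update_self,
    ← Finset.mul_prod_erase Finset.univ (fun j => (Function.update N l 1 j : ℝ))
      (Finset.mem_univ l), Function.update_self, Nat.cast_one, one_mul]
  congr 1
  refine Finset.prod_congr rfl fun j hj => ?_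
  rw [Function.update_of_ne (Finset.ne_of_mem_erase hj),
    Function.update_of_ne (Finset.ne_of_mem_erase hj)]

/-- independence of a coordinate -/
def Indc {α : Type*} (l : Fin k) (f : (Fin k → ℕ) → α) : Prop :=
  ∀ n, f (Function.update n l (n l + 1)) = f n

theorem Indc.eq {α : Type*} {l : Fin k} {f : (Fin k → ℕ) → α} (h : Indc l f) (n : Fin k → ℕ)
    (s t : ℕ) : f (Function.update n l s) = f (Function.update n l t) := by
  have h1 : ∀ s : ℕ, f (Function.update n l s) = f (Function.update n l 0) := by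
    intro s
    induction s with
    | zero => rfl
    | succ s ih =>
      have h2 := h (Function.update n l s)
      rw [Function.update_self, Function.update_idem] at h2
      rw [h2, ih]
  rw [h1 s, h1 t]

theorem sum_update {l : Fin k} {f : (Fin k → ℕ) → ℂ} (h : Indc l f) (N : Fin k → ℕ) (a : ℕ) :
    ∑ n ∈ bxs (Function.update N l a), f n = a * ∑ n ∈ bxs (Function.update N l 1), f n := by
  classical
  have h1 : (a : ℂ) * ∑ n ∈ bxs (Function.update N l 1), f n =
      ∑ p ∈ Finset.range a ×ˢ bxs (Function.update N l 1), f p.2 := by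
    rw [Finset.sum_product]
    show _ = ∑ x ∈ Finset.range a, ∑ y ∈ bxs (Function.update N l 1), f y
    rw [Finset.sum_const, Finset.card_range, nsmul_eq_mul]
  rw [h1]
  refine Finset.sum_nbij' (fun n => (n l, Function.update n l 0))
    (fun p => Function.update p.2 l p.1) ?_ ?_ ?_ ?_ ?_
  · intro n hn
    rw [mem_bxs] at hn
    rw [Finset.mem_product, Finset.mem_range, mem_bxs]
    refine ⟨?_, fun j => ?_⟩
    · have := hn l
      rwa [Function.update_self] at this
    · show Function.update n l 0 j < Function.update N l 1 j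
      by_cases hj : j = l
      · subst hj
        rw [Function.update_self, Function.update_self]
        exact Nat.one_pos
      · rw [Function.update_of_ne hj, Function.update_of_ne hj]
        have := hn j
        rwa [Function.update_of_ne hj] at this
  · intro p hp
    rw [Finset.mem_product, Finset.mem_range, mem_bxs] at hp
    rw [mem_bxs]
    intro j
    show Function.update p.2 l p.1 j < Function.update N l a j
    by_cases hj : j = l
    · subst hj
      rw [Function.update_self, Function.update_self]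
      exact hp.1
    · rw [Function.update_of_ne hj, Function.update_of_ne hj]
      have := hp.2 j
      rwa [Function.update_of_ne hj] at this
  · intro n _
    simp
  · intro p hp
    rw [Finset.mem_product, mem_bxs] at hp
    have h2 := hp.2 l
    rw [Function.update_self] at h2
    have h3 : p.2 l = 0 := by omega
    ext
    · simp
    · simp only [Function.update_idem]
      rw [← h3, Function.update_eq_self]
  · intro n _
    have := h.eq n (n l) 0
    rw [Function.update_eq_self] at this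
    exact this

/-- the averages do not depend on the sides in the directions of independence -/
theorem bxc_update {l : Fin k} {f : (Fin k → ℕ) → ℂ} (h : Indc l f) (N : Fin k → ℕ) {a b : ℕ}
    (ha : 1 ≤ a) (hb : 1 ≤ b) :
    bxc k (Function.update N l a) f = bxc k (Function.update N l b) f := by
  have key : ∀ c : ℕ, 1 ≤ c → bxc k (Function.update N l c) f =
      (vol (Function.update N l 1) : ℂ)⁻¹ * ∑ n ∈ bxs (Function.update N l 1), f n := by
    intro c hc
    have hc' : (c : ℂ) ≠ 0 := by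
      have : c ≠ 0 := by omega
      exact_mod_cast this
    rw [bxc_eq, vol_update, sum_update h]
    push_cast
    rw [mul_inv]
    field_simp
  rw [key a ha, key b hb]

theorem bxc_congr_D (D : Finset (Fin k)) {f : (Fin k → ℕ) → ℂ} (h : ∀ l ∉ D, Indc l f)
    {N N' : Fin k → ℕ} (hN : ∀ j, 1 ≤ N j) (hN' : ∀ j, 1 ≤ N' j) (he : ∀ l ∈ D, N l = N' l) :
    bxc k N f = bxc k N' f := by
  classical
  have key : ∀ T : Finset (Fin k), (∀ l ∈ T, l ∉ D) →
      bxc k (fun j => if j ∈ T then N' j else N j) f = bxc k N f := by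
    intro T
    induction T using Finset.induction_on with
    | empty =>
      intro _
      simp
    | insert l T hl ih =>
      intro hT
      rw [← ih fun l' hl' => hT l' (Finset.mem_insert_of_mem hl')]
      have e1 : (fun j => if j ∈ insert l T then N' j else N j) =
          Function.update (fun j => if j ∈ T then N' j else N j) l (N' l) := by
        funext j
        by_cases hj : j = l
        · subst hj
          rw [Function.update_self, if_pos (Finset.mem_insert_self _ _)]
        · rw [Function.update_of_ne hj]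
          simp only [Finset.mem_insert, hj, false_or]
      have e2 : (fun j => if j ∈ T then N' j else N j) =
          Function.update (fun j => if j ∈ T then N' j else N j) l (N l) := by
        funext j
        by_cases hj : j = l
        · subst hj
          rw [Function.update_self, if_neg hl]
        · rw [Function.update_of_ne hj]
      rw [e1]
      conv_rhs => rw [e2]
      exact bxc_update (h l (hT l (Finset.mem_insert_self _ _))) _ (hN' l) (hN l)
  have h1 := key (Finset.univ.filter fun l => l ∉ D) (fun l hl => (Finset.mem_filter.1 hl).2)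
  rw [← h1]
  congr 1
  funext j
  by_cases hj : j ∈ D
  · rw [if_neg, he j hj]
    rw [Finset.mem_filter]
    rintro ⟨_, h2⟩
    exact h2 hj
  · rw [if_pos]
    rw [Finset.mem_filter]
    exact ⟨Finset.mem_univ _, hj⟩

/-! ### Residue classes -/

/-- number of elements of a residue class -/
def cr (q : ℕ) (r N : Fin k → ℕ) : Fin k → ℕ := fun j => (N j + q - 1 - r j) / q

theorem lt_cr {q r N t : ℕ} (hr : r < q) : t < (N + q - 1 - r) / q ↔ r + q * t < N := by
  have hq : 0 < q := by omega
  rw [Nat.lt_iff_add_one_le, Nat.le_div_iff_mul_le hq]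
  have e : (t + 1) * q = q * t + q := by ring
  rw [e]
  omega

theorem sum_residues {q : ℕ} (hq : 1 ≤ q) (N : Fin k → ℕ) (f : (Fin k → ℕ) → ℂ) :
    ∑ n ∈ bxs N, f n = ∑ r ∈ bxs (fun _ : Fin k => q), ∑ m ∈ bxs (cr q r N), sub r q f m := by
  classical
  rw [Finset.sum_sigma']
  refine Finset.sum_bij' (fun n _ => (⟨fun j => n j % q, fun j => n j / q⟩ :
      (_ : Fin k → ℕ) × (Fin k → ℕ))) (fun p _ => fun j => p.1 j + q * p.2 j) ?_ ?_ ?_ ?_ ?_
  · intro n hn
    rw [mem_bxs] at hn
    rw [Finset.mem_sigma, mem_bxs, mem_bxs]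
    refine ⟨fun j => Nat.mod_lt _ hq, fun j => ?_⟩
    show n j / q < (N j + q - 1 - n j % q) / q
    rw [lt_cr (Nat.mod_lt _ hq), Nat.mod_add_div]
    exact hn j
  · intro p hp
    rw [Finset.mem_sigma, mem_bxs, mem_bxs] at hp
    rw [mem_bxs]
    intro j
    exact (lt_cr (hp.1 j)).1 (hp.2 j)
  · intro n _
    funext j
    exact Nat.mod_add_div _ _
  · intro p hp
    rw [Finset.mem_sigma, mem_bxs, mem_bxs] at hp
    have h1 : (fun j => (p.1 j + q * p.2 j) % q) = p.1 := by
      funext j
      rw [Nat.add_mul_mod_self_left, Nat.mod_eq_of_lt (hp.1 j)]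
    have h2 : (fun j => (p.1 j + q * p.2 j) / q) = p.2 := by
      funext j
      rw [Nat.add_mul_div_left _ _ hq, Nat.div_eq_of_lt (hp.1 j), zero_add]
    ext1
    · exact h1
    · exact heq_of_eq h2
  · intro n _
    unfold sub
    congr 1
    funext j
    exact (Nat.mod_add_div _ _).symm

theorem tendsto_cr {q : ℕ} (hq : 1 ≤ q) (r : Fin k → ℕ) (hr : ∀ j, r j < q) :
    Tendsto (cr q r) atTop atTop := by
  rw [tendsto_atTop_atTop]
  intro b
  refine ⟨fun j => q * b j + q, fun N hN j => ?_⟩
  have h1 := hN j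
  show b j ≤ (N j + q - 1 - r j) / q
  rw [Nat.le_div_iff_mul_le hq]
  have h2 := hr j
  have e : b j * q = q * b j := mul_comm _ _
  have h3 : q * b j + q ≤ N j := h1
  omega

theorem tendsto_cr_ratio {q : ℕ} (hq : 1 ≤ q) {r : ℕ} (hr : r < q) :
    Tendsto (fun N : ℕ => (((N + q - 1 - r) / q : ℕ) : ℝ) / N) atTop (𝓝 (q : ℝ)⁻¹) := by
  have hq' : (0 : ℝ) < q := by exact_mod_cast hq
  have h1 : Tendsto (fun N : ℕ => (1 : ℝ) / N) atTop (𝓝 0) := tendsto_one_div_atTop_nhds_zero_nat
  refine tendsto_of_tendsto_of_tendsto_of_le_of_le'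
    (g := fun N : ℕ => (q : ℝ)⁻¹ - 1 / N) (h := fun N : ℕ => (q : ℝ)⁻¹ + 1 / N) ?_ ?_ ?_ ?_
  · simpa using tendsto_const_nhds.sub h1
  · simpa using tendsto_const_nhds.add h1
  · filter_upwards [eventually_ge_atTop 1] with N hN
    have hN' : (0 : ℝ) < N := by exact_mod_cast hN
    have h2 : N ≤ q * ((N + q - 1 - r) / q) + r := by
      have h3 := Nat.div_add_mod (N + q - 1 - r) q
      have h4 := Nat.mod_lt (N + q - 1 - r) hq
      omega
    have h5 : (N : ℝ) ≤ q * (((N + q - 1 - r) / q : ℕ) : ℝ) + q := by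
      have : N ≤ q * ((N + q - 1 - r) / q) + q := by omega
      exact_mod_cast this
    rw [le_div_iff₀ hN', sub_mul, one_div, inv_mul_cancel₀ hN'.ne']
    rw [sub_le_iff_le_add, inv_mul_le_iff₀ hq']
    linarith
  · filter_upwards [eventually_ge_atTop 1] with N hN
    have hN' : (0 : ℝ) < N := by exact_mod_cast hN
    have h2 : q * ((N + q - 1 - r) / q) ≤ N + q := by
      have h3 := Nat.div_add_mod (N + q - 1 - r) q
      omega
    have h5 : (q : ℝ) * (((N + q - 1 - r) / q : ℕ) : ℝ) ≤ N + q := by exact_mod_cast h2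
    rw [div_le_iff₀ hN', add_mul, one_div, inv_mul_cancel₀ hN'.ne']
    have h6 : (((N + q - 1 - r) / q : ℕ) : ℝ) ≤ (q : ℝ)⁻¹ * (N + q) := by
      rw [← div_eq_inv_mul, le_div_iff₀ hq', mul_comm]
      exact h5
    refine h6.trans (le_of_eq ?_)
    rw [mul_add, inv_mul_cancel₀ hq'.ne']

theorem tendsto_vol_ratio {q : ℕ} (hq : 1 ≤ q) (r : Fin k → ℕ) (hr : ∀ j, r j < q) :
    Tendsto (fun N : Fin k → ℕ => vol (cr q r N) / vol N) atTop (𝓝 (((q : ℝ)⁻¹) ^ k)) := by
  have h1 : ∀ N : Fin k → ℕ, vol (cr q r N) / vol N =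
      ∏ j, ((((N j + q - 1 - r j) / q : ℕ) : ℝ) / N j) := by
    intro N
    unfold vol cr
    rw [Finset.prod_div_distrib]
  simp only [h1]
  have h2 : ((q : ℝ)⁻¹) ^ k = ∏ _j : Fin k, (q : ℝ)⁻¹ := by
    rw [Finset.prod_const, Finset.card_univ, Fintype.card_fin]
  rw [h2]
  refine tendsto_finsetProd _ fun j _ => ?_
  have h3 : Tendsto (fun N : Fin k → ℕ => N j) atTop atTop :=
    tendsto_atTop_atTop.2 fun b => ⟨fun _ => b, fun N hN => hN j⟩
  exact (tendsto_cr_ratio hq (hr j)).comp h3

/-- convergence from the residue classes -/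
theorem conv_of_residues {q : ℕ} (hq : 1 ≤ q) {f : (Fin k → ℕ) → ℂ}
    (h : ∀ r : Fin k → ℕ, (∀ j, r j < q) →
      ∃ L : ℂ, Tendsto (fun N => bxc k N (sub r q f)) atTop (𝓝 L)) :
    ∃ L : ℂ, Tendsto (fun N => bxc k N f) atTop (𝓝 L) := by
  classical
  choose! L hL using h
  refine ⟨∑ r ∈ bxs (fun _ : Fin k => q), ((((q : ℝ)⁻¹) ^ k : ℝ) : ℂ) * L r, ?_⟩
  have h1 : Tendsto (fun N : Fin k → ℕ => ∑ r ∈ bxs (fun _ : Fin k => q),
      ((vol (cr q r N) / vol N : ℝ) : ℂ) * bxc k (cr q r N) (sub r q f)) atTop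
      (𝓝 (∑ r ∈ bxs (fun _ : Fin k => q), ((((q : ℝ)⁻¹) ^ k : ℝ) : ℂ) * L r)) := by
    refine tendsto_finsetSum _ fun r hr => ?_
    rw [mem_bxs] at hr
    refine Tendsto.mul ?_ ((hL r hr).comp (tendsto_cr hq r hr))
    exact (Complex.continuous_ofReal.tendsto _).comp (tendsto_vol_ratio hq r hr)
  refine h1.congr' ?_
  filter_upwards [eventually_ge_atTop (fun _ : Fin k => q)] with N hN
  have e : bxc k N f = ∑ r ∈ bxs (fun _ : Fin k => q),
      ((vol (cr q r N) / vol N : ℝ) : ℂ) * bxc k (cr q r N) (sub r q f) := by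
    rw [bxc_eq N f, sum_residues hq, Finset.mul_sum]
    refine Finset.sum_congr rfl fun r hr => ?_
    rw [mem_bxs] at hr
    have hc : ∀ j, 1 ≤ cr q r N j := by
      intro j
      show 1 ≤ (N j + q - 1 - r j) / q
      rw [Nat.le_div_iff_mul_le hq]
      have h2 : q ≤ N j := hN j
      have h3 := hr j
      omega
    have hv : (vol (cr q r N) : ℂ) ≠ 0 := by
      have := (vol_pos hc).ne'
      exact_mod_cast this
    rw [bxc_eq]
    push_cast
    field_simp
  exact e.symm

end Pool.Agent.TH784.AA
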