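import Pool.Agent.TH784.AA.Core

/-!
# Zeros of multi-parameter recurrence sequences in boxes
-/

set_option autoImplicit false

open Polynomial

noncomputable section

namespace Pool.Agent.TH784.AA

/-- boxes -/
def bxs {k : ℕ} (N : Fin k → ℕ) : Finset (Fin k → ℕ) :=
  Fintype.piFinset fun j => Finset.range (N j)

theorem mem_bxs {k : ℕ} {N n : Fin k → ℕ} : n ∈ bxs N ↔ ∀ j, n j < N j := by
  unfold bxs
  rw [Fintype.mem_piFinset]
  exact forall_congr' fun j => Finset.mem_range

open Classical in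
/-- number of points of a box with a property -/
def cnt {k : ℕ} (N : Fin k → ℕ) (P : (Fin k → ℕ) → Prop) : ℝ := (((bxs N).filter P).card : ℝ)

/-- volume of a box -/
def vol {k : ℕ} (N : Fin k → ℕ) : ℝ := ∏ j, (N j : ℝ)

theorem vol_nonneg {k : ℕ} (N : Fin k → ℕ) : 0 ≤ vol N :=
  Finset.prod_nonneg fun _ _ => by positivity

theorem vol_pos {k : ℕ} {N : Fin k → ℕ} (h : ∀ j, 1 ≤ N j) : 0 < vol N :=
  Finset.prod_pos fun j _ => by exact_mod_cast h j

theorem card_bxs {k : ℕ} (N : Fin k → ℕ) : ((bxs N).card : ℝ) = vol N := by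
  unfold bxs vol
  rw [Fintype.card_piFinset]
  push_cast
  simp

theorem cnt_nonneg {k : ℕ} (N : Fin k → ℕ) (P : (Fin k → ℕ) → Prop) : 0 ≤ cnt N P := by
  unfold cnt
  positivity

theorem cnt_mono {k : ℕ} {N : Fin k → ℕ} {P Q : (Fin k → ℕ) → Prop} (h : ∀ n, P n → Q n) :
    cnt N P ≤ cnt N Q := by
  classical
  unfold cnt
  exact_mod_cast Finset.card_le_card (Finset.monotone_filter_right _ (fun n _ hn => h n hn))

theorem cnt_le_vol {k : ℕ} (N : Fin k → ℕ) (P : (Fin k → ℕ) → Prop) : cnt N P ≤ vol N := by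
  classical
  rw [← card_bxs]
  unfold cnt
  exact_mod_cast Finset.card_filter_le _ _

theorem cnt_eq_sum {k : ℕ} (N : Fin k → ℕ) (P : (Fin k → ℕ) → Prop) [DecidablePred P] :
    cnt N P = ∑ n ∈ bxs N, (if P n then (1 : ℝ) else 0) := by
  classical
  unfold cnt
  rw [Finset.card_filter]
  push_cast
  refine Finset.sum_congr rfl fun n _ => ?_
  congr

theorem sum_fiber {k : ℕ} (N : Fin k → ℕ) (l : Fin k) (φ : (Fin k → ℕ) → ℝ) :
    ∑ n ∈ bxs N, ∑ t ∈ Finset.range (N l), φ (Function.update n l t) =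
      N l * ∑ n ∈ bxs N, φ n := by
  classical
  have h1 : (N l : ℝ) * ∑ n ∈ bxs N, φ n = ∑ p ∈ bxs N ×ˢ Finset.range (N l), φ p.1 := by
    rw [Finset.sum_product, Finset.mul_sum]
    refine Finset.sum_congr rfl fun n _ => ?_
    show _ = ∑ y ∈ Finset.range (N l), φ n
    rw [Finset.sum_const, Finset.card_range, nsmul_eq_mul]
  rw [h1, ← Finset.sum_product (s := bxs N) (t := Finset.range (N l))
    (f := fun p => φ (Function.update p.1 l p.2))]
  refine Finset.sum_nbij' (fun p => (Function.update p.1 l p.2, p.1 l))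
    (fun p => (Function.update p.1 l p.2, p.1 l)) ?_ ?_ ?_ ?_ ?_
  · intro p hp
    rw [Finset.mem_product, mem_bxs, Finset.mem_range] at hp
    rw [Finset.mem_product, mem_bxs, Finset.mem_range]
    refine ⟨fun j => ?_, hp.1 l⟩
    show Function.update p.1 l p.2 j < N j
    by_cases hj : j = l
    · subst hj
      rw [Function.update_self]
      exact hp.2
    · rw [Function.update_of_ne hj]
      exact hp.1 j
  · intro p hp
    rw [Finset.mem_product, mem_bxs, Finset.mem_range] at hp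
    rw [Finset.mem_product, mem_bxs, Finset.mem_range]
    refine ⟨fun j => ?_, hp.1 l⟩
    show Function.update p.1 l p.2 j < N j
    by_cases hj : j = l
    · subst hj
      rw [Function.update_self]
      exact hp.2
    · rw [Function.update_of_ne hj]
      exact hp.1 j
  · intro p _
    ext
    · simp
    · simp
  · intro p _
    ext
    · simp
    · simp
  · intro p _
    rfl

theorem sum_cons {k : ℕ} (N : Fin (k + 1) → ℕ) (φ : (Fin (k + 1) → ℕ) → ℝ) :
    ∑ n ∈ bxs N, φ n =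
      ∑ m ∈ bxs (Fin.tail N), ∑ t ∈ Finset.range (N 0), φ (Fin.cons t m) := by
  have h1 : ∑ n ∈ bxs N, φ n =
      ∑ p ∈ Finset.range (N 0) ×ˢ bxs (Fin.tail N), φ (Fin.cons p.1 p.2) := by
    refine Finset.sum_bij' (fun m _ => (m 0, Fin.tail m)) (fun p _ => Fin.cons p.1 p.2)
      ?_ ?_ ?_ ?_ ?_
    · intro m hm
      rw [mem_bxs] at hm
      rw [Finset.mem_product, mem_bxs, Finset.mem_range]
      exact ⟨hm 0, fun j => hm j.succ⟩
    · intro p hp
      rw [Finset.mem_product, mem_bxs, Finset.mem_range] at hp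
      rw [mem_bxs]
      intro j
      refine Fin.cases ?_ (fun i => ?_) j
      · exact hp.1
      · exact hp.2 i
    · intro m _
      exact Fin.cons_self_tail m
    · intro p _
      rfl
    · intro m _
      show φ m = φ (Fin.cons (m 0) (Fin.tail m))
      rw [Fin.cons_self_tail]
  rw [h1, Finset.sum_product, Finset.sum_comm]

section

variable {R M : Type*} [CommRing R] [AddCommGroup M] [Module R M]

/-- the exponent -/
def dl (m : ℕ) : ℝ := 1 / 2 ^ m

theorem dl_pos (m : ℕ) : 0 < dl m := by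
  unfold dl
  positivity

theorem core_real (m : ℕ) : ∃ C : ℝ, 0 < C ∧ ∀ Y : Multiset R, Y.card ≤ m → Cond M Y →
    ∀ g : ℕ → M, g ≠ 0 → act (prodM Y) g = 0 → ∀ N : ℕ, 1 ≤ N →
      (zn g N : ℝ) ≤ C * (N * (N : ℝ) ^ (-dl m)) := by
  obtain ⟨C, hC, h⟩ := core (R := R) (M := M) m
  have hC1 : (1 : ℝ) ≤ C := by exact_mod_cast hC
  refine ⟨C, by linarith, fun Y hY hc g hg hP N hN => ?_⟩
  have h1 : (zn g N : ℝ) ^ (2 ^ m) * N ≤ C * (N : ℝ) ^ (2 ^ m) := by
    exact_mod_cast h Y hY hc g hg hP N hN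
  have hN0 : (0 : ℝ) < N := by exact_mod_cast hN
  have h2 : ((N : ℝ) ^ (-dl m)) ^ (2 ^ m) = (N : ℝ)⁻¹ := by
    rw [← Real.rpow_natCast, ← Real.rpow_mul hN0.le, ← Real.rpow_neg_one]
    congr 1
    unfold dl
    push_cast
    field_simp
  refine le_of_pow_le_pow_left₀ (n := 2 ^ m) (by positivity) (by positivity) ?_
  rw [mul_pow, mul_pow, h2]
  have h3 : (zn g N : ℝ) ^ (2 ^ m) ≤ C * ((N : ℝ) ^ (2 ^ m) * (N : ℝ)⁻¹) := by
    rw [← mul_assoc, ← div_eq_mul_inv, le_div_iff₀ hN0]
    exact h1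
  refine h3.trans (mul_le_mul_of_nonneg_right ?_ (by positivity))
  exact le_self_pow₀ hC1 (by positivity)

/-- `f` is annihilated by `P` in the direction `l` -/
def Ann {k : ℕ} (l : Fin k) (P : R[X]) (f : (Fin k → ℕ) → M) : Prop :=
  ∀ n, act P (fun t => f (Function.update n l t)) = 0

/-- zeros are rare -/
theorem zd (m k : ℕ) : ∃ C : ℝ, 0 ≤ C ∧ ∀ Y : Fin k → Multiset R,
    (∀ l, (Y l).card ≤ m ∧ Cond M (Y l)) → ∀ f : (Fin k → ℕ) → M, f ≠ 0 →
    (∀ l, Ann l (prodM (Y l)) f) → ∀ N : Fin k → ℕ, (∀ l, 1 ≤ N l) →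
    cnt N (fun n => f n = 0) ≤ C * (vol N * ∑ l, (N l : ℝ) ^ (-dl m)) := by
  classical
  obtain ⟨C₀, hC₀, hcore⟩ := core_real (R := R) (M := M) m
  induction k with
  | zero =>
    refine ⟨0, le_rfl, fun Y _ f hf _ N _ => ?_⟩
    rw [zero_mul]
    have h1 : ∀ n, f n ≠ 0 := by
      intro n hn
      apply hf
      funext n'
      rw [Subsingleton.elim n' n, hn]
      rfl
    unfold cnt
    rw [Finset.filter_false_of_mem (fun n _ => h1 n), Finset.card_empty, Nat.cast_zero]
  | succ k ih =>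
    obtain ⟨C, hC, ih⟩ := ih
    refine ⟨C₀ + C, by positivity, fun Y hY f hf hA N hN => ?_⟩
    -- a nonzero slice
    obtain ⟨n₀, hn₀⟩ := Function.ne_iff.1 hf
    set f₀ : (Fin k → ℕ) → M := fun m' => f (Fin.cons (n₀ 0) m') with hf₀
    have hf₀ne : f₀ ≠ 0 := by
      intro h
      apply hn₀
      have h1 := congrFun h (Fin.tail n₀)
      simp only [hf₀, Fin.cons_self_tail, Pi.zero_apply] at h1
      rw [h1]
      rfl
    have hA₀ : ∀ l, Ann l (prodM (Y l.succ)) f₀ := by
      intro l n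
      have h1 := hA l.succ (Fin.cons (n₀ 0) n)
      simp only [← Fin.cons_update] at h1
      exact h1
    have h0 := ih (fun l => Y l.succ) (fun l => hY l.succ) f₀ hf₀ne hA₀ (Fin.tail N)
      (fun l => hN l.succ)
    have hfib : ∀ m' : Fin k → ℕ, (∑ t ∈ Finset.range (N 0),
        if f (Fin.cons t m') = 0 then (1 : ℝ) else 0) ≤
        C₀ * (N 0 * (N 0 : ℝ) ^ (-dl m)) + N 0 * (if f₀ m' = 0 then (1 : ℝ) else 0) := by
      intro m'
      have hN0 : (0 : ℝ) ≤ N 0 := by positivity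
      have hpos : 0 ≤ C₀ * (N 0 * (N 0 : ℝ) ^ (-dl m)) := by positivity
      by_cases hg : (fun t => f (Fin.cons t m')) = (0 : ℕ → M)
      · have h1 : f₀ m' = 0 := congrFun hg (n₀ 0)
        rw [if_pos h1]
        have h2 : ∑ t ∈ Finset.range (N 0), (if f (Fin.cons t m') = 0 then (1 : ℝ) else 0) ≤
            ∑ t ∈ Finset.range (N 0), (1 : ℝ) := by
          refine Finset.sum_le_sum fun t _ => ?_
          split_ifs <;> norm_num
        rw [Finset.sum_const, Finset.card_range, nsmul_eq_mul] at h2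
        linarith
      · have h1 := hcore (Y 0) (hY 0).1 (hY 0).2 (fun t => f (Fin.cons t m')) hg (by
          have h2 := hA 0 (Fin.cons 0 m')
          simp only [Fin.update_cons_zero] at h2
          exact h2) (N 0) (hN 0)
        have h3 : ∑ t ∈ Finset.range (N 0), (if f (Fin.cons t m') = 0 then (1 : ℝ) else 0) =
            (zn (fun t => f (Fin.cons t m')) (N 0) : ℝ) := by
          unfold zn
          rw [Finset.card_filter]
          push_cast
          refine Finset.sum_congr rfl fun t _ => ?_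
          congr
        rw [h3]
        have h4 : 0 ≤ (N 0 : ℝ) * (if f₀ m' = 0 then (1 : ℝ) else 0) := by
          split_ifs <;> simp
        linarith
    rw [cnt_eq_sum, sum_cons]
    have hvol : vol N = N 0 * vol (Fin.tail N) := by
      unfold vol
      rw [Fin.prod_univ_succ]
      rfl
    have hsum : ∑ l, (N l : ℝ) ^ (-dl m) =
        (N 0 : ℝ) ^ (-dl m) + ∑ l, (Fin.tail N l : ℝ) ^ (-dl m) := by
      rw [Fin.sum_univ_succ]
      rfl
    calc ∑ m' ∈ bxs (Fin.tail N), ∑ t ∈ Finset.range (N 0),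
          (if f (Fin.cons t m') = 0 then (1 : ℝ) else 0) ≤
        ∑ m' ∈ bxs (Fin.tail N), (C₀ * (N 0 * (N 0 : ℝ) ^ (-dl m)) +
          N 0 * (if f₀ m' = 0 then (1 : ℝ) else 0)) := Finset.sum_le_sum fun m' _ => hfib m'
      _ = vol (Fin.tail N) * (C₀ * (N 0 * (N 0 : ℝ) ^ (-dl m))) +
          N 0 * cnt (Fin.tail N) (fun m' => f₀ m' = 0) := by
          rw [Finset.sum_add_distrib, Finset.sum_const, nsmul_eq_mul, card_bxs, ← Finset.mul_sum,
            ← cnt_eq_sum]
      _ ≤ vol (Fin.tail N) * (C₀ * (N 0 * (N 0 : ℝ) ^ (-dl m))) +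
          N 0 * (C * (vol (Fin.tail N) * ∑ l, (Fin.tail N l : ℝ) ^ (-dl m))) := by
          have : (0 : ℝ) ≤ N 0 := by positivity
          gcongr
      _ ≤ (C₀ + C) * (vol N * ∑ l, (N l : ℝ) ^ (-dl m)) := by
          rw [hvol, hsum]
          have e1 : 0 ≤ C₀ * (N 0 * vol (Fin.tail N) * ∑ l, (Fin.tail N l : ℝ) ^ (-dl m)) := by
            have := vol_nonneg (Fin.tail N)
            positivity
          have e2 : 0 ≤ C * (N 0 * vol (Fin.tail N) * (N 0 : ℝ) ^ (-dl m)) := by
            have := vol_nonneg (Fin.tail N)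
            positivity
          nlinarith

end

end Pool.Agent.TH784.AA
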