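import Pool.Agent.TH784.AA.Chr

/-!
# Convergence for products of affine characters along affine actions
-/

set_option autoImplicit false

open Filter Topology MeasureTheory
open scoped ComplexConjugate

noncomputable section

namespace Pool.Agent.TH784.AA

open Pool.Agent.W742.CU (IsPoly Dv UM Per)
open Pool.Agent.W761.Box (bxc)
open Pool.Agent.H767R2 (ev ev_add ev_zero norm_ev)

variable {k : ℕ} {X : Type*} {A : Type*} [AddCommGroup A] {J : Type*}

theorem pz_nz (n : Fin k → ℕ) (a : Fin k → A) : pz (nz n) a = ∑ l, n l • a l := by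
  unfold pz nz
  exact Finset.sum_congr rfl fun l _ => natCast_zsmul _ _

theorem pz_sub (r n : Fin k → ℕ) (q : ℕ) (a : Fin k → A) :
    pz (nz fun j => r j + q * n j) a = pz (nz n) (fun l => q • a l) + pz (nz r) a := by
  rw [pz_nz, pz_nz, pz_nz, ← Finset.sum_add_distrib]
  refine Finset.sum_congr rfl fun l _ => ?_
  rw [add_smul, mul_comm, mul_smul, add_comm]

theorem pz_smul (n : Fin k → ℤ) (q : ℕ) (a : Fin k → A) :
    pz n (fun l => q • a l) = pz (q • n) a := by
  unfold pz
  refine Finset.sum_congr rfl fun l _ => ?_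
  rw [Pi.smul_apply, smul_assoc, smul_comm]

theorem pz_mix (D : Finset (Fin k)) (n : Fin k → ℤ) (a : Fin k → A) [DecidablePred (· ∈ D)] :
    pz (mix D n 0) a = pz n (fun l => if l ∈ D then a l else 0) := by
  unfold pz mix
  refine Finset.sum_congr rfl fun l _ => ?_
  by_cases hl : l ∈ D
  · simp only [if_pos hl]
  · simp only [if_neg hl, Pi.zero_apply, zero_smul, smul_zero]

section

variable [Fintype J] {Φ : A → Equiv.Perm X}

/-- labels -/
theorem mk_oz (a : J → Fin k → A) (w : J → BB X) (n : Fin k → ℤ) :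
    QuotientAddGroup.mk' (KK X) (oz (fun a => pbk (Φ a : X → X)) Finset.univ a w n) =
      oz (fun a => qbk (Φ a : X → X)) Finset.univ a (fun j => QuotientAddGroup.mk' (KK X) (w j))
        n := by
  unfold oz
  rw [map_sum]
  exact Finset.sum_congr rfl fun j _ => rfl

theorem mk_os (a : J → Fin k → A) (w : J → BB X) (n : Fin k → ℕ) :
    QuotientAddGroup.mk' (KK X) (oz (fun a => pbk (Φ a : X → X)) Finset.univ a w (nz n)) =
      os (fun a => qbk (Φ a : X → X)) a (fun j => QuotientAddGroup.mk' (KK X) (w j)) n := by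
  rw [mk_oz]
  unfold oz os
  refine Finset.sum_congr rfl fun j _ => ?_
  rw [pz_nz]

theorem mk_eq_mk {f g : BB X} (h : QuotientAddGroup.mk' (KK X) f = QuotientAddGroup.mk' (KK X) g) :
    f - g ∈ KK X := by
  have h1 : QuotientAddGroup.mk' (KK X) (f - g) = 0 := by
    rw [map_sub, h, sub_self]
  rwa [QuotientAddGroup.mk'_apply, QuotientAddGroup.eq_zero_iff] at h1

/-- the difference of the orbit sum and its restriction to the coordinates in `D` -/
theorem diff_oz (D : Finset (Fin k)) (Ψ : A → BB X →+ BB X) (a : J → Fin k → A) (w : J → BB X) :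
    ∃ (a' : J ⊕ J → Fin k → A) (w' : J ⊕ J → BB X), ∀ n,
      oz Ψ Finset.univ a' w' n = oz Ψ Finset.univ a w n - oz Ψ Finset.univ a w (mix D n 0) := by
  classical
  refine ⟨Sum.elim a (fun j l => if l ∈ D then a j l else 0), Sum.elim w (fun j => -w j),
    fun n => ?_⟩
  unfold oz
  rw [Fintype.sum_sum_type, sub_eq_add_neg, ← Finset.sum_neg_distrib]
  congr 1
  refine Finset.sum_congr rfl fun j _ => ?_
  rw [pz_mix, ← map_neg]
  rfl

variable [CommGroup X] [TopologicalSpace X] [IsTopologicalGroup X] [CompactSpace X]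
  [MeasurableSpace X] [BorelSpace X] {μ : Measure X} [IsProbabilityMeasure μ]
  [μ.IsMulLeftInvariant]

/-- the function -/
def fb (f : BB X) (x : X) : ℂ := (f.toMul x : Circle)

omit [CommGroup X] [TopologicalSpace X] [IsTopologicalGroup X] [CompactSpace X]
  [MeasurableSpace X] [BorelSpace X] in
theorem norm_fb (f : BB X) (x : X) : ‖fb f x‖ = 1 := Circle.norm_coe _

omit [CommGroup X] [TopologicalSpace X] [IsTopologicalGroup X] [CompactSpace X]
  [MeasurableSpace X] [BorelSpace X] in
theorem fb_add (f g : BB X) (x : X) : fb (f + g) x = fb f x * fb g x := Circle.coe_mul _ _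

omit [IsTopologicalGroup X] [CompactSpace X] in
theorem fb_meas {f : BB X} (h : IsAC f.toMul) : Measurable (fb f) :=
  (continuous_subtype_val.comp h.continuous).measurable

theorem fb_orth {f g : BB X} (hf : IsAC f.toMul) (hg : IsAC g.toMul)
    (h : QuotientAddGroup.mk' (KK X) f ≠ QuotientAddGroup.mk' (KK X) g) :
    ∫ x, fb f x * conj (fb g x) ∂μ = 0 := by
  refine int_ac hf hg ?_
  rintro ⟨c, hc⟩
  apply h
  rw [← sub_eq_zero, ← map_sub, QuotientAddGroup.mk'_apply, QuotientAddGroup.eq_zero_iff]
  intro x y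
  show f.toMul x / g.toMul x = f.toMul y / g.toMul y
  rw [hc x, hc y, mul_div_cancel_right, mul_div_cancel_right]

/-- **Convergence when the dichotomy holds.** -/
theorem conv_dic (hΦ : ∀ a b, Φ (a + b) = Φ a * Φ b) (hΦ0 : Φ 0 = 1)
    (a : J → Fin k → A) (w : J → BB X)
    (hac : ∀ n, IsAC (oz (fun a => pbk (Φ a : X → X)) Finset.univ a w n).toMul)
    (hdic : ∀ l, Indc l (os (fun a => qbk (Φ a : X → X)) a
        (fun j => QuotientAddGroup.mk' (KK X) (w j))) ∨
      FewB l (os (fun a => qbk (Φ a : X → X)) a (fun j => QuotientAddGroup.mk' (KK X) (w j)))) :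
    ∀ᵐ x ∂μ, ∃ L : ℂ, Tendsto (fun N => bxc k N fun n =>
      fb (oz (fun a => pbk (Φ a : X → X)) Finset.univ a w (nz n)) x) atTop (𝓝 L) := by
  classical
  set F : (Fin k → ℤ) → BB X := oz (fun a => pbk (Φ a : X → X)) Finset.univ a w with hF
  set b : (Fin k → ℕ) → BB X ⧸ KK X := os (fun a => qbk (Φ a : X → X)) a
    (fun j => QuotientAddGroup.mk' (KK X) (w j)) with hb
  have hFb : ∀ n, QuotientAddGroup.mk' (KK X) (F (nz n)) = b n := fun n => mk_os a w n
  have hactB := isAct_pbk hΦ hΦ0
  have hactQ := isAct_qbk hΦ hΦ0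
  set D : Finset (Fin k) := Finset.univ.filter fun l => ¬ Indc l b with hD
  have hDn : ∀ l ∉ D, Indc l b := by
    intro l hl
    by_contra hcon
    exact hl (Finset.mem_filter.2 ⟨Finset.mem_univ _, hcon⟩)
  have hDf : ∀ l ∈ D, FewB l b := fun l hl =>
    (hdic l).resolve_left (Finset.mem_filter.1 hl).2
  -- the difference is constant
  obtain ⟨a', w', hdiff⟩ := diff_oz D (fun a => pbk (Φ a : X → X)) a w
  have hKn : ∀ n, F n - F (mix D n 0) ∈ KK X := by
    intro n
    have h1 : oz (fun a => qbk (Φ a : X → X)) Finset.univ a'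
        (fun j => QuotientAddGroup.mk' (KK X) (w' j)) n = 0 := by
      refine oz_zero hactQ _ _ _ (fun m => ?_) n
      show oz (fun a => qbk (Φ a : X → X)) Finset.univ a'
        (fun j => QuotientAddGroup.mk' (KK X) (w' j)) (nz m) = 0
      rw [← mk_oz, hdiff]
      have e0 : mix D (nz m) (0 : Fin k → ℤ) = nz (mix D m (0 : Fin k → ℕ)) := by
        rw [nz_mix]
        rfl
      rw [map_sub, e0]
      show QuotientAddGroup.mk' (KK X) (F (nz m)) -
        QuotientAddGroup.mk' (KK X) (F (nz (mix D m 0))) = 0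
      rw [hFb, hFb, indc_mix hDn, sub_self]
    rw [← mk_oz, hdiff] at h1
    rwa [QuotientAddGroup.mk'_apply, QuotientAddGroup.eq_zero_iff] at h1
  have hpoly0 := oz_poly hactB (KK X) (fun a f hf => pbk_KK _ hf) Finset.univ a' w' (fun n => by
    rw [hdiff]
    exact hKn n)
  -- the phase
  set θ : (Fin k → ℤ) → UnitAddCircle := fun n =>
    toU (Additive.ofMul ((F n - F (mix D n 0)).toMul 1)) with hθ
  have hpoly : IsPoly (Finset.univ : Finset (J ⊕ J)).card θ := by
    have h1 := hpoly0.map (AddMonoidHom.mk'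
      (fun f : BB X => toU (Additive.ofMul (f.toMul 1))) (fun f g => by
        rw [← map_add]
        rfl))
    have e : θ = fun x => (AddMonoidHom.mk'
      (fun f : BB X => toU (Additive.ofMul (f.toMul 1))) (fun f g => by
        rw [← map_add]
        rfl)) (oz (fun a => pbk (Φ a : X → X)) Finset.univ a' w' x) := by
      funext n
      rw [hdiff]
      rfl
    rw [e]
    exact h1
  have hdec : ∀ n x, fb (F n) x = ev (θ n) * fb (F (mix D n 0)) x := by
    intro n x
    have h1 : ev (θ n) = fb (F n - F (mix D n 0)) x := by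
      rw [hθ]
      simp only
      rw [ev_toU]
      unfold fb
      rw [hKn n x 1]
      rfl
    rw [h1, ← fb_add, sub_add_cancel]
  by_cases hDe : D = ∅
  · -- constant labels
    obtain ⟨c, hc⟩ := um_poly hpoly
    refine Eventually.of_forall fun x => ⟨c * fb (F 0) x, ?_⟩
    have h1 := (conv_of_um hc).mul_const (fb (F 0) x)
    refine h1.congr fun N => ?_
    have e1 : ∀ n : Fin k → ℕ, fb (F (nz n)) x = fb (F 0) x * ev (θ (nz n)) := by
      intro n
      rw [hdec (nz n) x, mul_comm]
      congr 3
      funext l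
      unfold mix
      rw [if_neg (by rw [hDe]; exact Finset.notMem_empty l)]
    simp only [e1]
    rw [Pool.Agent.W761.Box.bxc_mul, mul_comm]
  have hDne : D.Nonempty := Finset.nonempty_iff_ne_empty.2 hDe
  rcases Pool.Agent.W742.CU.dich _ (two D θ) (two_poly D hpoly) with ⟨Q, hQ, hper⟩ | hum
  swap
  · -- nonperiodic phase
    refine Eventually.of_forall fun x => ⟨0, ?_⟩
    have h1 := mix_zero D hum (H := fun n => fb (F (mix D (nz n) 0)) x)
      (fun n => (norm_fb _ _).le) (fun n m => by
        rw [nz_mix, mix_mix])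
    refine h1.congr fun N => ?_
    congr 1
    funext n
    exact (hdec (nz n) x).symm
  -- periodic phase
  have hθ0 : ∀ n, θ (mix D n 0) = 0 := by
    intro n
    rw [hθ]
    simp only
    rw [mix_mix, sub_self]
    exact map_zero toU
  have htwo : ∀ n : Fin k → ℤ, two D θ (Fin.append n 0) = θ n := by
    intro n
    unfold two
    have e1 : (fun l => (Fin.append n (0 : Fin k → ℤ)) (Fin.castAdd k l)) = n := by
      funext l
      rw [Fin.append_left]
    have e2 : (fun l => (Fin.append n (0 : Fin k → ℤ)) (Fin.natAdd k l)) = 0 := by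
      funext l
      rw [Fin.append_right]
    rw [e1, e2, hθ0, sub_zero]
  have hθper : ∀ n v : Fin k → ℤ, θ (n + Q • v) = θ n := by
    intro n v
    rw [← htwo, ← htwo n]
    have e1 : Fin.append (n + Q • v) (0 : Fin k → ℤ) = Fin.append n 0 + Q • Fin.append v 0 := by
      funext j
      refine Fin.addCases (fun l => ?_) (fun l => ?_) j
      · simp only [Fin.append_left, Pi.add_apply, Pi.smul_apply]
      · simp only [Fin.append_right, Pi.add_apply, Pi.smul_apply, Pi.zero_apply, smul_zero,
          add_zero]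
    rw [e1, hper]
  have hres : ∀ᵐ x ∂μ, ∀ r : Fin k → ℕ, (∀ j, r j < Q) → ∃ L : ℂ,
      Tendsto (fun N => bxc k N (sub r Q fun n => fb (F (nz n)) x)) atTop (𝓝 L) := by
    rw [ae_all_iff]
    intro r
    by_cases hr : ∀ j, r j < Q
    swap
    · exact Eventually.of_forall fun x h => absurd h hr
    have hnzr : ∀ n : Fin k → ℕ, nz (fun j => r j + Q * n j) = nz r + Q • nz n := by
      intro n
      funext l
      simp only [nz, Pi.add_apply, Pi.smul_apply]
      push_cast
      ring
    have h1 := ae_zero (μ := μ) D hDne (sub r Q b)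
      (fun n x => fb (F (nz fun j => r j + Q * n j)) x)
      (fun n => fb_meas (hac _)) (fun n x => (norm_fb _ _).le)
      (fun i j hij => fb_orth (hac _) (hac _) (by
        rw [hFb, hFb]
        exact hij))
      (fun l hl n => by
        funext x
        show fb (F (nz _)) x = fb (F (nz _)) x
        rw [hdec, hdec (nz fun j => r j + Q * n j), hnzr, hnzr, hθper, hθper]
        congr 3
        rw [← hnzr, ← hnzr]
        funext l'
        unfold mix
        by_cases hl' : l' ∈ D
        · rw [if_pos hl', if_pos hl']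
          have hne : l' ≠ l := fun e => hl (e ▸ hl')
          simp only [nz]
          rw [Function.update_of_ne hne]
        · rw [if_neg hl', if_neg hl'])
      (fun l hl => (hDf l hl).sub hr)
    filter_upwards [h1] with x hx _
    exact ⟨0, hx⟩
  filter_upwards [hres] with x hx
  exact conv_of_residues hQ hx

/-- **Convergence for affine characters.** -/
theorem conv_ac [AddGroup.FG A] (hΦ : ∀ a b, Φ (a + b) = Φ a * Φ b) (hΦ0 : Φ 0 = 1)
    (a : J → Fin k → A) (w : J → BB X)
    (hac : ∀ n, IsAC (oz (fun a => pbk (Φ a : X → X)) Finset.univ a w n).toMul) :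
    ∀ᵐ x ∂μ, ∃ L : ℂ, Tendsto (fun N => bxc k N fun n =>
      fb (oz (fun a => pbk (Φ a : X → X)) Finset.univ a w (nz n)) x) atTop (𝓝 L) := by
  classical
  have hactB := isAct_pbk hΦ hΦ0
  have hactQ := isAct_qbk hΦ hΦ0
  obtain ⟨q, hq, hdic⟩ := dic_act hactQ a (fun j => QuotientAddGroup.mk' (KK X) (w j))
  have key : ∀ᵐ x ∂μ, ∀ r : Fin k → ℕ, (∀ j, r j < q) → ∃ L : ℂ,
      Tendsto (fun N => bxc k N (sub r q fun n =>
        fb (oz (fun a => pbk (Φ a : X → X)) Finset.univ a w (nz n)) x)) atTop (𝓝 L) := by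
    rw [ae_all_iff]
    intro r
    by_cases hr : ∀ j, r j < q
    swap
    · exact Eventually.of_forall fun x h => absurd h hr
    -- the restricted data
    have e1 : ∀ n : Fin k → ℤ, oz (fun a => pbk (Φ a : X → X)) Finset.univ
        (fun j l => q • a j l) (fun j => pbk (Φ (pz (nz r) (a j)) : X → X) (w j)) n =
        oz (fun a => pbk (Φ a : X → X)) Finset.univ a w (q • n + nz r) := by
      intro n
      unfold oz
      refine Finset.sum_congr rfl fun j _ => ?_
      rw [← hactB.add, pz_smul, ← pz_add]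
    have e2 : ∀ n : Fin k → ℕ, (q • nz n + nz r : Fin k → ℤ) = nz fun j => r j + q * n j := by
      intro n
      funext l
      simp only [nz, Pi.add_apply, Pi.smul_apply]
      push_cast
      ring
    have h1 := conv_dic (μ := μ) hΦ hΦ0 (fun j l => q • a j l)
      (fun j => pbk (Φ (pz (nz r) (a j)) : X → X) (w j)) (fun n => by
        rw [e1]
        exact hac _) (fun l => by
        have e3 : os (fun a => qbk (Φ a : X → X)) (fun j l => q • a j l)
            (fun j => QuotientAddGroup.mk' (KK X) (pbk (Φ (pz (nz r) (a j)) : X → X) (w j))) =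
            sub r q (os (fun a => qbk (Φ a : X → X)) a
              (fun j => QuotientAddGroup.mk' (KK X) (w j))) := by
          funext n
          rw [← mk_os, e1, e2]
          exact mk_os a w _
        rw [e3]
        exact hdic r hr l)
    filter_upwards [h1] with x hx _
    obtain ⟨L, hL⟩ := hx
    refine ⟨L, hL.congr fun N => ?_⟩
    congr 1
    funext n
    rw [e1, e2]
    rfl
  filter_upwards [key] with x hx
  exact conv_of_residues hq hx

end

end Pool.Agent.TH784.AA
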