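import Mathlib

/-!
# Zeros of linear recurrence sequences with values in a module

`act P b`: the polynomial `P` in the shift operator applied to the sequence `b : ℕ → M`. If `b ≠ 0`
is annihilated by a product of factors `X - y` whose roots are either equal or have injective
differences of powers, then `b` has few zeros (with a power saving).
-/

set_option autoImplicit false

open Polynomial

noncomputable section

namespace Pool.Agent.TH784.AA

section

variable {R M : Type*} [CommRing R] [AddCommGroup M] [Module R M]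

/-- the shift operator -/
def sh (R M : Type*) [CommRing R] [AddCommGroup M] [Module R M] : Module.End R (ℕ → M) :=
  LinearMap.funLeft R M (fun n : ℕ => n + 1)

/-- a polynomial in the shift operator -/
def act (P : R[X]) (b : ℕ → M) : ℕ → M := aeval (sh R M) P b

theorem sh_apply (b : ℕ → M) (n : ℕ) : sh R M b n = b (n + 1) := rfl

theorem act_mul (P Q : R[X]) (b : ℕ → M) : act (P * Q) b = act P (act Q b) := by
  unfold act
  rw [map_mul, Module.End.mul_apply]

theorem act_zero (P : R[X]) : act P (0 : ℕ → M) = 0 := by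
  unfold act
  rw [map_zero]

theorem act_add (P : R[X]) (b c : ℕ → M) : act P (b + c) = act P b + act P c := by
  unfold act
  rw [map_add]

theorem act_sub (P : R[X]) (b c : ℕ → M) : act P (b - c) = act P b - act P c := by
  unfold act
  rw [map_sub]

theorem act_sum {ι : Type*} (s : Finset ι) (P : R[X]) (b : ι → ℕ → M) :
    act P (∑ i ∈ s, b i) = ∑ i ∈ s, act P (b i) := by
  unfold act
  rw [map_sum]

theorem act_one (b : ℕ → M) : act (1 : R[X]) b = b := by
  unfold act
  rw [map_one, Module.End.one_apply]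

theorem act_add_left (P Q : R[X]) (b : ℕ → M) : act (P + Q) b = act P b + act Q b := by
  unfold act
  rw [map_add, LinearMap.add_apply]

theorem act_sub_left (P Q : R[X]) (b : ℕ → M) : act (P - Q) b = act P b - act Q b := by
  unfold act
  rw [map_sub, LinearMap.sub_apply]

theorem act_sum_left {ι : Type*} (s : Finset ι) (P : ι → R[X]) (b : ℕ → M) :
    act (∑ i ∈ s, P i) b = ∑ i ∈ s, act (P i) b := by
  unfold act
  rw [map_sum, LinearMap.sum_apply]

theorem act_C (y : R) (b : ℕ → M) : act (C y) b = y • b := by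
  unfold act
  rw [aeval_C, Module.algebraMap_end_apply]

theorem act_X (b : ℕ → M) (n : ℕ) : act (X : R[X]) b n = b (n + 1) := by
  unfold act
  rw [aeval_X]
  rfl

theorem act_X_pow (h : ℕ) (b : ℕ → M) (n : ℕ) : act (X ^ h : R[X]) b n = b (n + h) := by
  induction h generalizing b n with
  | zero => rw [pow_zero, act_one, add_zero]
  | succ h ih =>
    rw [pow_succ, act_mul, ih, act_X]
    congr 1

theorem act_smul (P : R[X]) (y : R) (b : ℕ → M) : act P (y • b) = y • act P b := by
  unfold act
  rw [map_smul]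

/-- eigenvectors -/
theorem act_eigen {y : R} {e : ℕ → M} (he : act (X - C y) e = 0) (P : R[X]) :
    act P e = P.eval y • e := by
  have h1 : X - C y ∣ P - C (P.eval y) := by
    rw [dvd_iff_isRoot]
    simp
  obtain ⟨Q, hQ⟩ := h1
  have h2 : act (P - C (P.eval y)) e = 0 := by
    rw [hQ, mul_comm, act_mul, he, act_zero]
  rw [act_sub_left, act_C] at h2
  exact sub_eq_zero.1 h2

theorem eigen_apply {y : R} {e : ℕ → M} (he : act (X - C y) e = 0) (n : ℕ) :
    e n = y ^ n • e 0 := by
  have h1 := congrFun (act_eigen he (X ^ n)) 0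
  rw [act_X_pow, eval_pow, eval_X, zero_add] at h1
  exact h1

open Classical in
/-- number of zeros before `N` -/
def zn (b : ℕ → M) (N : ℕ) : ℕ := ((Finset.range N).filter (fun t => b t = 0)).card

/-- products of linear factors -/
def prodM (Y : Multiset R) : R[X] := (Y.map (fun y => X - C y)).prod

theorem prodM_erase [DecidableEq R] {Y : Multiset R} {y : R} (hy : y ∈ Y) :
    prodM Y = (X - C y) * prodM (Y.erase y) := by
  unfold prodM
  conv_lhs => rw [← Multiset.cons_erase hy]
  rw [Multiset.map_cons, Multiset.prod_cons]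

/-- the roots are equal or have injective differences of powers -/
structure Cond (M : Type*) [AddCommGroup M] [Module R M] (Y : Multiset R) : Prop where
  diff : ∀ y ∈ Y, ∀ z ∈ Y, y = z ∨ ∀ h : ℕ, 1 ≤ h → ∀ m : M, (y ^ h - z ^ h) • m = 0 → m = 0
  inj : ∀ y ∈ Y, ∀ m : M, y • m = 0 → m = 0
  char : (∀ h : ℕ, 1 ≤ h → ∀ m : M, (h : R) • m = 0 → m = 0) ∨ Y.Nodup

theorem Cond.erase [DecidableEq R] {Y : Multiset R} (h : Cond M Y) (y : R) :
    Cond M (Y.erase y) where
  diff := fun a ha b hb => h.diff a (Multiset.mem_of_mem_erase ha) b (Multiset.mem_of_mem_erase hb)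
  inj := fun a ha => h.inj a (Multiset.mem_of_mem_erase ha)
  char := h.char.imp id (fun h => h.erase y)

theorem pow_inj {y : R} (hy : ∀ m : M, y • m = 0 → m = 0) (n : ℕ) (m : M)
    (h : y ^ n • m = 0) : m = 0 := by
  induction n with
  | zero => rwa [pow_zero, one_smul] at h
  | succ n ih =>
    rw [pow_succ', mul_smul] at h
    exact ih (hy _ h)

/-- counting pairs of zeros -/
theorem pair_count (g : ℕ → M) (y : R) (N K : ℕ)
    (hK : ∀ h, 1 ≤ h → h ≤ N → zn (act (X ^ h - C (y ^ h)) g) N ≤ K) :
    zn g N ^ 2 ≤ zn g N + 2 * N * K := by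
  classical
  set S : Finset ℕ := (Finset.range N).filter (fun t => g t = 0) with hS
  have hSc : zn g N = S.card := by
    unfold zn
    rw [hS]
  have hmem : ∀ t, t ∈ S ↔ t < N ∧ g t = 0 := by
    intro t
    rw [hS, Finset.mem_filter, Finset.mem_range]
  -- pairs at distance `h`
  have hpair : ∀ h, 1 ≤ h → h ≤ N → (S.filter (fun t => t + h ∈ S)).card ≤ K := by
    intro h h1 h2
    refine le_trans ?_ (hK h h1 h2)
    unfold zn
    apply Finset.card_le_card
    intro t ht
    rw [Finset.mem_filter, hmem, hmem] at ht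
    rw [Finset.mem_filter, Finset.mem_range]
    refine ⟨ht.1.1, ?_⟩
    rw [act_sub_left, act_C, Pi.sub_apply, act_X_pow, Pi.smul_apply, ht.2.2, ht.1.2, smul_zero,
      sub_zero]
  have h1 : (S ×ˢ S).card ≤ S.card + 2 * N * K := by
    have e1 : S ×ˢ S = (S ×ˢ S).filter (fun p => p.1 = p.2) ∪
        ((Finset.range N).biUnion (fun h => (S.filter (fun t => t + (h + 1) ∈ S)).image
          (fun t => (t, t + (h + 1)))) ∪
        (Finset.range N).biUnion (fun h => (S.filter (fun t => t + (h + 1) ∈ S)).image
          (fun t => (t + (h + 1), t)))) := by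
      ext ⟨a, b⟩
      simp only [Finset.mem_product, Finset.mem_union, Finset.mem_filter, Finset.mem_biUnion,
        Finset.mem_range, Finset.mem_image, Prod.mk.injEq]
      constructor
      · rintro ⟨ha, hb⟩
        have ha' := (hmem a).1 ha
        have hb' := (hmem b).1 hb
        rcases lt_trichotomy a b with h | h | h
        · right; left
          refine ⟨b - a - 1, by omega, a, ⟨ha, ?_⟩, rfl, by omega⟩
          rwa [show a + (b - a - 1 + 1) = b by omega]
        · left
          exact ⟨⟨ha, hb⟩, h⟩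
        · right; right
          refine ⟨a - b - 1, by omega, b, ⟨hb, ?_⟩, by omega, rfl⟩
          rwa [show b + (a - b - 1 + 1) = a by omega]
      · rintro (⟨h, -⟩ | ⟨h, -, t, ⟨h2, h3⟩, rfl, rfl⟩ | ⟨h, -, t, ⟨h2, h3⟩, rfl, rfl⟩)
        · exact h
        · exact ⟨h2, h3⟩
        · exact ⟨h3, h2⟩
    rw [e1]
    refine (Finset.card_union_le _ _).trans ?_
    have h2 : ((S ×ˢ S).filter (fun p => p.1 = p.2)).card ≤ S.card := by
      refine Finset.card_le_card_of_injOn (fun p => p.1) ?_ ?_
      · intro p hp
        rw [Finset.mem_coe, Finset.mem_filter, Finset.mem_product] at hp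
        exact hp.1.1
      · intro p hp p' hp' e
        rw [Finset.mem_coe, Finset.mem_filter] at hp hp'
        have e' : p.1 = p'.1 := e
        ext
        · exact e'
        · rw [← hp.2, ← hp'.2, e']
    have h3 : ∀ f : ℕ → ℕ → ℕ × ℕ, ((Finset.range N).biUnion (fun h =>
        (S.filter (fun t => t + (h + 1) ∈ S)).image (f h))).card ≤ N * K := by
      intro f
      refine Finset.card_biUnion_le.trans ?_
      refine (Finset.sum_le_card_nsmul _ _ K fun h hh => ?_).trans ?_
      · rw [Finset.mem_range] at hh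
        exact Finset.card_image_le.trans (hpair (h + 1) (by omega) (by omega))
      · rw [Finset.card_range, smul_eq_mul]
    have h4 := h3 (fun h t => (t, t + (h + 1)))
    have h5 := h3 (fun h t => (t + (h + 1), t))
    have h6 := Finset.card_union_le ((Finset.range N).biUnion (fun h =>
        (S.filter (fun t => t + (h + 1) ∈ S)).image (fun t => (t, t + (h + 1)))))
      ((Finset.range N).biUnion (fun h => (S.filter (fun t => t + (h + 1) ∈ S)).image
          (fun t => (t + (h + 1), t))))
    have e2 : 2 * N * K = N * K + N * K := by ring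
    omega
  rw [hSc, sq, ← Finset.card_product]
  exact h1

theorem core (m : ℕ) : ∃ C : ℕ, 1 ≤ C ∧ ∀ Y : Multiset R, Y.card ≤ m → Cond M Y →
    ∀ g : ℕ → M, g ≠ 0 → act (prodM Y) g = 0 → ∀ N, 1 ≤ N →
      zn g N ^ (2 ^ m) * N ≤ C * N ^ (2 ^ m) := by
  classical
  induction m with
  | zero =>
    refine ⟨1, le_rfl, fun Y hY _ g hg h => ?_⟩
    exfalso
    have : Y = 0 := by
      rw [← Multiset.card_eq_zero]
      omega
    rw [this, prodM, Multiset.map_zero, Multiset.prod_zero, act_one] at h
    exact hg h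
  | succ m ih =>
    obtain ⟨C, hC, ih⟩ := ih
    refine ⟨4 ^ (2 ^ m) * C ^ 2, Nat.one_le_iff_ne_zero.2 (by positivity), ?_⟩
    intro Y hY hc g hg hP N hN
    have hpw : ∀ a : ℕ, a ^ (2 ^ (m + 1)) = (a ^ (2 ^ m)) ^ 2 := by
      intro a
      rw [← pow_mul, pow_succ]
    have h4 : 1 ≤ 4 ^ (2 ^ m) := Nat.one_le_pow _ _ (by norm_num)
    have hNp : 1 ≤ N ^ (2 ^ m) := Nat.one_le_pow _ _ hN
    have hbase : N ≤ N ^ (2 ^ m) := by
      conv_lhs => rw [← pow_one N]
      exact Nat.pow_le_pow_right hN (Nat.one_le_two_pow)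
    by_cases hA : ∃ y ∈ Y, act (prodM (Y.erase y)) g = 0
    · obtain ⟨y, hy, hA⟩ := hA
      have h1 := ih (Y.erase y) (by
        have := Multiset.card_erase_lt_of_mem hy
        omega) (hc.erase y) g hg hA N hN
      rw [hpw, hpw]
      calc (zn g N ^ 2 ^ m) ^ 2 * N ≤ (zn g N ^ 2 ^ m) ^ 2 * N ^ 2 :=
            Nat.mul_le_mul_left _ (by nlinarith)
        _ = (zn g N ^ 2 ^ m * N) ^ 2 := by ring
        _ ≤ (C * N ^ 2 ^ m) ^ 2 := Nat.pow_le_pow_left h1 2
        _ = 1 * C ^ 2 * (N ^ 2 ^ m) ^ 2 := by ring
        _ ≤ 4 ^ (2 ^ m) * C ^ 2 * (N ^ 2 ^ m) ^ 2 :=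
            Nat.mul_le_mul_right _ (Nat.mul_le_mul_right _ h4)
    · push Not at hA
      have hY0 : Y ≠ 0 := by
        rintro rfl
        rw [prodM, Multiset.map_zero, Multiset.prod_zero, act_one] at hP
        exact hg hP
      obtain ⟨y, hy⟩ := Multiset.exists_mem_of_ne_zero hY0
      by_cases hY1 : Y.erase y = 0
      · -- a single eigenvalue
        rw [prodM_erase hy, hY1, prodM, Multiset.map_zero, Multiset.prod_zero, mul_one] at hP
        have h0 : g 0 ≠ 0 := by
          intro h0
          apply hg
          funext n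
          rw [eigen_apply hP n, h0, smul_zero]
          rfl
        have hz : zn g N = 0 := by
          unfold zn
          rw [Finset.card_eq_zero, Finset.filter_eq_empty_iff]
          intro t _ ht
          rw [eigen_apply hP t] at ht
          exact h0 (pow_inj (hc.inj y hy) t _ ht)
        rw [hz, zero_pow (by positivity), zero_mul]
        exact Nat.zero_le _
      · obtain ⟨y₁, hy₁⟩ := Multiset.exists_mem_of_ne_zero hY1
        have hy₁Y : y₁ ∈ Y := Multiset.mem_of_mem_erase hy₁
        set e := act (prodM (Y.erase y₁)) g with he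
        have he0 : e ≠ 0 := hA y₁ hy₁Y
        have hee : act (X - Polynomial.C y₁) e = 0 := by
          rw [he, ← act_mul, ← prodM_erase hy₁Y, hP]
        have hQ : ∀ h : ℕ, (X ^ h - Polynomial.C (y ^ h) : R[X]) =
            (∑ i ∈ Finset.range h, X ^ i * (Polynomial.C y) ^ (h - 1 - i)) *
              (X - Polynomial.C y) := by
          intro h
          rw [geom_sum₂_mul, C_pow]
        -- the new sequences
        have hann : ∀ h : ℕ, act (prodM (Y.erase y)) (act (X ^ h - Polynomial.C (y ^ h)) g) = 0 := by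
          intro h
          rw [hQ, ← act_mul, show prodM (Y.erase y) *
            ((∑ i ∈ Finset.range h, X ^ i * (Polynomial.C y) ^ (h - 1 - i)) *
              (X - Polynomial.C y)) =
            (∑ i ∈ Finset.range h, X ^ i * (Polynomial.C y) ^ (h - 1 - i)) *
              ((X - Polynomial.C y) * prodM (Y.erase y)) by ring, ← prodM_erase hy, act_mul, hP,
            act_zero]
        have hne : ∀ h : ℕ, 1 ≤ h → act (X ^ h - Polynomial.C (y ^ h)) g ≠ 0 := by
          intro h hh h0
          by_cases hyy : y₁ = y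
          · subst hyy
            have hnd : ¬ Y.Nodup := by
              intro hnd
              exact (Multiset.Nodup.mem_erase_iff hnd).1 hy₁ |>.1 rfl
            have hchar := hc.char.resolve_right hnd
            have h1 : act (prodM ((Y.erase y₁).erase y₁)) (act (X ^ h - Polynomial.C (y₁ ^ h)) g)
                = 0 := by rw [h0, act_zero]
            rw [hQ, ← act_mul, show prodM ((Y.erase y₁).erase y₁) *
              ((∑ i ∈ Finset.range h, X ^ i * (Polynomial.C y₁) ^ (h - 1 - i)) *
                (X - Polynomial.C y₁)) =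
              (∑ i ∈ Finset.range h, X ^ i * (Polynomial.C y₁) ^ (h - 1 - i)) *
                ((X - Polynomial.C y₁) * prodM ((Y.erase y₁).erase y₁)) by ring,
              ← prodM_erase hy₁, act_mul, ← he, act_eigen hee] at h1
            have h2 : (∑ i ∈ Finset.range h, X ^ i * (Polynomial.C y₁) ^ (h - 1 - i) : R[X]).eval y₁
                = (h : R) * y₁ ^ (h - 1) := by
              rw [eval_finsetSum]
              rw [← geom_sum₂_self]
              refine Finset.sum_congr rfl fun i _ => ?_
              rw [eval_mul, eval_pow, eval_pow, eval_X, eval_C]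
            rw [h2] at h1
            apply he0
            funext n
            have h3 := congrFun h1 n
            rw [Pi.smul_apply, Pi.zero_apply, mul_smul] at h3
            exact pow_inj (hc.inj y₁ hy₁Y) _ _ (hchar h hh _ h3)
          · have h1 : act (prodM (Y.erase y₁)) (act (X ^ h - Polynomial.C (y ^ h)) g) = 0 := by
              rw [h0, act_zero]
            rw [← act_mul, mul_comm, act_mul, ← he, act_eigen hee] at h1
            apply he0
            funext n
            have h3 := congrFun h1 n
            rw [Pi.smul_apply, Pi.zero_apply, eval_sub, eval_pow, eval_X, eval_C] at h3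
            exact (hc.diff y₁ hy₁Y y hy).resolve_left hyy h hh _ h3
        have hcard : (Y.erase y).card ≤ m := by
          have := Multiset.card_erase_lt_of_mem hy
          omega
        -- the maximum
        obtain ⟨h₀, hh₀, hsup⟩ := Finset.exists_mem_eq_sup (Finset.Icc 1 N)
          ⟨1, Finset.mem_Icc.2 ⟨le_rfl, hN⟩⟩
          (fun h => zn (act (X ^ h - Polynomial.C (y ^ h)) g) N)
        set K := (Finset.Icc 1 N).sup (fun h => zn (act (X ^ h - Polynomial.C (y ^ h)) g) N) with hK
        have hKb : K ^ (2 ^ m) * N ≤ C * N ^ (2 ^ m) := by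
          rw [hsup]
          exact ih (Y.erase y) hcard (hc.erase y) _ (hne h₀ (Finset.mem_Icc.1 hh₀).1) (hann h₀)
            N hN
        have hpc := pair_count g y N K (fun h h1 h2 =>
          Finset.le_sup (f := fun h => zn (act (X ^ h - Polynomial.C (y ^ h)) g) N)
            (Finset.mem_Icc.2 ⟨h1, h2⟩))
        rw [hpw, hpw]
        rcases Nat.lt_or_ge (zn g N) 2 with hz | hz
        · have h1 : (zn g N ^ 2 ^ m) ^ 2 ≤ 1 := by
            have h5 : zn g N ^ 2 ^ m ≤ 1 ^ 2 ^ m := Nat.pow_le_pow_left (by omega) _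
            rw [one_pow] at h5
            calc (zn g N ^ 2 ^ m) ^ 2 ≤ 1 ^ 2 := Nat.pow_le_pow_left h5 2
              _ = 1 := one_pow 2
          have h2 : 1 ≤ 4 ^ (2 ^ m) * C ^ 2 := Nat.one_le_iff_ne_zero.2 (by positivity)
          calc (zn g N ^ 2 ^ m) ^ 2 * N ≤ 1 * N ^ 2 ^ m := Nat.mul_le_mul h1 hbase
            _ ≤ 4 ^ (2 ^ m) * C ^ 2 * (N ^ 2 ^ m) ^ 2 := Nat.mul_le_mul h2 (by nlinarith)
        · have h1 : zn g N ^ 2 ≤ 4 * N * K := by nlinarith
          calc (zn g N ^ 2 ^ m) ^ 2 * N = (zn g N ^ 2) ^ 2 ^ m * N := by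
                rw [← pow_mul, ← pow_mul, mul_comm 2]
            _ ≤ (4 * N * K) ^ 2 ^ m * N := Nat.mul_le_mul_right _ (Nat.pow_le_pow_left h1 _)
            _ = 4 ^ 2 ^ m * N ^ 2 ^ m * (K ^ 2 ^ m * N) := by rw [mul_pow, mul_pow]; ring
            _ ≤ 4 ^ 2 ^ m * N ^ 2 ^ m * (C * N ^ 2 ^ m) := Nat.mul_le_mul_left _ hKb
            _ = 4 ^ 2 ^ m * C * (N ^ 2 ^ m) ^ 2 := by ring
            _ ≤ 4 ^ (2 ^ m) * C ^ 2 * (N ^ 2 ^ m) ^ 2 :=
                Nat.mul_le_mul_right _ (Nat.mul_le_mul_left _ (by nlinarith))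

end

end Pool.Agent.TH784.AA
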