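import Pool.Agent.TH784.AA.ConvA
import Pool.Agent.Helper472.Lat_Chars
import Pool.Agent.W761.Box.Main

/-!
# Density of trigonometric polynomials; bounded measurable functions
-/

set_option autoImplicit false
set_option linter.unusedSectionVars false

open Filter Topology MeasureTheory
open scoped ComplexConjugate ENNReal

noncomputable section

namespace Pool.Agent.TH784.AA

open Pool.Agent.W761.Box (bxc BM Cv Good1 Cv_add Cv_smul Cv_zero Cv_closed good1)

universe u

section tp

variable {X : Type u} [CommGroup X] [TopologicalSpace X]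

/-- trigonometric polynomials -/
def TP (X : Type u) [CommGroup X] [TopologicalSpace X] : Submodule ℂ (X → ℂ) :=
  Submodule.span ℂ {f | ∃ χ : X →ₜ* Circle, f = fun x => (χ x : ℂ)}

theorem chi_mem (χ : X →ₜ* Circle) : (fun x => (χ x : ℂ)) ∈ TP X :=
  Submodule.subset_span ⟨χ, rfl⟩

theorem TP_one : (fun _ : X => (1 : ℂ)) ∈ TP X := by
  have h := chi_mem (1 : X →ₜ* Circle)
  have e : (fun x => ((1 : X →ₜ* Circle) x : ℂ)) = fun _ : X => (1 : ℂ) := by
    funext x
    show ((1 : Circle) : ℂ) = 1
    exact Circle.coe_one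
  rwa [e] at h

theorem TP_mul {f g : X → ℂ} (hf : f ∈ TP X) (hg : g ∈ TP X) : f * g ∈ TP X := by
  refine Submodule.span_induction (p := fun f _ => f * g ∈ TP X) ?_ ?_ ?_ ?_ hf
  · rintro _ ⟨χ, rfl⟩
    refine Submodule.span_induction (p := fun g _ => (fun x => (χ x : ℂ)) * g ∈ TP X)
      ?_ ?_ ?_ ?_ hg
    · rintro _ ⟨χ', rfl⟩
      have h := chi_mem (χ * χ')
      have e : (fun x => (χ x : ℂ)) * (fun x => (χ' x : ℂ)) = fun x => ((χ * χ') x : ℂ) := by
        funext x
        show (χ x : ℂ) * (χ' x : ℂ) = ((χ x * χ' x : Circle) : ℂ)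
        exact (Circle.coe_mul _ _).symm
      rw [e]
      exact h
    · rw [mul_zero]
      exact Submodule.zero_mem _
    · intro a b _ _ ha hb
      rw [mul_add]
      exact Submodule.add_mem _ ha hb
    · intro c a _ ha
      rw [mul_smul_comm]
      exact Submodule.smul_mem _ _ ha
  · rw [zero_mul]
    exact Submodule.zero_mem _
  · intro a b _ _ ha hb
    rw [add_mul]
    exact Submodule.add_mem _ ha hb
  · intro c a _ ha
    rw [smul_mul_assoc]
    exact Submodule.smul_mem _ _ ha

theorem TP_conj {f : X → ℂ} (hf : f ∈ TP X) : (fun x => conj (f x)) ∈ TP X := by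
  refine Submodule.span_induction (p := fun f _ => (fun x => conj (f x)) ∈ TP X) ?_ ?_ ?_ ?_ hf
  · rintro _ ⟨χ, rfl⟩
    have h := chi_mem (χ⁻¹)
    have e : (fun x => conj (χ x : ℂ)) = fun x => ((χ⁻¹) x : ℂ) := by
      funext x
      show conj (χ x : ℂ) = (((χ x)⁻¹ : Circle) : ℂ)
      exact (Circle.coe_inv_eq_conj _).symm
    rw [e]
    exact h
  · simp only [Pi.zero_apply, map_zero]
    exact Submodule.zero_mem _
  · intro a b _ _ ha hb
    simp only [Pi.add_apply, map_add]
    exact Submodule.add_mem _ ha hb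
  · intro c a _ ha
    simp only [Pi.smul_apply, smul_eq_mul, map_mul]
    exact Submodule.smul_mem _ (conj c) ha

variable [IsTopologicalGroup X] [CompactSpace X] [T2Space X]

/-- the star subalgebra of trigonometric polynomials -/
def TPA (X : Type u) [CommGroup X] [TopologicalSpace X] : StarSubalgebra ℂ C(X, ℂ) where
  carrier := {f | (f : X → ℂ) ∈ TP X}
  mul_mem' := fun {f g} hf hg => TP_mul hf hg
  add_mem' := fun {f g} hf hg => by
    have h1 : (f : X → ℂ) ∈ TP X := hf
    have h2 : (g : X → ℂ) ∈ TP X := hg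
    exact (TP X).add_mem h1 h2
  algebraMap_mem' := fun c => by
    show (fun _ : X => c) ∈ TP X
    have h := Submodule.smul_mem _ c (TP_one (X := X))
    have e : c • (fun _ : X => (1 : ℂ)) = fun _ => c := by
      funext x
      simp
    rwa [e] at h
  star_mem' := fun {f} hf => TP_conj hf

omit [IsTopologicalGroup X] [CompactSpace X] [T2Space X] in
theorem mem_TPA {f : C(X, ℂ)} : f ∈ TPA X ↔ (f : X → ℂ) ∈ TP X := Iff.rfl

theorem TPA_top : (TPA X).topologicalClosure = ⊤ := by
  apply ContinuousMap.starSubalgebra_topologicalClosure_eq_top_of_separatesPoints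
  intro x y hxy
  obtain ⟨χ, hχ⟩ := Pool.LatH472.chars (x * y⁻¹) (fun h => hxy (mul_inv_eq_one.1 h))
  refine ⟨fun x => (χ x : ℂ), ⟨⟨fun x => (χ x : ℂ),
    continuous_subtype_val.comp χ.continuous_toFun⟩, mem_TPA.2 (chi_mem χ), rfl⟩, ?_⟩
  intro h
  apply hχ
  have h1 : χ x = χ y := Circle.ext h
  rw [map_mul, map_inv, h1, mul_inv_cancel]

theorem TP_dense (f : C(X, ℂ)) {ε : ℝ} (hε : 0 < ε) :
    ∃ g : X → ℂ, g ∈ TP X ∧ Continuous g ∧ ∀ x, ‖f x - g x‖ ≤ ε := by
  have h1 : f ∈ (TPA X).topologicalClosure := by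
    rw [TPA_top]
    exact StarSubalgebra.mem_top
  have h2 : f ∈ closure ((TPA X : StarSubalgebra ℂ C(X, ℂ)) : Set C(X, ℂ)) := h1
  obtain ⟨g, hg, hfg⟩ := Metric.mem_closure_iff.1 h2 ε hε
  refine ⟨g, mem_TPA.1 hg, g.continuous, fun x => ?_⟩
  rw [← dist_eq_norm]
  exact (ContinuousMap.dist_apply_le_dist x).trans hfg.le

theorem BM_of_TP [MeasurableSpace X] [BorelSpace X] {f : X → ℂ} (hf : f ∈ TP X) : BM f := by
  refine Submodule.span_induction (p := fun f _ => BM f) ?_ ?_ ?_ ?_ hf
  · rintro _ ⟨χ, rfl⟩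
    exact ⟨(continuous_subtype_val.comp χ.continuous_toFun).measurable, 1,
      fun x => (Circle.norm_coe _).le⟩
  · exact ⟨measurable_const, 0, fun x => by simp⟩
  · rintro g₁ g₂ _ _ ⟨m₁, C₁, b₁⟩ ⟨m₂, C₂, b₂⟩
    exact ⟨m₁.add m₂, C₁ + C₂, fun x => (norm_add_le _ _).trans (add_le_add (b₁ x) (b₂ x))⟩
  · rintro c g₁ _ ⟨m₁, C₁, b₁⟩
    refine ⟨m₁.const_smul c, ‖c‖ * C₁, fun x => ?_⟩
    rw [Pi.smul_apply, norm_smul]
    exact mul_le_mul_of_nonneg_left (b₁ x) (norm_nonneg _)

theorem TP_dense_L1 [MeasurableSpace X] [BorelSpace X] {μ : Measure X} [μ.IsHaarMeasure]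
    [IsProbabilityMeasure μ] {F : X → ℂ} (hF : BM F) {ε : ℝ} (hε : 0 < ε) :
    ∃ g ∈ TP X, ∫ x, ‖F x - g x‖ ∂μ ≤ ε := by
  obtain ⟨hm, C, hC⟩ := hF
  have hint : Integrable F μ := Integrable.of_bound hm.aestronglyMeasurable C
    (Eventually.of_forall hC)
  have hreg : μ.Regular := inferInstance
  obtain ⟨g, hg, hgi⟩ := hint.exists_boundedContinuous_integral_sub_le (half_pos hε)
  obtain ⟨p, hp, hpc, hgp⟩ := TP_dense g.toContinuousMap (half_pos hε)
  refine ⟨p, hp, ?_⟩
  have hpi : Integrable p μ := by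
    obtain ⟨h1, C', h2⟩ := BM_of_TP hp
    exact Integrable.of_bound h1.aestronglyMeasurable C' (Eventually.of_forall h2)
  have h3 : ∫ x, ‖g x - p x‖ ∂μ ≤ ε / 2 := by
    calc ∫ x, ‖g x - p x‖ ∂μ ≤ ∫ _x, ε / 2 ∂μ := by
          apply integral_mono (hgi.sub hpi).norm (integrable_const _)
          intro x
          exact hgp x
      _ = ε / 2 := by simp
  calc ∫ x, ‖F x - p x‖ ∂μ ≤ ∫ x, (‖F x - g x‖ + ‖g x - p x‖) ∂μ := by
        apply integral_mono (hint.sub hpi).norm ((hint.sub hgi).norm.add (hgi.sub hpi).norm)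
        intro x
        show ‖F x - p x‖ ≤ ‖F x - g x‖ + ‖g x - p x‖
        have e : F x - p x = (F x - g x) + (g x - p x) := by ring
        rw [e]
        exact norm_add_le _ _
    _ = ∫ x, ‖F x - g x‖ ∂μ + ∫ x, ‖g x - p x‖ ∂μ :=
        integral_add (hint.sub hgi).norm (hgi.sub hpi).norm
    _ ≤ ε / 2 + ε / 2 := add_le_add hg h3
    _ = ε := add_halves ε

end tp

section main

variable {X : Type u} [CommGroup X] [TopologicalSpace X] [IsTopologicalGroup X] [CompactSpace X]
  [T2Space X] [MeasurableSpace X] [BorelSpace X] {μ : Measure X} [μ.IsHaarMeasure]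
  [IsProbabilityMeasure μ]

omit [T2Space X] in
/-- affine bijections preserve the Haar measure -/
theorem IsAff.mp {φ : Equiv.Perm X} (h : IsAff (φ : X → X)) :
    MeasurePreserving (φ : X → X) μ μ := by
  obtain ⟨α, c, h1⟩ := h
  have hsurj : Function.Surjective (α : X → X) := by
    intro y
    obtain ⟨x, hx⟩ := φ.surjective (y * c)
    refine ⟨x, ?_⟩
    rw [h1] at hx
    exact mul_right_cancel hx
  have h2 : MeasurePreserving (α : X → X) μ μ :=
    MonoidHom.measurePreserving (f := (α : X →* X)) α.continuous_toFun hsurj rfl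
  have h3 : MeasurePreserving (fun x : X => x * c) μ μ := measurePreserving_mul_right μ c
  have e : (φ : X → X) = (fun x : X => x * c) ∘ (α : X → X) := funext h1
  rw [e]
  exact h3.comp h2

variable {k : ℕ} {J : Type*} [Fintype J] [DecidableEq J] {A : Type*} [AddCommGroup A]
  [AddGroup.FG A] {Φ : A → Equiv.Perm X}

omit [T2Space X] [DecidableEq J] [AddGroup.FG A] in
theorem oz_ac (haff : ∀ a, IsAff (Φ a : X → X)) (s : Finset J) (a : J → Fin k → A)
    (w : J → BB X) (hw : ∀ j, IsAC (w j).toMul) (n : Fin k → ℤ) :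
    IsAC (oz (fun a => pbk (Φ a : X → X)) s a w n).toMul := by
  classical
  unfold oz
  induction s using Finset.induction_on with
  | empty => exact IsAC.one
  | insert i s hi ih =>
    rw [Finset.sum_insert hi]
    exact ((hw i).comp (haff _)).mul ih

omit [T2Space X] [DecidableEq J] in
/-- Convergence for characters. -/
theorem conv_chi (hΦ : ∀ a b, Φ (a + b) = Φ a * Φ b) (hΦ0 : Φ 0 = 1)
    (haff : ∀ a, IsAff (Φ a : X → X)) (c : J → A) (a : J → Fin k → A)
    (χ : J → X →ₜ* Circle) :
    Cv μ (fun j (m : Fin k → ℕ) => (Φ (c j + ∑ l, m l • a j l) : X → X))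
      (fun j x => (χ j x : ℂ)) := by
  classical
  set w : J → BB X := fun j => pbk (Φ (c j) : X → X) (Additive.ofMul fun x => χ j x) with hw
  have hwac : ∀ j, IsAC (w j).toMul := by
    intro j
    have h1 : IsAC (fun x => χ j x) := ⟨χ j, 1, fun x => (one_mul _).symm⟩
    exact h1.comp (haff _)
  have h1 := conv_ac (μ := μ) hΦ hΦ0 a w (oz_ac haff Finset.univ a w hwac)
  filter_upwards [h1] with x hx
  obtain ⟨L, hL⟩ := hx
  refine ⟨L, hL.congr fun N => ?_⟩
  congr 1
  funext m
  have key : ∀ s : Finset J, fb (oz (fun a => pbk (Φ a : X → X)) s a w (nz m)) x =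
      ∏ j ∈ s, (χ j (Φ (c j + ∑ l, m l • a j l) x) : ℂ) := by
    intro s
    induction s using Finset.induction_on with
    | empty =>
      unfold oz
      rw [Finset.sum_empty, Finset.prod_empty]
      exact Circle.coe_one
    | insert i s hi ih =>
      rw [Finset.prod_insert hi, ← ih]
      unfold oz
      rw [Finset.sum_insert hi, fb_add]
      congr 1
      show (((χ i (Φ (c i) (Φ (pz (nz m) (a i)) x))) : Circle) : ℂ) = _
      rw [pz_nz, ← Equiv.Perm.mul_apply, ← hΦ]
  exact key Finset.univ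

/-- **Convergence for bounded measurable functions.** -/
theorem conv_bm (hΦ : ∀ a b, Φ (a + b) = Φ a * Φ b) (hΦ0 : Φ 0 = 1)
    (haff : ∀ a, IsAff (Φ a : X → X)) (c : J → A) (a : J → Fin k → A)
    {F : J → X → ℂ} (hF : ∀ j, BM (F j)) :
    Cv μ (fun j (m : Fin k → ℕ) => (Φ (c j + ∑ l, m l • a j l) : X → X)) F := by
  classical
  set g : J → (Fin k → ℕ) → X → X := fun j m => (Φ (c j + ∑ l, m l • a j l) : X → X) with hg
  have key : ∀ (B : Finset J) (F : J → X → ℂ), (∀ j ∈ B, BM (F j)) →
      (∀ j ∉ B, ∃ χ : X →ₜ* Circle, F j = fun x => (χ x : ℂ)) → Cv μ g F := by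
    intro B
    induction B using Finset.induction_on with
    | empty =>
      intro F _ h2
      choose χ hχ using fun j => h2 j (Finset.notMem_empty j)
      have h3 := conv_chi (μ := μ) hΦ hΦ0 haff c a χ
      have e : F = fun j x => (χ j x : ℂ) := funext hχ
      rw [e]
      exact h3
    | insert j B hj ih =>
      intro F h1 h2
      have hBMall : ∀ l, BM (F l) := by
        intro l
        by_cases hl : l ∈ insert j B
        · exact h1 l hl
        · obtain ⟨χ, e⟩ := h2 l hl
          rw [e]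
          exact BM_of_TP (chi_mem χ)
      have hbmj : BM (F j) := hBMall j
      have hmain : Cv μ g (Function.update F j (F j)) := by
        refine Cv_closed (fun l m => (haff _).mp)
          (fun l => good1 hΦ hΦ0 (fun b => (haff b).mp) _ _) hBMall hbmj ?_
        intro ε hε
        obtain ⟨f', hf', hff'⟩ := TP_dense_L1 (μ := μ) hbmj hε
        refine ⟨f', BM_of_TP hf', hff', ?_⟩
        refine Submodule.span_induction
          (p := fun (f' : X → ℂ) _ => Cv μ g (Function.update F j f')) ?_ ?_ ?_ ?_ hf'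
        · rintro _ ⟨χ, rfl⟩
          apply ih
          · intro l hl
            have hlj : l ≠ j := fun e => hj (e ▸ hl)
            rw [Function.update_of_ne hlj]
            exact h1 l (Finset.mem_insert_of_mem hl)
          · intro l hl
            by_cases hlj : l = j
            · subst hlj
              exact ⟨χ, by rw [Function.update_self]⟩
            · rw [Function.update_of_ne hlj]
              apply h2
              intro hmem'
              rcases Finset.mem_insert.mp hmem' with h5 | h5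
              · exact hlj h5
              · exact hl h5
        · exact Cv_zero
        · rintro g₁ g₂ _ _ c₁ c₂
          exact Cv_add c₁ c₂
        · rintro c g₁ _ c₁
          exact Cv_smul c c₁
      rwa [Function.update_eq_self] at hmain
  exact key Finset.univ F (fun j _ => hF j) fun j hj => absurd (Finset.mem_univ j) hj

end main

end Pool.Agent.TH784.AA
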