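import Pool.Agent.TH784.AA.Grp
import Pool.Agent.W742.CU.Poly

/-!
# Orbit sums on `ℤ ^ k`: vanishing and polynomiality
-/

set_option autoImplicit false

noncomputable section

namespace Pool.Agent.TH784.AA

open Pool.Agent.W742.CU (IsPoly Dv)

variable {A Q : Type*} [AddCommGroup A] [AddCommGroup Q] {Ψ : A → Q →+ Q} {k : ℕ} {J : Type*}

/-- pairing -/
def pz (n : Fin k → ℤ) (a : Fin k → A) : A := ∑ l, n l • a l

theorem pz_add (n m : Fin k → ℤ) (a : Fin k → A) : pz (n + m) a = pz n a + pz m a := by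
  unfold pz
  rw [← Finset.sum_add_distrib]
  exact Finset.sum_congr rfl fun l _ => by rw [Pi.add_apply, add_smul]

theorem pz_zero (a : Fin k → A) : pz 0 a = 0 := by
  unfold pz
  exact Finset.sum_eq_zero fun l _ => by rw [Pi.zero_apply, zero_smul]

/-- orbit sums on `ℤ ^ k` -/
def oz (Ψ : A → Q →+ Q) (s : Finset J) (a : J → Fin k → A) (w : J → Q) (n : Fin k → ℤ) : Q :=
  ∑ j ∈ s, Ψ (pz n (a j)) (w j)

theorem oz_shift (h : IsAct Ψ) {s : Finset J} [DecidableEq J] {i : J} (hi : i ∉ s)
    (a : J → Fin k → A) (w : J → Q) (n v : Fin k → ℤ) :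
    oz Ψ (insert i s) a w (n + v) - Ψ (pz v (a i)) (oz Ψ (insert i s) a w n) =
      oz Ψ s a (fun j => Ψ (pz v (a j)) (w j) - Ψ (pz v (a i)) (w j)) n := by
  unfold oz
  rw [Finset.sum_insert hi, Finset.sum_insert hi, map_add, map_sum, pz_add, ← h.add,
    add_comm (pz n (a i)), add_sub_add_left_eq_sub, ← Finset.sum_sub_distrib]
  refine Finset.sum_congr rfl fun j _ => ?_
  rw [map_sub, ← h.add, ← h.add, ← h.add, pz_add, add_comm (pz n (a j)) (pz v (a i))]

/-- orbit sums which vanish on `ℕ ^ k` vanish -/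
theorem oz_zero (h : IsAct Ψ) (s : Finset J) (a : J → Fin k → A) (w : J → Q)
    (h0 : ∀ n : Fin k → ℕ, oz Ψ s a w (fun l => (n l : ℤ)) = 0) (n : Fin k → ℤ) :
    oz Ψ s a w n = 0 := by
  classical
  induction s using Finset.induction_on generalizing w n with
  | empty => rfl
  | insert i s hi ih =>
    have h1 : ∀ (v : Fin k → ℕ) (n : Fin k → ℤ), oz Ψ (insert i s) a w (n + fun l => (v l : ℤ)) =
        Ψ (pz (fun l => (v l : ℤ)) (a i)) (oz Ψ (insert i s) a w n) := by
      intro v n
      have h2 := ih (fun j => Ψ (pz (fun l => (v l : ℤ)) (a j)) (w j) -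
        Ψ (pz (fun l => (v l : ℤ)) (a i)) (w j)) (fun m => by
          rw [← oz_shift h hi]
          have e : ((fun l => (m l : ℤ)) + fun l => (v l : ℤ) : Fin k → ℤ) =
              fun l => ((m l + v l : ℕ) : ℤ) := by
            funext l
            rw [Pi.add_apply]
            push_cast
            rfl
          rw [e, h0 fun l => m l + v l, h0 m, map_zero, sub_zero]) n
      rw [← oz_shift h hi] at h2
      exact sub_eq_zero.1 h2
    have h3 := h1 (fun l => (n l).natAbs) n
    have e : (n + fun l => (((n l).natAbs : ℕ) : ℤ) : Fin k → ℤ) =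
        fun l => (((n l + (n l).natAbs).toNat : ℕ) : ℤ) := by
      funext l
      rw [Pi.add_apply]
      omega
    rw [e, h0] at h3
    exact h.inj _ h3.symm

/-- orbit sums with values in a pointwise fixed subgroup are polynomial -/
theorem oz_poly (h : IsAct Ψ) (K : AddSubgroup Q) (hK : ∀ a, ∀ x ∈ K, Ψ a x = x) (s : Finset J)
    (a : J → Fin k → A) (w : J → Q) (h0 : ∀ n, oz Ψ s a w n ∈ K) :
    IsPoly s.card (oz Ψ s a w) := by
  classical
  induction s using Finset.induction_on generalizing w with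
  | empty =>
    intro n
    rfl
  | insert i s hi ih =>
    rw [Finset.card_insert_of_notMem hi]
    intro v
    have e : Dv v (oz Ψ (insert i s) a w) =
        oz Ψ s a (fun j => Ψ (pz v (a j)) (w j) - Ψ (pz v (a i)) (w j)) := by
      funext n
      rw [← oz_shift h hi, hK _ _ (h0 n)]
      rfl
    rw [e]
    refine ih _ fun n => ?_
    rw [← oz_shift h hi, hK _ _ (h0 n)]
    exact K.sub_mem (h0 _) (h0 _)

end Pool.Agent.TH784.AA
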