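import Pool.Agent.TH784.AA.Box

/-!
# Few coincidences or independence of a coordinate
-/

set_option autoImplicit false

open Polynomial

noncomputable section

namespace Pool.Agent.TH784.AA

section

variable {R M : Type*} [CommRing R] [AddCommGroup M] [Module R M] {k : ℕ}

/-- values modulo `L` are taken rarely, with a power saving in `N l`, outside a small set -/
def Few (L : Submodule R M) (l : Fin k) (b : (Fin k → ℕ) → M) : Prop :=
  ∃ (G : Set (Fin k → ℕ)) (C δ : ℝ), 0 ≤ C ∧ 0 < δ ∧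
    (∀ c : M, ∀ N : Fin k → ℕ, (∀ j, 1 ≤ N j) →
      cnt N (fun n => n ∈ G ∧ b n - c ∈ L) ≤ C * (vol N * (N l : ℝ) ^ (-δ))) ∧
    (∀ N : Fin k → ℕ, (∀ j, 1 ≤ N j) →
      cnt N (fun n => n ∉ G) ≤ C * (vol N * ∑ j, (N j : ℝ) ^ (-δ)))

/-- independence of the coordinate `l` modulo `L` -/
def Ind (L : Submodule R M) (l : Fin k) (b : (Fin k → ℕ) → M) : Prop :=
  ∀ n, b (Function.update n l (n l + 1)) - b n ∈ L

/-- restriction to a residue class -/
def sub {α : Type*} (r : Fin k → ℕ) (q : ℕ) (b : (Fin k → ℕ) → α) : (Fin k → ℕ) → α :=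
  fun n => b (fun j => r j + q * n j)

theorem sub_sub {α : Type*} (r r' : Fin k → ℕ) (q q' : ℕ) (b : (Fin k → ℕ) → α) :
    sub r' q' (sub r q b) = sub (fun j => r j + q * r' j) (q * q') b := by
  funext n
  unfold sub
  congr 1
  funext j
  ring

theorem Few.mono {L L' : Submodule R M} (h : L ≤ L') {l : Fin k} {b : (Fin k → ℕ) → M}
    (hf : Few L' l b) : Few L l b := by
  obtain ⟨G, C, δ, hC, hδ, h1, h2⟩ := hf
  exact ⟨G, C, δ, hC, hδ, fun c N hN => (cnt_mono fun n hn => ⟨hn.1, h hn.2⟩).trans (h1 c N hN), h2⟩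

theorem Ind.mono {L L' : Submodule R M} (h : L ≤ L') {l : Fin k} {b : (Fin k → ℕ) → M}
    (hf : Ind L l b) : Ind L' l b := fun n => h (hf n)

theorem Ind.add {L : Submodule R M} {l : Fin k} {b : (Fin k → ℕ) → M}
    (hf : Ind L l b) (n : Fin k → ℕ) (s : ℕ) : b (Function.update n l (n l + s)) - b n ∈ L := by
  induction s with
  | zero =>
    rw [add_zero, Function.update_eq_self, sub_self]
    exact L.zero_mem
  | succ s ih =>
    have h1 := hf (Function.update n l (n l + s))
    rw [Function.update_self, Function.update_idem] at h1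
    have h2 := L.add_mem h1 ih
    rw [sub_add_sub_cancel] at h2
    exact h2

theorem Ind.sub {L : Submodule R M} {l : Fin k} {b : (Fin k → ℕ) → M}
    (hf : Ind L l b) (r : Fin k → ℕ) (q : ℕ) : Ind L l (sub r q b) := by
  intro n
  have h1 := hf.add (fun j => r j + q * n j) q
  unfold AA.sub
  have e : (fun j => r j + q * Function.update n l (n l + 1) j) =
      Function.update (fun j => r j + q * n j) l (r l + q * n l + q) := by
    funext j
    by_cases hj : j = l
    · subst hj
      rw [Function.update_self, Function.update_self]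
      ring
    · rw [Function.update_of_ne hj, Function.update_of_ne hj]
  rw [e]
  exact h1

theorem cnt_sub {r : Fin k → ℕ} {q : ℕ} (hr : ∀ j, r j < q) (N : Fin k → ℕ)
    (P : (Fin k → ℕ) → Prop) :
    cnt N (fun n => P (fun j => r j + q * n j)) ≤ cnt (fun j => q * N j) P := by
  classical
  unfold cnt
  have : ((bxs N).filter (fun n => P (fun j => r j + q * n j))).card ≤
      ((bxs (fun j => q * N j)).filter P).card := by
    refine Finset.card_le_card_of_injOn (fun n j => r j + q * n j) ?_ ?_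
    · intro n hn
      rw [Finset.mem_coe, Finset.mem_filter, mem_bxs] at hn
      rw [Finset.mem_coe, Finset.mem_filter, mem_bxs]
      refine ⟨fun j => ?_, hn.2⟩
      have h1 := hn.1 j
      have h2 := hr j
      calc r j + q * n j < q + q * n j := by omega
        _ = q * (n j + 1) := by ring
        _ ≤ q * N j := Nat.mul_le_mul_left _ h1
    · intro n hn n' hn' e
      funext j
      have h1 := congrFun e j
      have h2 := hr j
      have h3 : q * n j = q * n' j := by
        have : r j + q * n j = r j + q * n' j := h1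
        omega
      exact Nat.eq_of_mul_eq_mul_left (by omega) h3
  exact_mod_cast this

theorem vol_mul (q : ℕ) (N : Fin k → ℕ) : vol (fun j => q * N j) = (q : ℝ) ^ k * vol N := by
  unfold vol
  push_cast
  rw [Finset.prod_mul_distrib, Finset.prod_const, Finset.card_univ, Fintype.card_fin]

theorem Few.sub {L : Submodule R M} {l : Fin k} {b : (Fin k → ℕ) → M}
    (hf : Few L l b) {r : Fin k → ℕ} {q : ℕ} (hr : ∀ j, r j < q) : Few L l (sub r q b) := by
  obtain ⟨G, C, δ, hC, hδ, h1, h2⟩ := hf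
  have hpow : ∀ n : ℕ, 1 ≤ n → 1 ≤ q → ((q * n : ℕ) : ℝ) ^ (-δ) ≤ (n : ℝ) ^ (-δ) := by
    intro n hn hq
    have hn' : (0 : ℝ) < n := by exact_mod_cast hn
    apply Real.rpow_le_rpow_of_nonpos hn'
    · have : n ≤ q * n := Nat.le_mul_of_pos_left n hq
      exact_mod_cast this
    · linarith
  refine ⟨{n | (fun j => r j + q * n j) ∈ G}, C * (q : ℝ) ^ k, δ, by positivity, hδ, ?_, ?_⟩
  · intro c N hN
    have hq : 1 ≤ q := by
      have := hr l
      omega
    have hN' : ∀ j, 1 ≤ q * N j := fun j => Nat.mul_pos hq (hN j)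
    refine (cnt_sub hr N (fun n => n ∈ G ∧ b n - c ∈ L)).trans ?_
    refine (h1 c _ hN').trans ?_
    rw [vol_mul, mul_assoc C, mul_assoc ((q : ℝ) ^ k)]
    refine mul_le_mul_of_nonneg_left ?_ hC
    refine mul_le_mul_of_nonneg_left ?_ (by positivity)
    refine mul_le_mul_of_nonneg_left ?_ (vol_nonneg _)
    exact hpow _ (hN l) hq
  · intro N hN
    have hq : 1 ≤ q := by
      have := hr l
      omega
    have hN' : ∀ j, 1 ≤ q * N j := fun j => Nat.mul_pos hq (hN j)
    refine (cnt_sub hr N (fun n => n ∉ G)).trans ?_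
    refine (h2 _ hN').trans ?_
    rw [vol_mul, mul_assoc C, mul_assoc ((q : ℝ) ^ k)]
    refine mul_le_mul_of_nonneg_left ?_ hC
    refine mul_le_mul_of_nonneg_left ?_ (by positivity)
    refine mul_le_mul_of_nonneg_left ?_ (vol_nonneg _)
    exact Finset.sum_le_sum fun j _ => hpow _ (hN j) hq

/-- the dichotomy in the direction `l` -/
def Dic (L : Submodule R M) (l : Fin k) (a : (Fin k → ℕ) → M) : Prop :=
  ∃ q : ℕ, 1 ≤ q ∧ ∀ r : Fin k → ℕ, (∀ j, r j < q) →
    Ind L l (sub r q a) ∨ Few L l (sub r q a)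

theorem dic_refine {L : Submodule R M} {l : Fin k} {a : (Fin k → ℕ) → M} {q q' : ℕ}
    (hq : 1 ≤ q) (hq' : 1 ≤ q') (h : ∀ r : Fin k → ℕ, (∀ j, r j < q) →
    Ind L l (sub r q a) ∨ Few L l (sub r q a)) (r : Fin k → ℕ) (hr : ∀ j, r j < q * q') :
    Ind L l (sub r (q * q') a) ∨ Few L l (sub r (q * q') a) := by
  have e : sub r (q * q') a = sub (fun j => r j / q) q' (sub (fun j => r j % q) q a) := by
    rw [sub_sub]
    congr 1
    funext j
    exact (Nat.mod_add_div _ _).symm
  rw [e]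
  have h1 : ∀ j, r j / q < q' := fun j => Nat.div_lt_of_lt_mul (hr j)
  rcases h (fun j => r j % q) (fun j => Nat.mod_lt _ hq) with h2 | h2
  · exact Or.inl (h2.sub _ _)
  · exact Or.inr (h2.sub h1)

theorem Dic.inf {L₁ L₂ : Submodule R M} {l : Fin k} {a : (Fin k → ℕ) → M} (h₁ : Dic L₁ l a)
    (h₂ : Dic L₂ l a) : Dic (L₁ ⊓ L₂) l a := by
  obtain ⟨q₁, hq₁, h₁⟩ := h₁
  obtain ⟨q₂, hq₂, h₂⟩ := h₂
  refine ⟨q₁ * q₂, Nat.mul_pos hq₁ hq₂, fun r hr => ?_⟩
  have h3 := dic_refine hq₁ hq₂ h₁ r hr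
  have h4 := dic_refine hq₂ hq₁ h₂ r (fun j => by rw [mul_comm]; exact hr j)
  rw [mul_comm q₂ q₁] at h4
  rcases h3 with h3 | h3
  · rcases h4 with h4 | h4
    · exact Or.inl fun n => ⟨h3 n, h4 n⟩
    · exact Or.inr (h4.mono inf_le_right)
  · exact Or.inr (h3.mono inf_le_left)

end

end Pool.Agent.TH784.AA
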